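import Pool.Agent.Lib.MP_49ebba_an.MR.SpecB
import Pool.Agent.Lib.MP_250511_an.STA
import Pool.Agent.Lib.MP_250511_an.PAR
import Pool.Agent.Lib.MP_250511_an.POL
import Pool.Agent.Lib.MP_250511_an.LOW

/-!
# MR, module BIE: the inequality of Bieberbach and Eilenberg (MP_49ebba_an)
-/

set_option autoImplicit false

namespace Pool.Agent.Lib.MP49ebba

namespace BIEM

open Metric Filter Topology MeasureTheory Set
open scoped Real ENNReal
open Pool.Agent.Lib.MP250511 (Th JJ NN specSTA specPAR specPOL)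
open Pool.Agent.Lib.MP250511.LOWM

theorem an_dslope {f : ℂ → ℂ} (hf : AnalyticOnNhd ℂ f (ball 0 1)) :
    AnalyticOnNhd ℂ (dslope f 0) (ball 0 1) := by
  have h1 : DifferentiableOn ℂ (dslope f 0) (ball 0 1) :=
    (Complex.differentiableOn_dslope (isOpen_ball.mem_nhds (mem_ball_self one_pos))).2
      hf.differentiableOn
  exact h1.analyticOnNhd isOpen_ball

theorem dslope_eq (f : ℂ → ℂ) (z : ℂ) : f z = f 0 + z * dslope f 0 z := by
  have h := sub_smul_dslope f 0 z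
  rw [sub_zero, smul_eq_mul] at h
  rw [h]
  ring

theorem split2 {k : ℂ → ℂ} (hk : AnalyticOnNhd ℂ k (ball 0 1)) : ∃ (h₁ h : ℂ) (m : ℂ → ℂ),
    AnalyticOnNhd ℂ m (ball 0 1) ∧ ∀ z, k z = h₁ + h * z + z ^ 2 * m z := by
  refine ⟨k 0, dslope k 0 0, dslope (dslope k 0) 0, an_dslope (an_dslope hk), fun z => ?_⟩
  have e1 := dslope_eq k z
  have e2 := dslope_eq (dslope k 0) z
  rw [e1, e2]
  ring

theorem NN_eq (Z : ℂ) : NN 0 1 Z = (‖Z‖ ^ 2)⁻¹ := by
  unfold NN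
  rw [zero_div, add_zero, zero_sub, norm_neg, norm_div, Complex.ofReal_one, norm_one, div_pow,
    one_pow, one_div]

theorem int_inv {a b : ℝ} (ha : 0 < a) (hab : a ≤ b) :
    ∫ z in An a b, (‖z‖ ^ 2)⁻¹ = 2 * π * (Real.log b - Real.log a) ∧
      IntegrableOn (fun z : ℂ => (‖z‖ ^ 2)⁻¹) (An a b) := by
  have hc : ContinuousOn (fun z : ℂ => (‖z‖ ^ 2)⁻¹) (Ac a b) := by
    intro z hz
    have hz0 : ‖z‖ ^ 2 ≠ 0 := pow_ne_zero _ (ha.trans_le hz.1).ne'
    apply ContinuousAt.continuousWithinAt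
    fun_prop (disch := assumption)
  refine ⟨?_, intOn hc⟩
  have h1 : ∫ z in An a b, (‖z‖ ^ 2)⁻¹ = ∫ t in a..b, t * ∫ θ in (-π)..π,
      (‖((t : ℂ) * Complex.exp (θ * Complex.I))‖ ^ 2)⁻¹ :=
    specPOL (fun z : ℂ => (‖z‖ ^ 2)⁻¹) a b ha hab hc
  rw [h1]
  have h2 : ∫ t in a..b, t * ∫ θ in (-π)..π,
      (‖((t : ℂ) * Complex.exp (θ * Complex.I))‖ ^ 2)⁻¹ = ∫ t in a..b, 2 * π * t⁻¹ := by
    apply intervalIntegral.integral_congr
    intro t ht
    rw [uIcc_of_le hab] at ht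
    have ht0 : 0 < t := ha.trans_le ht.1
    have h3 : ∀ θ : ℝ, (‖((t : ℂ) * Complex.exp (θ * Complex.I))‖ ^ 2)⁻¹ = (t ^ 2)⁻¹ := by
      intro θ
      rw [norm_pt t θ ht0]
    simp only [h3]
    rw [intervalIntegral.integral_const, smul_eq_mul]
    field_simp
    ring
  rw [h2, intervalIntegral.integral_const_mul, integral_inv_of_pos ha (ha.trans_le hab),
    Real.log_div (ha.trans_le hab).ne' ha.ne']

/-- the logarithmic derivative -/
theorem logder {Y : ℂ → ℂ} (hY : AnalyticOnNhd ℂ Y (ball 0 1)) (hinj : Set.InjOn Y (ball 0 1))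
    (h0 : Y 0 = 0) (hd : deriv Y 0 ≠ 0) :
    (∀ z, Y z = z * dslope Y 0 z) ∧ (∀ z ∈ ball (0 : ℂ) 1, dslope Y 0 z ≠ 0) ∧
    ∃ (h₁ h : ℂ) (m : ℂ → ℂ), AnalyticOnNhd ℂ m (ball 0 1) ∧
      ∀ z ∈ ball (0 : ℂ) 1, z ≠ 0 → deriv Y z / Y z = Jf 0 1 h₁ h m z := by
  have hyY : ∀ z, Y z = z * dslope Y 0 z := by
    intro z
    have h := dslope_eq Y z
    rw [h0, zero_add] at h
    exact h
  have hy := an_dslope hY
  have hyne : ∀ z ∈ ball (0 : ℂ) 1, dslope Y 0 z ≠ 0 := by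
    intro z hz hzero
    by_cases hz0 : z = 0
    · rw [hz0, dslope_same] at hzero
      exact hd hzero
    · have h1 : Y z = Y 0 := by rw [h0, hyY z, hzero, mul_zero]
      exact hz0 (hinj hz (mem_ball_self one_pos) h1)
  refine ⟨hyY, hyne, ?_⟩
  have hk : AnalyticOnNhd ℂ (fun z => deriv (dslope Y 0) z / dslope Y 0 z) (ball 0 1) := by
    intro z hz
    exact (hy.deriv z hz).div (hy z hz) (hyne z hz)
  obtain ⟨h₁, h, m, hm, hkm⟩ := split2 hk
  refine ⟨h₁, h, m, hm, fun z hz hz0 => ?_⟩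
  have h1 : HasDerivAt Y (1 * dslope Y 0 z + z * deriv (dslope Y 0) z) z := by
    have h2 := (hasDerivAt_id z).mul (hy z hz).differentiableAt.hasDerivAt
    have h3 : (id * dslope Y 0 : ℂ → ℂ) = Y := funext fun w => (hyY w).symm
    rw [h3] at h2
    exact h2
  have h4 := hkm z
  have h5 := hyne z hz
  unfold Jf
  have h6 : (-((0 : ℝ) : ℂ)) / z ^ 2 + ((1 : ℝ) : ℂ) / z + h₁ + h * z + z ^ 2 * m z =
      1 / z + (h₁ + h * z + z ^ 2 * m z) := by
    push_cast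
    ring
  rw [h6, ← h4, h1.deriv]
  conv_lhs => rw [hyY z]
  field_simp

end BIEM

open BIEM in
open Metric Filter Topology MeasureTheory Set in
open scoped Real ENNReal in
open Pool.Agent.Lib.MP250511 (Th JJ NN specSTA specPAR specPOL) in
open Pool.Agent.Lib.MP250511.LOWM in
theorem specBIE : SpecBIE := by
  intro Y hY hinj h0 hne
  by_contra hcon
  push Not at hcon
  obtain ⟨b, hb1, hba⟩ := exists_between hcon
  have hb0 : 0 < b := one_pos.trans hb1
  have hd : deriv Y 0 ≠ 0 := by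
    intro h
    rw [h, norm_zero] at hcon
    linarith
  obtain ⟨hyY, hyne, h₁, h, m, hm, hJf⟩ := logder hY hinj h0 hd
  have hy := an_dslope hY
  obtain ⟨r, hr1, hr2⟩ := exists_between (inv_lt_one_of_one_lt₀ hb1)
  have hr0 : 0 < r := (inv_pos.2 hb0).trans hr1
  have hrb : 1 < r * b := by
    have := mul_lt_mul_of_pos_right hr1 hb0
    rwa [inv_mul_cancel₀ hb0.ne'] at this
  obtain ⟨a, ha1, ha2⟩ := exists_between (inv_lt_one_of_one_lt₀ hrb)
  have hrb0 : 0 < r * b := one_pos.trans hrb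
  have ha0 : 0 < a := (inv_pos.2 hrb0).trans ha1
  have harb : 1 < a * (r * b) := by
    have := mul_lt_mul_of_pos_right ha1 hrb0
    rwa [inv_mul_cancel₀ hrb0.ne'] at this
  -- bounds for `y`
  have hsub : closedBall (0 : ℂ) r ⊆ ball 0 1 := closedBall_subset_ball hr2
  have hcy : ContinuousOn (fun z => ‖dslope Y 0 z‖) (closedBall (0 : ℂ) r) :=
    (hy.continuousOn.mono hsub).norm
  have hne' : (closedBall (0 : ℂ) r).Nonempty := ⟨0, mem_closedBall_self hr0.le⟩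
  obtain ⟨z₁, hz₁, hmin⟩ := (isCompact_closedBall (0 : ℂ) r).exists_isMinOn hne' hcy
  obtain ⟨z₂, hz₂, hmax⟩ := (isCompact_closedBall (0 : ℂ) r).exists_isMaxOn hne' hcy
  set c := ‖dslope Y 0 z₁‖ with hc
  set C := ‖dslope Y 0 z₂‖ with hC
  have hc0 : 0 < c := norm_pos_iff.2 (hyne z₁ (hsub hz₁))
  have hC0 : 0 < C := norm_pos_iff.2 (hyne z₂ (hsub hz₂))
  have hnear : ∀ᶠ z in 𝓝 (0 : ℂ), b < ‖dslope Y 0 z‖ := by
    have h1 : ContinuousAt (fun z => ‖dslope Y 0 z‖) 0 :=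
      ((hy 0 (mem_ball_self one_pos)).continuousAt).norm
    have h2 : b < ‖dslope Y 0 0‖ := by
      rw [dslope_same]
      exact hba
    exact h1.eventually (lt_mem_nhds h2)
  obtain ⟨δ₀, hδ₀, hball⟩ := Metric.eventually_nhds_iff.1 hnear
  obtain ⟨δ, hδ, hδs⟩ : ∃ δ : ℝ, 0 < δ ∧ δ < δ₀ ∧ δ < r ∧ b * δ < δ₀ * c ∧ b * δ * (r * C) < 1 := by
    have e : ∀ᶠ δ in 𝓝[>] (0 : ℝ), δ < δ₀ ∧ δ < r ∧ b * δ < δ₀ * c ∧ b * δ * (r * C) < 1 := by
      have t1 : Tendsto (fun δ : ℝ => b * δ) (𝓝 0) (𝓝 (b * 0)) := by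
        exact (continuous_const.mul continuous_id).tendsto 0
      have t2 : Tendsto (fun δ : ℝ => b * δ * (r * C)) (𝓝 0) (𝓝 (b * 0 * (r * C))) := by
        exact ((continuous_const.mul continuous_id).mul continuous_const).tendsto 0
      rw [mul_zero] at t1
      rw [mul_zero, zero_mul] at t2
      refine Eventually.filter_mono nhdsWithin_le_nhds ?_
      filter_upwards [gt_mem_nhds hδ₀, gt_mem_nhds hr0, t1.eventually (gt_mem_nhds (mul_pos hδ₀ hc0)),
        t2.eventually (gt_mem_nhds one_pos)] with δ a1 a2 a3 a4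
      exact ⟨a1, a2, a3, a4⟩
    obtain ⟨δ, hδ1, hδ2⟩ := (e.and self_mem_nhdsWithin).exists
    exact ⟨δ, hδ2, hδ1⟩
  obtain ⟨hδ1, hδ2, hδ3, hδ4⟩ := hδs
  set R : ℝ := (b * δ)⁻¹ with hR
  have hbδ : 0 < b * δ := mul_pos hb0 hδ
  have hR0 : 0 < R := inv_pos.2 hbδ
  have hAnball : ∀ z ∈ An δ r, z ∈ ball (0 : ℂ) 1 ∧ z ≠ 0 := by
    intro z hz
    refine ⟨?_, ?_⟩
    · rw [mem_ball, dist_zero_right]
      exact hz.2.trans hr2
    · intro h
      have := hz.1
      rw [h, norm_zero] at this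
      exact absurd this (not_lt.2 hδ.le)
  have hTh : ∀ z ∈ An δ r, ‖Th Y z‖ < R := by
    intro z hz
    have hzc : z ∈ closedBall (0 : ℂ) r := by
      rw [mem_closedBall, dist_zero_right]
      exact hz.2.le
    have hlow : b * δ < ‖Y z‖ := by
      rw [hyY z, norm_mul]
      rcases lt_or_ge ‖z‖ δ₀ with h1 | h1
      · have h2 : b < ‖dslope Y 0 z‖ := hball (by rw [dist_zero_right]; exact h1)
        rw [mul_comm]
        exact mul_lt_mul'' hz.1 h2 hδ.le hb0.le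
      · have h2 : c ≤ ‖dslope Y 0 z‖ := hmin hzc
        exact hδ3.trans_le (mul_le_mul h1 h2 hc0.le (norm_nonneg z))
    have hup : ‖Y z‖ < R := by
      rw [hyY z, norm_mul]
      have h2 : ‖dslope Y 0 z‖ ≤ C := hmax hzc
      have h3 : ‖z‖ * ‖dslope Y 0 z‖ ≤ r * C :=
        mul_le_mul hz.2.le h2 (norm_nonneg _) hr0.le
      refine h3.trans_lt ?_
      rw [hR, ← one_div, lt_div_iff₀ hbδ]
      linarith [mul_comm (b * δ) (r * C)]
    unfold Th
    split_ifs with h4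
    · rw [norm_inv, hR]
      exact inv_strictAnti₀ hbδ hlow
    · exact hup
  have hRa : a ≤ R := by
    obtain ⟨z, hz⟩ : ∃ z : ℂ, z ∈ An δ r := by
      obtain ⟨s, hs1, hs2⟩ := exists_between hδ2
      refine ⟨(s : ℂ), ?_⟩
      show δ < ‖(s : ℂ)‖ ∧ ‖(s : ℂ)‖ < r
      rw [Complex.norm_real, Real.norm_eq_abs, abs_of_pos (hδ.trans hs1)]
      exact ⟨hs1, hs2⟩
    have h1 := hTh z hz
    have h2 : 1 ≤ ‖Th Y z‖ := by
      have hYz : Y z ≠ 0 := by
        rw [hyY z]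
        exact mul_ne_zero (hAnball z hz).2 (hyne z (hAnball z hz).1)
      unfold Th
      split_ifs with h4
      · rw [norm_inv]
        exact (one_le_inv₀ (norm_pos_iff.2 hYz)).2 h4
      · exact (not_le.1 h4).le
    linarith
  -- the weight
  set U : Set ℂ := {Z : ℂ | ‖Z‖ < R} with hU
  have hUm : MeasurableSet U := measurableSet_lt measurable_norm measurable_const
  set W : ℂ → ℝ≥0∞ := U.indicator (fun _ => 1) with hW
  have hWm : Measurable W := measurable_const.indicator hUm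
  have hST := specSTA Y hY hinj h0 hne 0 1 W hWm
  -- right-hand side
  obtain ⟨hI, hIint⟩ := int_inv ha0 hRa
  have hright : ∫⁻ Z in {Z : ℂ | 1 ≤ ‖Z‖}, W Z * ENNReal.ofReal (NN 0 1 Z) ≤
      ENNReal.ofReal (2 * π * (Real.log R - Real.log a)) := by
    have e1 : ∀ Z, W Z * ENNReal.ofReal (NN 0 1 Z) =
        U.indicator (fun Z => ENNReal.ofReal ((‖Z‖ ^ 2)⁻¹)) Z := by
      intro Z
      rw [hW, NN_eq]
      by_cases hZ : Z ∈ U
      · rw [indicator_of_mem hZ, indicator_of_mem hZ, one_mul]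
      · rw [indicator_of_notMem hZ, indicator_of_notMem hZ, zero_mul]
    simp only [e1]
    rw [lintegral_indicator hUm, Measure.restrict_restrict hUm]
    have e2 : U ∩ {Z : ℂ | 1 ≤ ‖Z‖} ⊆ An a R := by
      intro Z hZ
      exact ⟨ha2.trans_le hZ.2, hZ.1⟩
    refine (lintegral_mono_set e2).trans (le_of_eq ?_)
    rw [← hI]
    exact (ofReal_integral_eq_lintegral_ofReal hIint
      (Eventually.of_forall fun z => by positivity)).symm
  -- left-hand side
  have hleft : ENNReal.ofReal (2 * π * (Real.log r - Real.log δ)) ≤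
      ∫⁻ z in ball (0 : ℂ) 1 \ {0}, W (Th Y z) * ENNReal.ofReal (JJ Y 0 1 z) := by
    have hAD : An δ r ⊆ ball (0 : ℂ) 1 \ {0} := fun z hz => ⟨(hAnball z hz).1, (hAnball z hz).2⟩
    refine le_trans ?_ (lintegral_mono_set hAD)
    have e1 : ∫⁻ z in An δ r, W (Th Y z) * ENNReal.ofReal (JJ Y 0 1 z) =
        ∫⁻ z in An δ r, ENNReal.ofReal (‖Jf 0 1 h₁ h m z‖ ^ 2) := by
      refine setLIntegral_congr_fun (meas_An δ r) fun z hz => ?_
      have e2 : W (Th Y z) = 1 := by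
        rw [hW]
        exact indicator_of_mem (s := U) (hTh z hz) _
      have e3 : JJ Y 0 1 z = ‖Jf 0 1 h₁ h m z‖ ^ 2 := by
        rw [← hJf z (hAnball z hz).1 (hAnball z hz).2]
        unfold JJ
        congr 2
        rw [Complex.ofReal_one, zero_div, sub_zero, sub_zero, mul_one_div]
      simp only [e2, e3, one_mul]
    rw [e1]
    have hcont : ContinuousOn (fun z => ‖Jf 0 1 h₁ h m z‖ ^ 2) (Ac δ r) :=
      (contJ hm hδ hr2).norm.pow 2
    refine le_trans (ENNReal.ofReal_le_ofReal ?_) (ofReal_integral_le (intOn hcont))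
    refine le_trans ?_ (I1 specPAR specPOL hm hδ hδ2.le hr2)
    have q1 : 0 ≤ r ^ 2 - δ ^ 2 := by nlinarith
    have q2 : 0 ≤ r ^ 4 - δ ^ 4 := by
      have : r ^ 4 - δ ^ 4 = (r ^ 2 - δ ^ 2) * (r ^ 2 + δ ^ 2) := by ring
      rw [this]
      positivity
    have q3 : 0 ≤ π * (‖h₁‖ ^ 2 * (r ^ 2 - δ ^ 2) + ‖h‖ ^ 2 * (r ^ 4 - δ ^ 4) / 2) := by
      have := Real.pi_pos
      positivity
    have q4 : π * ((0 : ℝ) ^ 2 / δ ^ 2 - 0 ^ 2 / r ^ 2 + 2 * 1 ^ 2 * (Real.log r - Real.log δ) +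
        ‖h₁‖ ^ 2 * (r ^ 2 - δ ^ 2) + ‖h‖ ^ 2 * (r ^ 4 - δ ^ 4) / 2) =
        2 * π * (Real.log r - Real.log δ) +
          π * (‖h₁‖ ^ 2 * (r ^ 2 - δ ^ 2) + ‖h‖ ^ 2 * (r ^ 4 - δ ^ 4) / 2) := by
      ring
    rw [q4]
    linarith
  have hfin := hleft.trans (hST.trans hright)
  have hlogR : Real.log R = -Real.log b - Real.log δ := by
    rw [hR, Real.log_inv, Real.log_mul hb0.ne' hδ.ne']
    ring
  have hnn : 0 ≤ 2 * π * (Real.log R - Real.log a) := by
    have h1 := Real.log_le_log ha0 hRa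
    have := Real.pi_pos
    have h2 : 0 ≤ Real.log R - Real.log a := by linarith
    positivity
  have h1 := (ENNReal.ofReal_le_ofReal_iff hnn).1 hfin
  have h2 : Real.log r - Real.log δ ≤ Real.log R - Real.log a :=
    le_of_mul_le_mul_left h1 (by positivity)
  have h3 : 0 < Real.log (a * (r * b)) := Real.log_pos harb
  rw [Real.log_mul ha0.ne' hrb0.ne', Real.log_mul hr0.ne' hb0.ne'] at h3
  linarith

end Pool.Agent.Lib.MP49ebba
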