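import Pool.Agent.Lib.MP_49ebba_an.MR.Spec

/-!
# Module BND: linearisations are bounded by the escape radius
-/

set_option autoImplicit false

namespace Pool.Agent.Lib.MP49ebba

open Metric Filter Topology

namespace BNDM

lemma mem_closedBall_pow {l : ℂ} (hl1 : ‖l‖ ≤ 1) (z : ℂ) (n : ℕ) :
    l ^ n * z ∈ closedBall (0 : ℂ) ‖z‖ := by
  rw [mem_closedBall_zero_iff, norm_mul, norm_pow]
  have h1 : ‖l‖ ^ n ≤ 1 := pow_le_one₀ (norm_nonneg _) hl1
  nlinarith [norm_nonneg z]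

lemma iter_eq {l : ℂ} {r : ℝ} {h : ℂ → ℂ} (hl1 : ‖l‖ ≤ 1) (hh : IsLin l r h) {z : ℂ}
    (hz : z ∈ ball (0 : ℂ) r) (n : ℕ) : (P l)^[n] (h z) = h (l ^ n * z) := by
  have hz' : closedBall (0 : ℂ) ‖z‖ ⊆ ball 0 r :=
    closedBall_subset_ball (by simpa using hz)
  induction n with
  | zero => simp
  | succ n ih =>
    rw [Function.iterate_succ_apply', ih, hh.eqn _ (hz' (mem_closedBall_pow hl1 z n))]
    congr 1
    ring

end BNDM

theorem specBND : SpecBND := by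
  intro l r h hl hl1 hh z hz
  by_contra hcon
  have hcon' : 1 + 1 / ‖l‖ < ‖h z‖ := not_le.mp hcon
  have hz' : closedBall (0 : ℂ) ‖z‖ ⊆ ball 0 r :=
    closedBall_subset_ball (by simpa using hz)
  obtain ⟨B, hB⟩ := (isCompact_closedBall (0 : ℂ) ‖z‖).exists_bound_of_continuousOn
    (hh.diff.continuousOn.mono hz')
  have hκ : 1 < ‖l‖ * (‖h z‖ - 1) := by
    have h1 : 1 / ‖l‖ < ‖h z‖ - 1 := by linarith
    have h2 : ‖l‖ * (1 / ‖l‖) < ‖l‖ * (‖h z‖ - 1) := mul_lt_mul_of_pos_left h1 hl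
    rwa [mul_one_div_cancel hl.ne'] at h2
  have hw1 : 1 ≤ ‖h z‖ := by
    have : 0 < 1 / ‖l‖ := by positivity
    linarith
  have hstep : ∀ v : ℂ, ‖h z‖ ≤ ‖v‖ → ‖l‖ * (‖h z‖ - 1) * ‖v‖ ≤ ‖P l v‖ := by
    intro v hv
    have e : P l v = l * (v * (1 + v)) := by
      unfold P
      ring
    rw [e, norm_mul, norm_mul, mul_assoc]
    refine mul_le_mul_of_nonneg_left ?_ (norm_nonneg _)
    have h1 : ‖v‖ - 1 ≤ ‖1 + v‖ := by
      have := norm_sub_norm_le v (-1)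
      rw [norm_neg, norm_one] at this
      have e2 : v - -1 = 1 + v := by ring
      rwa [e2] at this
    nlinarith [norm_nonneg v]
  have hgrow : ∀ n : ℕ, ‖h z‖ ≤ ‖(P l)^[n] (h z)‖ ∧
      (‖l‖ * (‖h z‖ - 1)) ^ n * ‖h z‖ ≤ ‖(P l)^[n] (h z)‖ := by
    intro n
    induction n with
    | zero => simp
    | succ n ih =>
      obtain ⟨h1, h2⟩ := ih
      have h3 := hstep _ h1
      rw [Function.iterate_succ_apply']
      refine ⟨?_, ?_⟩
      · refine le_trans h1 (le_trans ?_ h3)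
        nlinarith [norm_nonneg ((P l)^[n] (h z))]
      · refine le_trans ?_ h3
        rw [pow_succ, mul_comm ((‖l‖ * (‖h z‖ - 1)) ^ n), mul_assoc]
        exact mul_le_mul_of_nonneg_left h2 (by linarith)
  obtain ⟨n, hn⟩ := pow_unbounded_of_one_lt B hκ
  have h1 := (hgrow n).2
  rw [BNDM.iter_eq hl1 hh hz n] at h1
  have h2 := hB _ (BNDM.mem_closedBall_pow hl1 z n)
  have h3 : 0 ≤ (‖l‖ * (‖h z‖ - 1)) ^ n := by positivity
  nlinarith

end Pool.Agent.Lib.MP49ebba
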