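import Pool.Agent.Lib.MP_49ebba_an.MR.Spec

/-!
Module CRI: for `0 < |l| < 1` the critical value obstructs the linearisation, and the polynomials
`uu l n` converge to the point over the critical point.
-/

set_option autoImplicit false

namespace Pool.Agent.Lib.MP49ebba

open Metric Filter Topology

namespace CRIM

lemma lin_mono {l : ℂ} {r s : ℝ} (hs : s ≤ r) (h : Lin l r) : Lin l s := by
  obtain ⟨h, h1, h2, h3, h4⟩ := h
  exact ⟨h, h1.mono (ball_subset_ball hs), h2, h3, fun z hz => h4 z (ball_subset_ball hs hz)⟩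

lemma r_le {l : ℂ} {r M : ℝ} {h : ℂ → ℂ} (hh : IsLin l r h) (hM0 : 0 ≤ M)
    (hM : ∀ z ∈ ball (0 : ℂ) r, ‖h z‖ ≤ M) : r ≤ M := by
  by_contra hlt
  push Not at hlt
  have hs0 : 0 < (M + r) / 2 := by linarith
  have hsr : (M + r) / 2 < r := by linarith
  have hsub : closedBall (0 : ℂ) ((M + r) / 2) ⊆ ball 0 r := closedBall_subset_ball hsr
  have h1 := Complex.norm_deriv_le_of_forall_mem_sphere_norm_le hs0
    (hh.diff.diffContOnCl_ball hsub) (fun z hz => hM z (hsub (sphere_subset_closedBall hz)))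
  rw [hh.one, norm_one, le_div_iff₀ hs0, one_mul] at h1
  linarith

lemma iter_crit (l : ℂ) (n : ℕ) : (P l)^[n] (-1 / 2) = l ^ n * uu l n := by
  induction n with
  | zero =>
    show (-1 / 2 : ℂ) = l ^ 0 * (-1 / 2)
    rw [pow_zero, one_mul]
  | succ n ih =>
    rw [Function.iterate_succ_apply', ih]
    show l * (l ^ n * uu l n + (l ^ n * uu l n) ^ 2) =
      l ^ (n + 1) * (uu l n + l ^ n * uu l n ^ 2)
    ring

lemma iter_lin {l : ℂ} {r : ℝ} {h : ℂ → ℂ} (hl : ‖l‖ ≤ 1) (hh : IsLin l r h) {w : ℂ}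
    (hw : w ∈ ball (0 : ℂ) r) (n : ℕ) : (P l)^[n] (h w) = h (l ^ n * w) := by
  induction n with
  | zero => rw [pow_zero, one_mul]; rfl
  | succ n ih =>
    have hb : l ^ n * w ∈ ball (0 : ℂ) r := by
      rw [mem_ball_zero_iff, norm_mul, norm_pow]
      calc ‖l‖ ^ n * ‖w‖ ≤ 1 * ‖w‖ :=
            mul_le_mul_of_nonneg_right (pow_le_one₀ (norm_nonneg _) hl) (norm_nonneg _)
        _ < r := by rw [one_mul]; exact mem_ball_zero_iff.mp hw
    rw [Function.iterate_succ_apply', ih, hh.eqn _ hb, pow_succ', mul_assoc]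

end CRIM

/-- CRI. -/
theorem specCRI (hBND : SpecBND) (hLIM : SpecLIM) (hEXI : SpecEXI) (hEXT : SpecEXT) :
    SpecCRI := by
  intro l hl0 hl1
  have hlne : l ≠ 0 := norm_pos_iff.mp hl0
  have hM0 : 0 ≤ 1 + 1 / ‖l‖ := by positivity
  obtain ⟨r0, hr0, hL0⟩ := hEXI l hl0 hl1
  have hne : ({r : ℝ | 0 < r ∧ Lin l r}).Nonempty := ⟨r0, hr0, hL0⟩
  have hbd : BddAbove {r : ℝ | 0 < r ∧ Lin l r} := by
    refine ⟨1 + 1 / ‖l‖, ?_⟩
    rintro r ⟨_, h, hh⟩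
    exact CRIM.r_le hh hM0 (hBND l r h hl0 hl1.le hh)
  obtain ⟨u, _, hu, huS⟩ := exists_seq_tendsto_sSup hne hbd
  obtain ⟨ρ, hρ⟩ : ∃ ρ, ρ = sSup {r : ℝ | 0 < r ∧ Lin l r} := ⟨_, rfl⟩
  rw [← hρ] at hu
  have hρ0 : 0 < ρ := by
    rw [hρ]
    exact lt_of_lt_of_le hr0 (le_csSup hbd ⟨hr0, hL0⟩)
  have hLρ : Lin l ρ := hLIM (fun _ => l) u l ρ hlne hρ0 tendsto_const_nhds hu
    (fun k => ⟨hl1.le, (huS k).2⟩)
  obtain ⟨h, hh⟩ := hLρ
  obtain ⟨z0, hz0, hz1⟩ : ∃ z0 : ℂ, ‖z0‖ ≤ ρ ∧ 1 + 4 * h (l * z0) / l = 0 := by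
    by_contra hno
    push Not at hno
    obtain ⟨r', hr', hL'⟩ := hEXT l ρ h hl0 hl1 hρ0 hh hno
    have : r' ≤ ρ := by
      rw [hρ]
      exact le_csSup hbd ⟨hρ0.trans hr', hL'⟩
    linarith
  have hz00 : z0 ≠ 0 := by
    rintro rfl
    rw [mul_zero, hh.zero, mul_zero, zero_div, add_zero] at hz1
    exact one_ne_zero hz1
  have hcrit : h (l * z0) = P l (-1 / 2) := by
    have e : P l (-1 / 2) = -l / 4 := by
      unfold P
      ring
    rw [e]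
    have e2 : h (l * z0) = (l / 4) * (4 * h (l * z0) / l) := by
      field_simp
    rw [e2]
    linear_combination (l / 4) * hz1
  have hz0p : 0 < ‖z0‖ := norm_pos_iff.mpr hz00
  have hball : l * z0 ∈ ball (0 : ℂ) ρ := by
    rw [mem_ball_zero_iff, norm_mul]
    calc ‖l‖ * ‖z0‖ < 1 * ‖z0‖ := mul_lt_mul_of_pos_right hl1 hz0p
      _ ≤ ρ := by rw [one_mul]; exact hz0
  have key : ∀ n : ℕ, h (l ^ (n + 1) * z0) = l ^ (n + 1) * uu l (n + 1) := by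
    intro n
    rw [← CRIM.iter_crit, Function.iterate_succ_apply, ← hcrit,
      CRIM.iter_lin hl1.le hh hball, pow_succ, mul_assoc]
  have hdiff : HasDerivAt h 1 0 := by
    have h1 : DifferentiableAt ℂ h 0 := hh.diff.differentiableAt (ball_mem_nhds 0 hρ0)
    have h2 := h1.hasDerivAt
    rwa [hh.one] at h2
  have hw0 : Tendsto (fun n : ℕ => l ^ (n + 1) * z0) atTop (𝓝[≠] 0) := by
    rw [tendsto_nhdsWithin_iff]
    refine ⟨?_, Eventually.of_forall fun n => mul_ne_zero (pow_ne_zero _ hlne) hz00⟩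
    have h1 : Tendsto (fun n : ℕ => l ^ (n + 1)) atTop (𝓝 0) :=
      (tendsto_pow_atTop_nhds_zero_of_norm_lt_one hl1).comp (tendsto_add_atTop_nat 1)
    simpa using h1.mul_const z0
  have hsl := (hasDerivAt_iff_tendsto_slope.mp hdiff).comp hw0
  have hlim : Tendsto (fun n : ℕ => uu l (n + 1)) atTop (𝓝 z0) := by
    have h1 := hsl.const_mul z0
    rw [mul_one] at h1
    refine h1.congr fun n => ?_
    show z0 * slope h 0 (l ^ (n + 1) * z0) = uu l (n + 1)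
    rw [slope_def_field, hh.zero, sub_zero, sub_zero, key]
    have : l ^ (n + 1) ≠ 0 := pow_ne_zero _ hlne
    field_simp
  refine ⟨z0, hz00, CRIM.lin_mono hz0 ⟨h, hh⟩, (tendsto_add_atTop_iff_nat 1).mp hlim, ?_⟩
  intro n hn
  obtain ⟨m, rfl⟩ : ∃ m, n = m + 1 := ⟨n - 1, by omega⟩
  have hsub : ball (0 : ℂ) ‖z0‖ ⊆ ball 0 ρ := ball_subset_ball hz0
  have hmaps : Set.MapsTo h (ball 0 ‖z0‖) (closedBall (h 0) (1 + 1 / ‖l‖)) := by
    intro z hz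
    rw [hh.zero, mem_closedBall_zero_iff]
    exact hBND l ρ h hl0 hl1.le hh z (hsub hz)
  have hlp : 0 < ‖l‖ ^ (m + 1) := pow_pos hl0 _
  have hlp1 : ‖l‖ ^ (m + 1) < 1 := pow_lt_one₀ (norm_nonneg _) hl1 (by omega)
  have hw : l ^ (m + 1) * z0 ∈ ball (0 : ℂ) ‖z0‖ := by
    rw [mem_ball_zero_iff, norm_mul, norm_pow]
    calc ‖l‖ ^ (m + 1) * ‖z0‖ < 1 * ‖z0‖ := mul_lt_mul_of_pos_right hlp1 hz0p
      _ = ‖z0‖ := one_mul _
  have hS := Complex.dist_le_div_mul_dist_of_mapsTo_ball (hh.diff.mono hsub) hmaps hw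
  rw [hh.zero, dist_zero_right, dist_zero_right, key, norm_mul, norm_mul, norm_pow] at hS
  have hS2 : ‖l‖ ^ (m + 1) * ‖uu l (m + 1)‖ ≤ ‖l‖ ^ (m + 1) * (1 + 1 / ‖l‖) := by
    calc ‖l‖ ^ (m + 1) * ‖uu l (m + 1)‖ ≤
        (1 + 1 / ‖l‖) / ‖z0‖ * (‖l‖ ^ (m + 1) * ‖z0‖) := hS
      _ = ‖l‖ ^ (m + 1) * (1 + 1 / ‖l‖) * (‖z0‖ / ‖z0‖) := by ring
      _ = ‖l‖ ^ (m + 1) * (1 + 1 / ‖l‖) := by rw [div_self hz0p.ne', mul_one]
  exact le_of_mul_le_mul_left hS2 hlp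

end Pool.Agent.Lib.MP49ebba
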