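import Pool.Agent.Lib.MP_49ebba_an.MR.Spec

namespace Pool.Agent.Lib.MP49ebba

open Metric Filter Topology

namespace EXIM

/-- the coefficients of the linearisation divided by z -/
noncomputable def A (l : ℂ) : ℕ → ℂ
  | 0 => 1
  | n + 1 => (∑ i : Fin n.succ, A l i * A l (n - i)) / (l ^ (n + 1) - 1)

lemma A_zero (l : ℂ) : A l 0 = 1 := by rw [A]

lemma A_succ (l : ℂ) (n : ℕ) : A l (n + 1) =
    (∑ ij ∈ Finset.HasAntidiagonal.antidiagonal n, A l ij.1 * A l ij.2) / (l ^ (n + 1) - 1) := by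
  rw [A, Finset.Nat.sum_antidiagonal_eq_sum_range_succ (fun x y => A l x * A l y) n,
    Finset.sum_range]

lemma den (l : ℂ) (h1 : ‖l‖ < 1) (n : ℕ) : 1 - ‖l‖ ≤ ‖l ^ (n + 1) - 1‖ := by
  have h2 : ‖l ^ (n + 1)‖ ≤ ‖l‖ := by
    rw [norm_pow, pow_succ]
    have : ‖l‖ ^ n ≤ 1 := pow_le_one₀ (norm_nonneg _) h1.le
    nlinarith [norm_nonneg l]
  have h3 := norm_sub_norm_le (1 : ℂ) (l ^ (n + 1))
  rw [norm_one, norm_sub_rev] at h3
  linarith

lemma bound (l : ℂ) (h1 : ‖l‖ < 1) (n : ℕ) :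
    ‖A l n‖ ≤ (1 / (1 - ‖l‖)) ^ n * catalan n := by
  have hc : 0 < 1 - ‖l‖ := by linarith
  have hc' : 0 < 1 / (1 - ‖l‖) := by positivity
  induction n using Nat.strong_induction_on with
  | _ n ih =>
    cases n with
    | zero => simp [A_zero]
    | succ n =>
      rw [A_succ, norm_div]
      have h2 : ‖∑ ij ∈ Finset.HasAntidiagonal.antidiagonal n, A l ij.1 * A l ij.2‖ ≤
          (1 / (1 - ‖l‖)) ^ n * catalan (n + 1) := by
        rw [catalan_succ']
        push_cast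
        rw [Finset.mul_sum]
        refine (norm_sum_le _ _).trans (Finset.sum_le_sum ?_)
        intro ij hij
        have hs : ij.1 + ij.2 = n := Finset.HasAntidiagonal.mem_antidiagonal.mp hij
        rw [norm_mul]
        have ha := ih ij.1 (by omega)
        have hb := ih ij.2 (by omega)
        calc ‖A l ij.1‖ * ‖A l ij.2‖
            ≤ ((1 / (1 - ‖l‖)) ^ ij.1 * catalan ij.1) * ((1 / (1 - ‖l‖)) ^ ij.2 * catalan ij.2) :=
              mul_le_mul ha hb (norm_nonneg _) (by positivity)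
          _ = (1 / (1 - ‖l‖)) ^ n * (catalan ij.1 * catalan ij.2) := by
              rw [← hs, pow_add]; ring
      have h3 := den l h1 n
      have h4 : 0 < ‖l ^ (n + 1) - 1‖ := lt_of_lt_of_le hc h3
      calc ‖∑ ij ∈ Finset.HasAntidiagonal.antidiagonal n, A l ij.1 * A l ij.2‖ / ‖l ^ (n + 1) - 1‖
          ≤ ((1 / (1 - ‖l‖)) ^ n * catalan (n + 1)) / (1 - ‖l‖) :=
            div_le_div₀ (by positivity) h2 hc h3
        _ = (1 / (1 - ‖l‖)) ^ (n + 1) * catalan (n + 1) := by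
            rw [pow_succ]; ring

lemma cat_le (n : ℕ) : (catalan n : ℝ) ≤ 4 ^ n := by
  have h1 : catalan n ≤ 4 ^ n := by
    rw [catalan_eq_centralBinom_div]
    refine (Nat.div_le_self _ _).trans ?_
    rw [Nat.centralBinom]
    refine (Nat.choose_le_two_pow _ _).trans ?_
    rw [pow_mul]
    norm_num
  exact_mod_cast h1

lemma term (l : ℂ) (h1 : ‖l‖ < 1) (z : ℂ) (hz : ‖z‖ ≤ (1 - ‖l‖) / 8) (n : ℕ) :
    ‖A l n * z ^ n‖ ≤ (1 / 2) ^ n := by
  have hc : 0 < 1 - ‖l‖ := by linarith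
  rw [norm_mul, norm_pow]
  calc ‖A l n‖ * ‖z‖ ^ n
      ≤ ((1 / (1 - ‖l‖)) ^ n * 4 ^ n) * ((1 - ‖l‖) / 8) ^ n := by
        apply mul_le_mul _ (pow_le_pow_left₀ (norm_nonneg _) hz n) (by positivity) (by positivity)
        refine (bound l h1 n).trans ?_
        exact mul_le_mul_of_nonneg_left (cat_le n) (by positivity)
    _ = (1 / 2) ^ n := by
        rw [← mul_pow, ← mul_pow]
        congr 1
        field_simp
        norm_num

/-- the linearisation divided by z -/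
noncomputable def g (l z : ℂ) : ℂ := ∑' n, A l n * z ^ n

lemma summ (l : ℂ) (h1 : ‖l‖ < 1) (z : ℂ) (hz : ‖z‖ ≤ (1 - ‖l‖) / 8) :
    Summable fun n => ‖A l n * z ^ n‖ :=
  Summable.of_nonneg_of_le (fun n => norm_nonneg _) (term l h1 z hz)
    (summable_geometric_of_lt_one (by norm_num) (by norm_num))

lemma g_diff (l : ℂ) (h1 : ‖l‖ < 1) : DifferentiableOn ℂ (g l) (ball 0 ((1 - ‖l‖) / 8)) := by
  have h := Complex.differentiableOn_tsum_of_summable_norm
    (u := fun n : ℕ => (1 / 2 : ℝ) ^ n) (F := fun n z => A l n * z ^ n)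
    (U := ball 0 ((1 - ‖l‖) / 8))
    (summable_geometric_of_lt_one (by norm_num) (by norm_num))
    (fun n => by fun_prop) isOpen_ball
    (fun n z hz => term l h1 z (by rw [mem_ball_zero_iff] at hz; exact hz.le) n)
  exact h

lemma g_zero (l : ℂ) : g l 0 = 1 := by
  unfold g
  rw [tsum_eq_single 0]
  · simp [A_zero]
  · intro n hn
    simp [hn]

lemma g_eqn (l : ℂ) (h1 : ‖l‖ < 1) (z : ℂ) (hz : ‖z‖ ≤ (1 - ‖l‖) / 8) :
    z * g l z ^ 2 = g l (l * z) - g l z := by
  have hs := summ l h1 z hz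
  have hlz : ‖l * z‖ ≤ (1 - ‖l‖) / 8 := by
    rw [norm_mul]
    nlinarith [norm_nonneg l, norm_nonneg z]
  have hs' := (summ l h1 (l * z) hlz).of_norm
  have hne : ∀ n : ℕ, l ^ (n + 1) - 1 ≠ 0 := by
    intro n h0
    have h2 := den l h1 n
    rw [h0, norm_zero] at h2
    linarith
  have hD : Summable fun n : ℕ => A l n * (l ^ n - 1) * z ^ n := by
    have := hs'.sub hs.of_norm
    refine this.congr ?_
    intro n
    rw [mul_pow]
    ring
  have h3 : g l (l * z) - g l z = ∑' n : ℕ, A l n * (l ^ n - 1) * z ^ n := by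
    unfold g
    rw [← hs'.tsum_sub hs.of_norm]
    refine tsum_congr fun n => ?_
    rw [mul_pow]
    ring
  rw [h3, hD.tsum_eq_zero_add]
  simp only [pow_zero, sub_self, mul_zero, zero_mul, zero_add]
  have h4 : g l z ^ 2 = ∑' n, ∑ kl ∈ Finset.HasAntidiagonal.antidiagonal n,
      (A l kl.1 * z ^ kl.1) * (A l kl.2 * z ^ kl.2) := by
    rw [sq]
    unfold g
    exact tsum_mul_tsum_eq_tsum_sum_antidiagonal_of_summable_norm hs hs
  rw [h4, ← tsum_mul_left]
  refine tsum_congr fun n => ?_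
  rw [A_succ, div_mul_cancel₀ _ (hne n), Finset.mul_sum, Finset.sum_mul]
  apply Finset.sum_congr rfl
  intro kl hkl
  have hsum : kl.1 + kl.2 = n := Finset.HasAntidiagonal.mem_antidiagonal.mp hkl
  rw [← hsum]
  ring

end EXIM

theorem specEXI : SpecEXI := by
  intro l _ h1
  have hc : 0 < 1 - ‖l‖ := by linarith
  have hr : 0 < (1 - ‖l‖) / 8 := by positivity
  refine ⟨(1 - ‖l‖) / 8, hr, fun z => z * EXIM.g l z, ?_⟩
  have hg := EXIM.g_diff l h1
  refine ⟨?_, ?_, ?_, ?_⟩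
  · exact differentiableOn_id.mul hg
  · simp
  · have hg0 : DifferentiableAt ℂ (EXIM.g l) 0 :=
      hg.differentiableAt (ball_mem_nhds 0 hr)
    have h2 := (hasDerivAt_id (0 : ℂ)).mul hg0.hasDerivAt
    have h3 : deriv (fun z => z * EXIM.g l z) 0 = 1 * EXIM.g l 0 + id 0 * deriv (EXIM.g l) 0 :=
      h2.deriv
    rw [h3, EXIM.g_zero]
    simp
  · intro z hz
    rw [mem_ball_zero_iff] at hz
    have h4 := EXIM.g_eqn l h1 z hz.le
    unfold P
    have h5 : EXIM.g l (l * z) = EXIM.g l z + z * EXIM.g l z ^ 2 := by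
      rw [h4]; ring
    rw [h5]
    ring

end Pool.Agent.Lib.MP49ebba
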