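import Pool.Agent.Lib.MP_49ebba_an.MR.Spec

/-! MR: module EXT. Extension of the linearisation to a larger disc when the radicand has no zero. -/

namespace Pool.Agent.Lib.MP49ebba

open Metric Filter Topology

namespace EXTM

/-- Square root of a zero free analytic function on a ball. -/
theorem exists_sqrt {R : ℝ} (hR : 0 < R) (G : ℂ → ℂ) (hG : DifferentiableOn ℂ G (ball 0 R))
    (h0 : G 0 = 1) (hne : ∀ z ∈ ball (0 : ℂ) R, G z ≠ 0) :
    ∃ s : ℂ → ℂ, DifferentiableOn ℂ s (ball 0 R) ∧ s 0 = 1 ∧ (∀ z, s z ≠ 0) ∧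
      ∀ z ∈ ball (0 : ℂ) R, s z ^ 2 = G z := by
  have hdG : DifferentiableOn ℂ (deriv G) (ball 0 R) := hG.deriv isOpen_ball
  have hq : DifferentiableOn ℂ (fun z => deriv G z / G z) (ball 0 R) := hdG.div hG hne
  obtain ⟨L, hL0, hL⟩ := Complex.IsExactOn.with_val_at hq.isExactOn_ball 0 0
  have h0m : (0 : ℂ) ∈ ball (0 : ℂ) R := mem_ball_self hR
  have hder : ∀ z ∈ ball (0 : ℂ) R,
      HasDerivAt (fun z => G z * Complex.exp (- L z)) 0 z := by
    intro z hz
    have hg : HasDerivAt G (deriv G z) z :=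
      ((hG z hz).differentiableAt (isOpen_ball.mem_nhds hz)).hasDerivAt
    have he : HasDerivAt (fun z => Complex.exp (- L z))
        (Complex.exp (- L z) * (-(deriv G z / G z))) z := ((hL z hz).neg).cexp
    have := hg.mul he
    have hz' : G z ≠ 0 := hne z hz
    have e : deriv G z * Complex.exp (- L z) +
        G z * (Complex.exp (- L z) * (-(deriv G z / G z))) = 0 := by
      field_simp
      ring
    rw [e] at this
    exact this
  have hconst : ∀ z ∈ ball (0 : ℂ) R, G z * Complex.exp (- L z) = 1 := by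
    intro z hz
    have h1 : G z * Complex.exp (- L z) = G 0 * Complex.exp (- L 0) :=
      isOpen_ball.is_const_of_deriv_eq_zero (convex_ball (0 : ℂ) R).isPreconnected
        (f := fun z => G z * Complex.exp (- L z))
        (fun w hw => (hder w hw).differentiableAt.differentiableWithinAt)
        (fun w hw => (hder w hw).deriv) hz h0m
    rw [h1, h0, hL0]
    simp
  refine ⟨fun z => Complex.exp (L z / 2), ?_, ?_, fun z => Complex.exp_ne_zero _, ?_⟩
  · intro z hz
    exact (((hL z hz).div_const 2).cexp).differentiableAt.differentiableWithinAt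
  · simp [hL0]
  · intro z hz
    have h1 := hconst z hz
    have h2 : Complex.exp (L z / 2) ^ 2 = Complex.exp (L z) := by
      rw [← Complex.exp_nat_mul]
      congr 1
      push_cast
      ring
    show Complex.exp (L z / 2) ^ 2 = G z
    rw [h2]
    have h3 : Complex.exp (- L z) * Complex.exp (L z) = 1 := by
      rw [← Complex.exp_add]
      simp
    calc Complex.exp (L z) = (G z * Complex.exp (- L z)) * Complex.exp (L z) := by
          rw [h1, one_mul]
      _ = G z * (Complex.exp (- L z) * Complex.exp (L z)) := by ring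
      _ = G z := by rw [h3, mul_one]

end EXTM

open EXTM in
theorem specEXT : SpecEXT := by
  intro l r h hl hl1 hr hh hne
  have hl0 : l ≠ 0 := norm_pos_iff.1 hl
  have hrl : r < r / ‖l‖ := by
    rw [lt_div_iff₀ hl]
    nlinarith
  have hR : 0 < r / ‖l‖ := lt_trans hr hrl
  -- the function G
  have hmaps : ∀ z ∈ ball (0 : ℂ) (r / ‖l‖), l * z ∈ ball (0 : ℂ) r := by
    intro z hz
    rw [mem_ball_zero_iff] at hz ⊢
    rw [norm_mul]
    rw [lt_div_iff₀ hl] at hz
    linarith [mul_comm ‖z‖ ‖l‖]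
  have hGd : DifferentiableOn ℂ (fun z => 1 + 4 * h (l * z) / l) (ball 0 (r / ‖l‖)) := by
    have h1 : DifferentiableOn ℂ (fun z => h (l * z)) (ball 0 (r / ‖l‖)) :=
      hh.diff.comp (by fun_prop) hmaps
    exact ((h1.const_mul 4).div_const l).const_add 1
  have hGc := hGd.continuousOn
  have hopen : IsOpen (ball (0 : ℂ) (r / ‖l‖) ∩
      (fun z => 1 + 4 * h (l * z) / l) ⁻¹' {0}ᶜ) :=
    hGc.isOpen_inter_preimage isOpen_ball isOpen_compl_singleton
  have hsub : closedBall (0 : ℂ) r ⊆ ball (0 : ℂ) (r / ‖l‖) ∩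
      (fun z => 1 + 4 * h (l * z) / l) ⁻¹' {0}ᶜ := by
    intro z hz
    have hz' : ‖z‖ ≤ r := by simpa using hz
    refine ⟨?_, ?_⟩
    · rw [mem_ball_zero_iff]; linarith
    · simpa using hne z hz'
  obtain ⟨δ, hδ, hth⟩ := (isCompact_closedBall (0 : ℂ) r).exists_thickening_subset_open hopen hsub
  rw [thickening_closedBall hδ hr.le] at hth
  have hr' : 0 < δ + r := by linarith
  have hb1 : ball (0 : ℂ) (δ + r) ⊆ ball 0 (r / ‖l‖) := fun z hz => (hth hz).1
  have hb2 : ball (0 : ℂ) r ⊆ ball 0 (δ + r) := ball_subset_ball (by linarith)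
  have hG0 : (fun z => 1 + 4 * h (l * z) / l) 0 = 1 := by
    simp [hh.zero]
  obtain ⟨s, hsd, hs0, hsne, hs⟩ := exists_sqrt hr' (fun z => 1 + 4 * h (l * z) / l)
    (hGd.mono hb1) hG0 (fun z hz => by simpa using (hth hz).2)
  -- s = 1 + 2h on the small ball
  have hkey : Set.EqOn (fun z => 1 + 2 * h z) s (ball (0 : ℂ) r) := by
    refine IsPreconnected.eq_of_sq_eq (convex_ball (0 : ℂ) r).isPreconnected
      (by
        have := hh.diff.continuousOn
        fun_prop) (hsd.continuousOn.mono hb2) ?_ (fun {x} _ => hsne x)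
      (mem_ball_self hr) (by simp [hh.zero, hs0])
    intro z hz
    have h1 := hs z (hb2 hz)
    have h2 := hh.eqn z hz
    show (1 + 2 * h z) ^ 2 = s z ^ 2
    rw [h1, ← h2]
    unfold P
    field_simp
    ring
  have hbl : ∀ z ∈ ball (0 : ℂ) (δ + r), l * z ∈ ball (0 : ℂ) r := fun z hz => hmaps z (hb1 hz)
  refine ⟨δ + r, by linarith, fun z => (s z - 1) / 2, ?_, ?_, ?_, ?_⟩
  · exact (hsd.sub_const 1).div_const 2
  · simp [hs0]
  · have he : (fun z => (s z - 1) / 2) =ᶠ[𝓝 (0 : ℂ)] h := by
      filter_upwards [ball_mem_nhds (0 : ℂ) hr] with z hz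
      have := hkey hz
      simp only at this
      rw [← this]
      ring
    rw [he.deriv_eq]
    exact hh.one
  · intro z hz
    have h1 := hs z hz
    have h2 := hkey (hbl z hz)
    simp only at h1 h2
    show P l ((s z - 1) / 2) = (s (l * z) - 1) / 2
    have h3 : (s (l * z) - 1) / 2 = h (l * z) := by
      rw [← h2]; ring
    rw [h3]
    have h4 : h (l * z) = l * (s z ^ 2 - 1) / 4 := by
      rw [h1]
      field_simp
      ring
    rw [h4]
    unfold P
    ring

end Pool.Agent.Lib.MP49ebba
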