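import Pool.Agent.Lib.MP_49ebba_an.MR.Spec

/-! Module FIN (MP_49ebba_an): the assembly. -/

namespace Pool.Agent.Lib.MP49ebba

open Metric Filter Topology

theorem specFIN (hINN : SpecINN) (hNUM : SpecNUM) (hPER : SpecPER) (hPRO : SpecPRO)
    (hMAX : SpecMAX) (hTAI : SpecTAI) : SpecFIN := by
  obtain ⟨l0, n, hl0, hc⟩ := hNUM
  obtain ⟨l1, hl1, hlin1⟩ := hINN l0 n _ hl0 (lt_trans (by norm_num) hc) le_rfl
  obtain ⟨m, hm1, hm2, hm3⟩ := hMAX l1 _ hl1 (lt_trans (by norm_num) hc) hlin1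
  have hm : 31 / 100 < m := lt_of_lt_of_le hc hm1
  refine ⟨m, hm, hm2, hm3, ?_, ?_⟩
  · intro l hl hlm q hq
    exact hPRO l q (1 / 26) hl.1 hq (hl.2 q (by omega)) (by norm_num)
      (fun z hz hpz => hPER l m z q hl hm.le hlm hz hq hpz)
  · intro l hl
    have h1l : 0 < 1 - ‖l‖ := by linarith
    have htail : Tendsto (fun n : ℕ => 4 * ‖l‖ ^ n / (1 - ‖l‖)) atTop (𝓝 0) := by
      have := ((tendsto_pow_atTop_nhds_zero_of_lt_one (norm_nonneg l) hl).const_mul 4).div_const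
        (1 - ‖l‖)
      simpa using this
    have hcau : CauchySeq (uu l) := by
      refine cauchySeq_of_le_tendsto_0' (fun n : ℕ => 4 * ‖l‖ ^ n / (1 - ‖l‖)) ?_ htail
      intro a b hab
      obtain ⟨k, rfl⟩ := Nat.exists_eq_add_of_le hab
      rw [dist_comm, dist_eq_norm]
      exact hTAI l a k hl
    obtain ⟨u, hu⟩ := cauchySeq_tendsto_of_complete hcau
    refine ⟨u, hu, ?_⟩
    have hle : ∀ k : ℕ, ‖uu l k‖ - 4 * ‖l‖ ^ k / (1 - ‖l‖) ≤ m := by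
      intro k
      by_cases hpos : 0 < ‖uu l k‖ - 4 * ‖l‖ ^ k / (1 - ‖l‖)
      · obtain ⟨l2, h2, h3⟩ := hINN l k _ hl hpos le_rfl
        exact hm2 l2 _ h2 h3
      · linarith
    have hlim : Tendsto (fun k => ‖uu l k‖ - 4 * ‖l‖ ^ k / (1 - ‖l‖)) atTop (𝓝 (‖u‖ - 0)) :=
      hu.norm.sub htail
    have := le_of_tendsto' hlim hle
    linarith

end Pool.Agent.Lib.MP49ebba
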