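import Pool.Agent.Lib.MP_49ebba_an.MR.Spec

/-!
# INN: from inside the disc to the circle
-/

namespace Pool.Agent.Lib.MP49ebba

open Metric Filter Topology

namespace INNM

lemma uu_diff (n : ℕ) : Differentiable ℂ (fun l : ℂ => uu l n) := by
  induction n with
  | zero =>
    show Differentiable ℂ (fun _ : ℂ => (-1 / 2 : ℂ))
    exact differentiable_const _
  | succ n ih =>
    show Differentiable ℂ (fun l : ℂ => uu l n + l ^ n * uu l n ^ 2)
    exact ih.add ((differentiable_id.pow n).mul (ih.pow 2))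

lemma lin_mono {l : ℂ} {r r' : ℝ} (hrr : r' ≤ r) (h : Lin l r) : Lin l r' := by
  obtain ⟨g, hg⟩ := h
  have hsub : ball (0 : ℂ) r' ⊆ ball 0 r := ball_subset_ball hrr
  exact ⟨g, hg.diff.mono hsub, hg.zero, hg.one, fun z hz => hg.eqn z (hsub hz)⟩

lemma step (hCRI : SpecCRI) (hTAI : SpecTAI) (l0 : ℂ) (n : ℕ) (c r ε : ℝ) (h1 : ‖l0‖ < r)
    (hr : r < 1) (hε : 0 < ε) (hc : c ≤ ‖uu l0 n‖ - 4 * ‖l0‖ ^ n / (1 - ‖l0‖)) :
    ∃ l : ℂ, ‖l‖ = r ∧ Lin l (c - ε) := by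
  have hr0 : 0 < r := lt_of_le_of_lt (norm_nonneg l0) h1
  have h1r : 0 < 1 - r := by linarith
  -- choice of `N`
  have ht : Tendsto (fun N : ℕ => 4 * r ^ N / (1 - r)) atTop (𝓝 0) := by
    have h2 := ((tendsto_pow_atTop_nhds_zero_of_lt_one hr0.le hr).const_mul 4).div_const (1 - r)
    rwa [mul_zero, zero_div] at h2
  obtain ⟨N, hN, hNn⟩ := ((ht.eventually (gt_mem_nhds hε)).and (eventually_ge_atTop n)).exists
  -- the maximum principle
  obtain ⟨l, hl, hmax⟩ := Complex.exists_mem_frontier_isMaxOn_norm (isBounded_ball (x := (0 : ℂ)) (r := r))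
    ⟨0, mem_ball_self hr0⟩ ((uu_diff N).diffContOnCl)
  rw [frontier_ball (0 : ℂ) hr0.ne', mem_sphere_zero_iff_norm] at hl
  have h3 : ‖uu l0 N‖ ≤ ‖uu l N‖ := by
    have h4 : l0 ∈ closure (ball (0 : ℂ) r) := subset_closure (mem_ball_zero_iff.2 h1)
    exact hmax h4
  -- `TAI` at `l0`
  have h5 : c ≤ ‖uu l0 N‖ := by
    obtain ⟨k, rfl⟩ := Nat.exists_eq_add_of_le hNn
    have h6 := hTAI l0 n k (h1.trans hr)
    have h7 := norm_sub_norm_le (uu l0 n) (uu l0 (n + k))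
    rw [norm_sub_rev] at h7
    linarith
  obtain ⟨z, hz0, hlin, hlim, _⟩ := hCRI l (hl ▸ hr0) (hl ▸ hr)
  have h8 : ‖z - uu l N‖ ≤ 4 * ‖l‖ ^ N / (1 - ‖l‖) := by
    have h9 : Tendsto (fun k => ‖uu l (N + k) - uu l N‖) atTop (𝓝 ‖z - uu l N‖) := by
      refine Tendsto.norm (Tendsto.sub_const ?_ _)
      have h10 := (tendsto_add_atTop_iff_nat N).2 hlim
      refine h10.congr fun k => ?_
      rw [add_comm]
    exact le_of_tendsto' h9 fun k => hTAI l N k (hl ▸ hr)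
  rw [hl] at h8
  have h11 : c - ε ≤ ‖z‖ := by
    have h12 := norm_sub_norm_le (uu l N) z
    rw [norm_sub_rev] at h12
    linarith
  exact ⟨l, hl, lin_mono h11 hlin⟩

end INNM

open INNM in
theorem specINN (hRUN : SpecRUN) (hLIM : SpecLIM) (hCRI : SpecCRI) (hTAI : SpecTAI) : SpecINN := by
  intro l0 n c hl0 hc hcn
  have hd : 0 < 1 - ‖l0‖ := by linarith
  have hk : ∀ k : ℕ, (0 : ℝ) < (k : ℝ) + 2 := fun k => by positivity
  have hex : ∀ k : ℕ, ∃ l : ℂ, ‖l‖ = 1 - (1 - ‖l0‖) / ((k : ℝ) + 2) ∧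
      Lin l (c - c / ((k : ℝ) + 2)) := by
    intro k
    refine step hCRI hTAI l0 n c _ _ ?_ ?_ (div_pos hc (hk k)) hcn
    · have h1 : (1 - ‖l0‖) / ((k : ℝ) + 2) < 1 - ‖l0‖ := by
        rw [div_lt_iff₀ (hk k)]
        nlinarith [(Nat.cast_nonneg k : (0 : ℝ) ≤ k)]
      linarith
    · have h1 : 0 < (1 - ‖l0‖) / ((k : ℝ) + 2) := div_pos hd (hk k)
      linarith
  choose l hl hlin using hex
  have hinv : ∀ a : ℝ, Tendsto (fun k : ℕ => a / ((k : ℝ) + 2)) atTop (𝓝 0) := by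
    intro a
    exact (tendsto_const_nhds (x := a)).div_atTop
      (tendsto_atTop_add_const_right _ _ tendsto_natCast_atTop_atTop)
  have hle : ∀ k, ‖l k‖ ≤ 1 := by
    intro k
    rw [hl k]
    have h1 : 0 < (1 - ‖l0‖) / ((k : ℝ) + 2) := div_pos hd (hk k)
    linarith
  obtain ⟨a, _, φ, hφ, hφa⟩ := (isCompact_closedBall (0 : ℂ) 1).tendsto_subseq
    (x := l) (fun k => by rw [mem_closedBall_zero_iff]; exact hle k)
  have hnorm : Tendsto (fun k => ‖l k‖) atTop (𝓝 1) := by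
    have h1 := (hinv (1 - ‖l0‖)).const_sub 1
    rw [sub_zero] at h1
    exact h1.congr fun k => (hl k).symm
  have ha : ‖a‖ = 1 :=
    tendsto_nhds_unique hφa.norm (hnorm.comp hφ.tendsto_atTop)
  have ha0 : a ≠ 0 := by
    intro h
    rw [h, norm_zero] at ha
    exact zero_ne_one ha
  have hcc : Tendsto (fun k : ℕ => c - c / ((k : ℝ) + 2)) atTop (𝓝 c) := by
    have h1 := (hinv c).const_sub c
    rwa [sub_zero] at h1
  have hL : Lin a c := hLIM (l ∘ φ) (fun k => c - c / (((φ k : ℕ) : ℝ) + 2)) a c ha0 hc hφa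
    (hcc.comp hφ.tendsto_atTop) (fun k => ⟨hle _, hlin _⟩)
  exact ⟨a, ⟨ha, hRUN a c ha hc hL⟩, hL⟩

end Pool.Agent.Lib.MP49ebba
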