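import Pool.Agent.Lib.MP_49ebba_an.MR.SpecB
import Pool.Agent.Lib.MP_250511_an.SQR

/-!
# MR, module KOE: Koebe's one quarter theorem (MP_49ebba_an)
-/

set_option autoImplicit false

namespace Pool.Agent.Lib.MP49ebba

open Metric Filter Topology

theorem specKOE (hBIE : SpecBIE) : SpecKOE := by
  intro r h w hr hd hinj h0 hd1 hw
  have hrm : (0 : ℂ) ∈ ball (0 : ℂ) r := mem_ball_self hr
  have h1m : (0 : ℂ) ∈ ball (0 : ℂ) 1 := mem_ball_self one_pos
  have hrC : (r : ℂ) ≠ 0 := by exact_mod_cast hr.ne'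
  have hw0 : w ≠ 0 := by
    have := hw 0 hrm
    rw [h0] at this
    exact this.symm
  have hmap : ∀ z ∈ ball (0 : ℂ) 1, (r : ℂ) * z ∈ ball (0 : ℂ) r := by
    intro z hz
    rw [mem_ball_zero_iff] at hz ⊢
    rw [norm_mul, Complex.norm_real, Real.norm_eq_abs, abs_of_pos hr]
    nlinarith
  have han : AnalyticOnNhd ℂ h (ball 0 r) := hd.analyticOnNhd isOpen_ball
  have hcomp : AnalyticOnNhd ℂ (fun z : ℂ => h ((r : ℂ) * z)) (ball 0 1) := by
    intro z hz
    have h2 : AnalyticAt ℂ (fun z : ℂ => (r : ℂ) * z) z := analyticAt_const.mul analyticAt_id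
    exact AnalyticAt.fun_comp (han _ (hmap z hz)) h2
  have hFa : AnalyticOnNhd ℂ (fun z : ℂ => 1 - h ((r : ℂ) * z) / w) (ball 0 1) := by
    intro z hz
    exact analyticAt_const.sub ((hcomp z hz).div analyticAt_const hw0)
  obtain ⟨s, hs, hs0, hse⟩ := Pool.Agent.Lib.MP250511.specSQR
    (fun z : ℂ => 1 - h ((r : ℂ) * z) / w) hFa
    (by
      intro z hz hz0
      have h3 : h ((r : ℂ) * z) / w = 1 := (sub_eq_zero.1 hz0).symm
      rw [div_eq_one_iff_eq hw0] at h3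
      exact hw _ (hmap z hz) h3)
    (by simp [h0])
  have hse' : ∀ z ∈ ball (0 : ℂ) 1, s z ^ 2 = 1 - h ((r : ℂ) * z) / w := hse
  -- equal squares
  have hsq : ∀ z ∈ ball (0 : ℂ) 1, ∀ z' ∈ ball (0 : ℂ) 1, s z ^ 2 = s z' ^ 2 → z = z' := by
    intro z hz z' hz' he
    rw [hse' z hz, hse' z' hz'] at he
    have h4 : h ((r : ℂ) * z) / w = h ((r : ℂ) * z') / w := by linear_combination -he
    have h5 : h ((r : ℂ) * z) = h ((r : ℂ) * z') := (div_left_inj' hw0).1 h4
    exact mul_left_cancel₀ hrC (hinj (hmap z hz) (hmap z' hz') h5)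
  have hsne : ∀ z ∈ ball (0 : ℂ) 1, s z ≠ 0 := by
    intro z hz hz0
    have h6 := hse' z hz
    rw [hz0] at h6
    have h7 : h ((r : ℂ) * z) / w = 1 := by linear_combination h6
    rw [div_eq_one_iff_eq hw0] at h7
    exact hw _ (hmap z hz) h7
  have hs1 : ∀ z ∈ ball (0 : ℂ) 1, s z + 1 ≠ 0 := by
    intro z hz hz0
    have h8 : s z = -1 := by linear_combination hz0
    have h9 : z = 0 := hsq z hz 0 h1m (by rw [h8, hs0]; norm_num)
    rw [h9, hs0] at h8
    norm_num at h8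
  have hYa : AnalyticOnNhd ℂ (fun z => (s z - 1) / (s z + 1)) (ball 0 1) := by
    intro z hz
    exact ((hs z hz).sub analyticAt_const).div ((hs z hz).add analyticAt_const) (hs1 z hz)
  have hYi : Set.InjOn (fun z => (s z - 1) / (s z + 1)) (ball 0 1) := by
    intro z hz z' hz' he
    have he' : (s z - 1) / (s z + 1) = (s z' - 1) / (s z' + 1) := he
    rw [div_eq_div_iff (hs1 z hz) (hs1 z' hz')] at he'
    have h10 : s z = s z' := by linear_combination he' / 2
    exact hsq z hz z' hz' (by rw [h10])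
  have hY0 : (fun z => (s z - 1) / (s z + 1)) 0 = 0 := by
    simp [hs0]
  have hYY : ∀ z ∈ ball (0 : ℂ) 1, ∀ z' ∈ ball (0 : ℂ) 1,
      (fun z => (s z - 1) / (s z + 1)) z * (fun z => (s z - 1) / (s z + 1)) z' ≠ 1 := by
    intro z hz z' hz' he
    have he' : (s z - 1) / (s z + 1) * ((s z' - 1) / (s z' + 1)) = 1 := he
    rw [div_mul_div_comm, div_eq_one_iff_eq (mul_ne_zero (hs1 z hz) (hs1 z' hz'))] at he'
    have h11 : s z' = - s z := by linear_combination -he' / 2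
    have h12 : z = z' := hsq z hz z' hz' (by rw [h11]; ring)
    rw [← h12] at h11
    have h13 : s z = 0 := by linear_combination h11 / 2
    exact hsne z hz h13
  have hB := hBIE (fun z => (s z - 1) / (s z + 1)) hYa hYi hY0 hYY
  -- derivatives at 0
  have hdh : HasDerivAt h 1 ((r : ℂ) * 0) := by
    rw [mul_zero, ← hd1]
    exact (han 0 hrm).differentiableAt.hasDerivAt
  have hdr : HasDerivAt (fun z : ℂ => (r : ℂ) * z) (r : ℂ) 0 := by
    simpa using (hasDerivAt_id (0 : ℂ)).const_mul (r : ℂ)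
  have hdc : HasDerivAt (fun z : ℂ => h ((r : ℂ) * z)) (1 * (r : ℂ)) 0 :=
    HasDerivAt.comp (0 : ℂ) hdh hdr
  have hdF : HasDerivAt (fun z : ℂ => 1 - h ((r : ℂ) * z) / w) (-(1 * (r : ℂ) / w)) 0 :=
    (hdc.div_const w).const_sub 1
  have hds : HasDerivAt s (deriv s 0) 0 := (hs 0 h1m).differentiableAt.hasDerivAt
  have hds2 : HasDerivAt (fun z => s z ^ 2) (2 * s 0 ^ (2 - 1) * deriv s 0) 0 := by
    simpa using hds.fun_pow 2
  have heq : (fun z => s z ^ 2) =ᶠ[𝓝 0] (fun z : ℂ => 1 - h ((r : ℂ) * z) / w) := by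
    filter_upwards [isOpen_ball.mem_nhds h1m] with z hz
    exact hse' z hz
  have hds3 : HasDerivAt (fun z => s z ^ 2) (-(1 * (r : ℂ) / w)) 0 := hdF.congr_of_eventuallyEq heq
  have h14 : 2 * s 0 ^ (2 - 1) * deriv s 0 = -(1 * (r : ℂ) / w) := hds2.unique hds3
  rw [hs0] at h14
  have h15 : deriv s 0 = -((r : ℂ) / w) / 2 := by
    linear_combination h14 / 2
  have hdY : HasDerivAt (fun z => (s z - 1) / (s z + 1))
      ((deriv s 0 * (s 0 + 1) - (s 0 - 1) * deriv s 0) / (s 0 + 1) ^ 2) 0 :=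
    (hds.sub_const 1).div (hds.add_const 1) (hs1 0 h1m)
  rw [hdY.deriv, hs0, h15] at hB
  have h16 : (-((r : ℂ) / w) / 2 * (1 + 1) - (1 - 1) * (-((r : ℂ) / w) / 2)) / (1 + 1) ^ 2 =
      -((r : ℂ) / (4 * w)) := by
    field_simp
    ring
  rw [h16, norm_neg, norm_div, norm_mul, Complex.norm_real, Real.norm_eq_abs, abs_of_pos hr] at hB
  have h17 : ‖(4 : ℂ)‖ = 4 := by norm_num
  rw [h17] at hB
  have hwp : 0 < ‖w‖ := norm_pos_iff.2 hw0
  rw [div_le_one (by positivity)] at hB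
  linarith

end Pool.Agent.Lib.MP49ebba
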