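import Pool.Agent.Lib.MP_49ebba_an.MR.Spec

/-!
# Module LIM: limits of linearisable quadratic polynomials
-/

set_option autoImplicit false

namespace Pool.Agent.Lib.MP49ebba

open Metric Filter Topology

namespace LIMM

/-- Taylor coefficients at `0`. -/
noncomputable def co (h : ℂ → ℂ) (n : ℕ) : ℂ := ((n.factorial : ℂ))⁻¹ * iteratedDeriv n h 0

lemma co_zero (h : ℂ → ℂ) : co h 0 = h 0 := by
  simp [co]

lemma co_one (h : ℂ → ℂ) : co h 1 = deriv h 0 := by
  simp [co, iteratedDeriv_one]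

lemma hasSum_co {r : ℝ} {h : ℂ → ℂ} (hd : DifferentiableOn ℂ h (ball 0 r)) {z : ℂ}
    (hz : z ∈ ball (0 : ℂ) r) : HasSum (fun n => co h n * z ^ n) (h z) := by
  have h1 := Complex.hasSum_taylorSeries_on_ball hd hz
  have e : (fun n : ℕ => (n.factorial : ℂ)⁻¹ • (z - 0) ^ n • iteratedDeriv n h 0) =
      fun n => co h n * z ^ n := by
    funext n
    simp only [co, smul_eq_mul, sub_zero]
    ring
  rwa [e] at h1

lemma co_le {r s M : ℝ} {h : ℂ → ℂ} (hd : DifferentiableOn ℂ h (ball 0 r))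
    (hM : ∀ z ∈ ball (0 : ℂ) r, ‖h z‖ ≤ M) (hs : 0 < s) (hsr : s < r) (n : ℕ) :
    ‖co h n‖ ≤ M / s ^ n := by
  have hsub : closedBall (0 : ℂ) s ⊆ ball 0 r := closedBall_subset_ball hsr
  have h1 : DiffContOnCl ℂ h (ball 0 s) := by
    apply DifferentiableOn.diffContOnCl
    rw [closure_ball _ hs.ne']
    exact hd.mono hsub
  have h2 := Complex.norm_iteratedDeriv_le_of_forall_mem_sphere_norm_le n hs h1 (C := M)
    (fun z hz => hM z (hsub (sphere_subset_closedBall hz)))
  unfold co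
  rw [norm_mul, norm_inv, Complex.norm_natCast]
  have h3 : (0 : ℝ) < n.factorial := by exact_mod_cast n.factorial_pos
  calc (n.factorial : ℝ)⁻¹ * ‖iteratedDeriv n h 0‖
      ≤ (n.factorial : ℝ)⁻¹ * (n.factorial * M / s ^ n) :=
        mul_le_mul_of_nonneg_left h2 (by positivity)
    _ = M / s ^ n := by field_simp

lemma tendsto_series {a : ℕ → ℕ → ℂ} {b : ℕ → ℂ} {M s t : ℝ}
    (hab : ∀ n, Tendsto (fun k => a k n) atTop (𝓝 (b n))) (hs : 0 < s) (hts : t < s)
    (ht : 0 ≤ t) (hM : 0 ≤ M) (ha : ∀ᶠ k in atTop, ∀ n, ‖a k n‖ ≤ M / s ^ n) {z : ℕ → ℂ} {z0 : ℂ}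
    (hz : Tendsto z atTop (𝓝 z0)) (hzt : ∀ᶠ k in atTop, ‖z k‖ ≤ t) :
    Tendsto (fun k => ∑' n, a k n * z k ^ n) atTop (𝓝 (∑' n, b n * z0 ^ n)) := by
  apply tendsto_tsum_of_dominated_convergence (bound := fun n => M * (t / s) ^ n)
  · exact (summable_geometric_of_lt_one (by positivity) ((div_lt_one hs).2 hts)).mul_left M
  · intro n
    exact (hab n).mul (hz.pow n)
  · filter_upwards [ha, hzt] with k h1 h2 n
    rw [norm_mul, norm_pow]
    calc ‖a k n‖ * ‖z k‖ ^ n ≤ (M / s ^ n) * t ^ n :=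
          mul_le_mul (h1 n) (pow_le_pow_left₀ (norm_nonneg _) h2 n) (by positivity) (by positivity)
      _ = M * (t / s) ^ n := by rw [div_pow]; ring

end LIMM

open LIMM in
theorem specLIM (hBND : SpecBND) : SpecLIM := by
  intro l r l0 r0 hl0 hr0 hl hr hk
  have hk1 : ∀ k, ‖l k‖ ≤ 1 := fun k => (hk k).1
  have hlin : ∀ k, ∃ h : ℂ → ℂ, IsLin (l k) (r k) h := fun k => (hk k).2
  choose h hh using hlin
  have hl0' : 0 < ‖l0‖ := norm_pos_iff.2 hl0
  set M : ℝ := 1 + 2 / ‖l0‖ with hM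
  have hM0 : 0 ≤ M := by positivity
  have evl : ∀ᶠ k in atTop, ‖l0‖ / 2 < ‖l k‖ := hl.norm.eventually_const_lt (by linarith)
  have hbd : ∀ k, ‖l0‖ / 2 < ‖l k‖ → ∀ z ∈ ball (0 : ℂ) (r k), ‖h k z‖ ≤ M := by
    intro k hk z hz
    have hpos : 0 < ‖l k‖ := by linarith
    refine (hBND (l k) (r k) (h k) hpos (hk1 k) (hh k) z hz).trans ?_
    rw [hM]
    have : 1 / ‖l k‖ ≤ 2 / ‖l0‖ := by
      rw [div_le_div_iff₀ hpos hl0']
      linarith
    linarith
  have hco : ∀ s, 0 < s → s < r0 → ∀ᶠ k in atTop, ∀ n, ‖co (h k) n‖ ≤ M / s ^ n := by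
    intro s hs hsr
    filter_upwards [evl, hr.eventually_const_lt hsr] with k h1 h2 n
    exact co_le (hh k).diff (hbd k h1) hs h2 n
  obtain ⟨b, -, φ, hφ, hb⟩ := IsCompact.tendsto_subseq'
    (s := Set.pi Set.univ fun n : ℕ => closedBall (0 : ℂ) (M / (r0 / 2) ^ n))
    (x := fun k => co (h k)) (isCompact_univ_pi fun n => isCompact_closedBall _ _)
    (Eventually.frequently (by
      filter_upwards [hco (r0 / 2) (by linarith) (by linarith)] with k hk n _
      rw [mem_closedBall_zero_iff]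
      exact hk n))
  have hφt := hφ.tendsto_atTop
  have hb' : ∀ n, Tendsto (fun k => co (h (φ k)) n) atTop (𝓝 (b n)) := fun n =>
    (tendsto_pi_nhds.1 hb) n
  have hl' : Tendsto (fun k => l (φ k)) atTop (𝓝 l0) := hl.comp hφt
  have hr' : Tendsto (fun k => r (φ k)) atTop (𝓝 r0) := hr.comp hφt
  have hco' : ∀ s, 0 < s → s < r0 → ∀ᶠ k in atTop, ∀ n, ‖co (h (φ k)) n‖ ≤ M / s ^ n :=
    fun s h1 h2 => hφt.eventually (hco s h1 h2)
  have hbn : ∀ s, 0 < s → s < r0 → ∀ n, ‖b n‖ ≤ M / s ^ n := by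
    intro s h1 h2 n
    exact le_of_tendsto (hb' n).norm ((hco' s h1 h2).mono fun k hk => hk n)
  set H : ℂ → ℂ := fun z => ∑' n, b n * z ^ n with hH
  have hterm : ∀ (n : ℕ) (U : Set ℂ), DifferentiableOn ℂ (fun w : ℂ => b n * w ^ n) U := by
    intro n U
    exact (((differentiable_id.pow n).const_mul (b n))).differentiableOn
  have hloc : ∀ t, 0 < t → t < r0 → ∃ u : ℕ → ℝ, Summable u ∧
      ∀ (n : ℕ) (w : ℂ), w ∈ ball (0 : ℂ) t → ‖b n * w ^ n‖ ≤ u n := by
    intro t ht htr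
    obtain ⟨s, hts, hsr⟩ := exists_between htr
    have hs : 0 < s := ht.trans hts
    refine ⟨fun n => M * (t / s) ^ n,
      (summable_geometric_of_lt_one (by positivity) ((div_lt_one hs).2 hts)).mul_left M, ?_⟩
    intro n w hw
    rw [mem_ball_zero_iff] at hw
    rw [norm_mul, norm_pow]
    calc ‖b n‖ * ‖w‖ ^ n ≤ (M / s ^ n) * t ^ n :=
          mul_le_mul (hbn s hs hsr n) (pow_le_pow_left₀ (norm_nonneg _) hw.le n) (by positivity)
            (by positivity)
      _ = M * (t / s) ^ n := by rw [div_pow]; ring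
  refine ⟨H, ⟨?_, ?_, ?_, ?_⟩⟩
  · intro z hz
    rw [mem_ball_zero_iff] at hz
    obtain ⟨t, hzt, htr⟩ := exists_between hz
    obtain ⟨u, hu, hle⟩ := hloc t ((norm_nonneg z).trans_lt hzt) htr
    have h1 := Complex.differentiableOn_tsum_of_summable_norm hu (fun n => hterm n (ball 0 t))
      isOpen_ball hle
    exact (h1.differentiableAt (isOpen_ball.mem_nhds
      (mem_ball_zero_iff.2 hzt))).differentiableWithinAt
  · have h0 : b 0 = 0 := by
      have h1 : Tendsto (fun k => co (h (φ k)) 0) atTop (𝓝 0) := by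
        have e : (fun k => co (h (φ k)) 0) = fun _ => 0 := by
          funext k
          rw [co_zero, (hh _).zero]
        rw [e]
        exact tendsto_const_nhds
      exact tendsto_nhds_unique (hb' 0) h1
    show ∑' n, b n * (0 : ℂ) ^ n = 0
    rw [tsum_eq_single 0]
    · simp [h0]
    · intro n hn
      simp [hn]
  · have h1 : b 1 = 1 := by
      have h2 : Tendsto (fun k => co (h (φ k)) 1) atTop (𝓝 1) := by
        have e : (fun k => co (h (φ k)) 1) = fun _ => 1 := by
          funext k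
          rw [co_one, (hh _).one]
        rw [e]
        exact tendsto_const_nhds
      exact tendsto_nhds_unique (hb' 1) h2
    obtain ⟨u, hu, hle⟩ := hloc (r0 / 2) (by linarith) (by linarith)
    have h2 := Complex.hasSum_deriv_of_summable_norm hu (fun n => hterm n (ball 0 (r0 / 2)))
      isOpen_ball hle (mem_ball_self (by linarith : 0 < r0 / 2))
    have e : (fun n : ℕ => deriv (fun w : ℂ => b n * w ^ n) 0) =
        fun n => if n = 1 then b 1 else 0 := by
      funext n
      have h3 : HasDerivAt (fun w : ℂ => b n * w ^ n) (b n * ((n : ℂ) * 0 ^ (n - 1))) 0 :=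
        (hasDerivAt_pow n (0 : ℂ)).const_mul (b n)
      rw [h3.deriv]
      rcases n with _ | _ | n
      · simp
      · simp
      · simp
    rw [e] at h2
    have h3 : HasSum (fun n : ℕ => if n = 1 then b 1 else 0) (b 1) := hasSum_ite_eq 1 (b 1)
    rw [h2.unique h3, h1]
  · intro z hz
    rw [mem_ball_zero_iff] at hz
    obtain ⟨s, hzs, hsr⟩ := exists_between hz
    have hs : 0 < s := (norm_nonneg z).trans_lt hzs
    have T1 : Tendsto (fun k => ∑' n, co (h (φ k)) n * z ^ n) atTop (𝓝 (H z)) :=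
      tendsto_series (z := fun _ => z) hb' hs hzs (norm_nonneg z) hM0 (hco' s hs hsr)
        tendsto_const_nhds (Eventually.of_forall fun _ => le_rfl)
    have T2 : Tendsto (fun k => ∑' n, co (h (φ k)) n * (l (φ k) * z) ^ n) atTop
        (𝓝 (H (l0 * z))) :=
      tendsto_series (z := fun k => l (φ k) * z) hb' hs hzs (norm_nonneg z) hM0 (hco' s hs hsr)
        (hl'.mul_const z) (Eventually.of_forall fun k => by
          rw [norm_mul]
          exact mul_le_of_le_one_left (norm_nonneg z) (hk1 _))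
    have ev : ∀ᶠ k in atTop, z ∈ ball (0 : ℂ) (r (φ k)) := by
      filter_upwards [hr'.eventually_const_lt hz] with k hk
      rwa [mem_ball_zero_iff]
    have T3 : Tendsto (fun k => P (l (φ k)) (∑' n, co (h (φ k)) n * z ^ n)) atTop
        (𝓝 (P l0 (H z))) := by
      unfold P
      exact hl'.mul (T1.add (T1.pow 2))
    refine tendsto_nhds_unique T3 (T2.congr' ?_)
    filter_upwards [ev] with k hk
    have hk' : l (φ k) * z ∈ ball (0 : ℂ) (r (φ k)) := by
      rw [mem_ball_zero_iff] at hk ⊢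
      rw [norm_mul]
      exact (mul_le_of_le_one_left (norm_nonneg z) (hk1 _)).trans_lt hk
    rw [(hasSum_co (hh _).diff hk).tsum_eq, (hasSum_co (hh _).diff hk').tsum_eq]
    exact ((hh _).eqn z hk).symm

end Pool.Agent.Lib.MP49ebba
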