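import Pool.Agent.Lib.MP_49ebba_an.MR.Spec

set_option autoImplicit false

namespace Pool.Agent.Lib.MP49ebba

open Metric Filter Topology

namespace MAXM

theorem le_two (hBND : SpecBND) (l : ℂ) (r : ℝ) (hl : ‖l‖ = 1) (h : Lin l r) : r ≤ 2 := by
  obtain ⟨f, hf⟩ := h
  by_contra hr
  push Not at hr
  -- s = (r + 2) / 2 > 2
  have hs2 : 2 < (r + 2) / 2 := by linarith
  have hsr : (r + 2) / 2 < r := by linarith
  have hs0 : 0 < (r + 2) / 2 := by linarith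
  have hsub : closedBall (0 : ℂ) ((r + 2) / 2) ⊆ ball 0 r := closedBall_subset_ball hsr
  have hd : DiffContOnCl ℂ f (ball 0 ((r + 2) / 2)) := hf.diff.diffContOnCl_ball hsub
  have hC : ∀ z ∈ sphere (0 : ℂ) ((r + 2) / 2), ‖f z‖ ≤ 2 := by
    intro z hz
    have h1 := hBND l r f (by rw [hl]; exact one_pos) hl.le hf z (hsub (sphere_subset_closedBall hz))
    rw [hl] at h1
    linarith
  have h2 := Complex.norm_deriv_le_of_forall_mem_sphere_norm_le hs0 hd hC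
  rw [hf.one, norm_one, le_div_iff₀ hs0] at h2
  linarith

end MAXM

open MAXM in
theorem specMAX (hBND : SpecBND) (hRUN : SpecRUN) (hLIM : SpecLIM) : SpecMAX := by
  intro l1 r1 hl1 hr1 hL1
  set S : Set ℝ := {r | 0 < r ∧ ∃ l, Neutral l ∧ Lin l r} with hS
  have hne : S.Nonempty := ⟨r1, hr1, l1, hl1, hL1⟩
  have hbd : BddAbove S := ⟨2, by
    rintro r ⟨_, l, hl, hL⟩
    exact le_two hBND l r hl.1 hL⟩
  have hle : ∀ (l : ℂ) (r : ℝ), Neutral l → Lin l r → r ≤ sSup S := by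
    intro l r hl hL
    rcases le_or_gt r 0 with h0 | h0
    · exact h0.trans (hr1.le.trans (le_csSup hbd ⟨hr1, l1, hl1, hL1⟩))
    · exact le_csSup hbd ⟨h0, l, hl, hL⟩
  refine ⟨sSup S, hle l1 r1 hl1 hL1, hle, ?_⟩
  obtain ⟨u, _, hu, huS⟩ := exists_seq_tendsto_sSup hne hbd
  choose l hl hL using fun n => (huS n).2
  obtain ⟨a, ha, φ, hφ, hlim⟩ := (isCompact_sphere (0 : ℂ) 1).tendsto_subseq
    (x := l) (fun n => by simpa using (hl n).1)
  have ha1 : ‖a‖ = 1 := by simpa using ha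
  have hm0 : 0 < sSup S := lt_of_lt_of_le hr1 (hle l1 r1 hl1 hL1)
  have hLa : Lin a (sSup S) := hLIM (l ∘ φ) (u ∘ φ) a (sSup S)
    (by intro h0; rw [h0, norm_zero] at ha1; exact zero_ne_one ha1) hm0 hlim
    (hu.comp hφ.tendsto_atTop) (fun k => ⟨(hl (φ k)).1.le, hL (φ k)⟩)
  exact ⟨a, ⟨ha1, hRUN a (sSup S) ha1 hm0 hLa⟩, hLa⟩

end Pool.Agent.Lib.MP49ebba
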