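import Pool.Agent.Lib.MP_49ebba_an.MR.NumTable

/-! Module NUM (MP_49ebba_an): the numerical verification. -/

namespace Pool.Agent.Lib.MP49ebba

namespace NUMM

/-- The scale. -/
def S : Int := 10 ^ 25

/-- One step of the recursion in fixed point arithmetic. -/
def step (s : St) : St where
  pr := (s.pr * (-724) - s.pi * 663) / 1000
  pi := (s.pr * 663 + s.pi * (-724)) / 1000
  ur := s.ur + (s.pr * (s.ur * s.ur - s.ui * s.ui) - s.pi * (2 * s.ur * s.ui)) /
    100000000000000000000000000000000000000000000000000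
  ui := s.ui + (s.pr * (2 * s.ur * s.ui) + s.pi * (s.ur * s.ur - s.ui * s.ui)) /
    100000000000000000000000000000000000000000000000000
  d := s.d + 2
  e := s.e + 3 + (s.d * ((|s.ur| + |s.ui|) + s.e) * ((|s.ur| + |s.ui|) + s.e) +
    (|s.pr| + |s.pi|) * s.e * (2 * (|s.ur| + |s.ui|) + s.e)) /
    100000000000000000000000000000000000000000000000000

/-- The final comparison. -/
def fin (s : St) : Bool :=
  decide ((3100000000000000000000000 + s.e + (4 * (|s.pr| + |s.pi| + s.d) * 10000 / 182 + 1)) ^ 2 <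
    s.ur * s.ur + s.ui * s.ui)

/-- The check of a part of the table. -/
def chk (s : St) : List St → Bool
  | [] => true
  | t :: L => decide (step s = t) && chk t L

/-- The last state. -/
def lst (s : St) : List St → St
  | [] => s
  | t :: L => lst t L

def s0 : St := ⟨10000000000000000000000000, 0, -5000000000000000000000000, 0, 0, 0⟩

/-- The number `l0`. -/
noncomputable def l0 : ℂ := ((-724 : ℤ) + (663 : ℤ) * Complex.I) / 1000

/-- The complex number of two integers. -/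
noncomputable def cc (a b : ℤ) : ℂ := (a : ℂ) + (b : ℂ) * Complex.I

lemma cc_norm_le (a b : ℤ) : ‖cc a b‖ ≤ ((|a| + |b| : ℤ) : ℝ) := by
  unfold cc
  refine (norm_add_le _ _).trans ?_
  rw [norm_mul, Complex.norm_I, mul_one, Complex.norm_intCast, Complex.norm_intCast]
  push_cast
  exact le_rfl

lemma cc_normSq (a b : ℤ) : ‖cc a b‖ ^ 2 = ((a * a + b * b : ℤ) : ℝ) := by
  rw [← Complex.normSq_eq_norm_sq, Complex.normSq_apply]
  simp [cc]

lemma div_err (a D : ℤ) (hD : 0 < D) : |(a : ℝ) / D - ((a / D : ℤ) : ℝ)| ≤ 1 := by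
  have h1 : D * (a / D) + a % D = a := Int.mul_ediv_add_emod a D
  have h2 : 0 ≤ a % D := Int.emod_nonneg a hD.ne'
  have h3 : a % D < D := Int.emod_lt_of_pos a hD
  have hDr : (0 : ℝ) < D := by exact_mod_cast hD
  have h4 : (a : ℝ) / D - ((a / D : ℤ) : ℝ) = ((a % D : ℤ) : ℝ) / D := by
    rw [eq_div_iff hDr.ne', sub_mul, div_mul_cancel₀ _ hDr.ne']
    have : (a : ℝ) = D * ((a / D : ℤ) : ℝ) + ((a % D : ℤ) : ℝ) := by exact_mod_cast h1.symm
    linarith
  rw [h4, abs_of_nonneg (div_nonneg (by exact_mod_cast h2) hDr.le), div_le_one hDr]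
  exact_mod_cast h3.le

lemma rnd (a b D : ℤ) (hD : 0 < D) : ‖cc a b / (D : ℂ) - cc (a / D) (b / D)‖ ≤ 2 := by
  have h1 := div_err a D hD
  have h2 := div_err b D hD
  have h3 : cc a b / (D : ℂ) - cc (a / D) (b / D) =
      (((a : ℝ) / D - ((a / D : ℤ) : ℝ) : ℝ) : ℂ) +
      (((b : ℝ) / D - ((b / D : ℤ) : ℝ) : ℝ) : ℂ) * Complex.I := by
    unfold cc
    push_cast
    ring
  rw [h3]
  refine (norm_add_le _ _).trans ?_
  rw [norm_mul, Complex.norm_I, mul_one, Complex.norm_real, Complex.norm_real]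
  simp only [Real.norm_eq_abs]
  linarith

lemma l0_norm : ‖l0‖ ≤ 9818 / 10000 := by
  have h : l0 = cc (-724) 663 / 1000 := rfl
  rw [h, norm_div]
  have h1 : ‖cc (-724) 663‖ ≤ 9818 / 10 := by
    have := cc_normSq (-724) 663
    norm_num at this
    have h0 : 0 ≤ ‖cc (-724) 663‖ := norm_nonneg _
    nlinarith
  have h2 : ‖(1000 : ℂ)‖ = 1000 := by simp
  rw [h2]
  linarith

/-- The invariant. -/
def Inv (n : ℕ) (s : St) : Prop :=
  ‖l0 ^ n * 10 ^ 25 - cc s.pr s.pi‖ ≤ s.d ∧ ‖uu l0 n * 10 ^ 25 - cc s.ur s.ui‖ ≤ s.e ∧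
    0 ≤ s.d ∧ 0 ≤ s.e

lemma inv_zero : Inv 0 s0 := by
  refine ⟨?_, ?_, ?_, ?_⟩
  · simp [s0, cc]
    norm_num
  · have : uu l0 0 * 10 ^ 25 - cc s0.ur s0.ui = 0 := by
      simp only [uu, s0, cc]
      push_cast
      norm_num
    rw [this]
    simp [s0]
  · simp [s0]
  · simp [s0]

lemma inv_step (n : ℕ) (s : St) (h : Inv n s) : Inv (n + 1) (step s) := by
  obtain ⟨h1, h2, h3, h4⟩ := h
  have hd0 : (0 : ℝ) ≤ s.d := by exact_mod_cast h3
  have he0 : (0 : ℝ) ≤ s.e := by exact_mod_cast h4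
  have hl0 : ‖l0‖ ≤ 1 := l0_norm.trans (by norm_num)
  set A := cc s.pr s.pi with hA
  set B := cc s.ur s.ui with hB
  set a := l0 ^ n * 10 ^ 25 with ha
  set b := uu l0 n * 10 ^ 25 with hb
  have hA1 : ‖A‖ ≤ ((|s.pr| + |s.pi| : ℤ) : ℝ) := cc_norm_le _ _
  have hB1 : ‖B‖ ≤ ((|s.ur| + |s.ui| : ℤ) : ℝ) := cc_norm_le _ _
  set A1 : ℤ := |s.pr| + |s.pi| with hA1'
  set B1 : ℤ := |s.ur| + |s.ui| with hB1'
  have hA0 : (0 : ℝ) ≤ A1 := by rw [hA1']; push_cast; positivity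
  have hB0 : (0 : ℝ) ≤ B1 := by rw [hB1']; push_cast; positivity
  refine ⟨?_, ?_, ?_, ?_⟩
  · have e1 : l0 ^ (n + 1) * 10 ^ 25 - cc (step s).pr (step s).pi =
        (a - A) * l0 + (cc (s.pr * (-724) - s.pi * 663) (s.pr * 663 + s.pi * (-724)) /
          ((1000 : ℤ) : ℂ) - cc (step s).pr (step s).pi) := by
      have : A * l0 = cc (s.pr * (-724) - s.pi * 663) (s.pr * 663 + s.pi * (-724)) /
          ((1000 : ℤ) : ℂ) := by
        rw [hA]
        unfold l0 cc
        push_cast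
        ring_nf
        simp only [Complex.I_sq]
        ring
      rw [← this, ha]
      ring
    rw [e1]
    have e2 : ‖(a - A) * l0‖ ≤ s.d := by
      rw [norm_mul]
      calc ‖a - A‖ * ‖l0‖ ≤ s.d * 1 := mul_le_mul h1 hl0 (norm_nonneg _) hd0
        _ = s.d := mul_one _
    have e3 := rnd (s.pr * (-724) - s.pi * 663) (s.pr * 663 + s.pi * (-724)) 1000 (by norm_num)
    refine (norm_add_le _ _).trans ?_
    have e4 : (((step s).d : ℤ) : ℝ) = s.d + 2 := by simp [step]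
    rw [e4]
    exact add_le_add e2 e3
  · set D : ℤ := 100000000000000000000000000000000000000000000000000 with hD
    have hDc : (D : ℂ) = 10 ^ 50 := by rw [hD]; norm_num
    have hDr : (D : ℝ) = 10 ^ 50 := by rw [hD]; norm_num
    set T1 : ℤ := s.pr * (s.ur * s.ur - s.ui * s.ui) - s.pi * (2 * s.ur * s.ui) with hT1
    set T2 : ℤ := s.pr * (2 * s.ur * s.ui) + s.pi * (s.ur * s.ur - s.ui * s.ui) with hT2
    have hAB : A * B ^ 2 = cc T1 T2 := by
      rw [hA, hB, hT1, hT2]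
      unfold cc
      push_cast
      ring_nf
      simp only [Complex.I_sq, Complex.I_pow_three]
      ring
    have e1 : uu l0 (n + 1) * 10 ^ 25 - cc (step s).ur (step s).ui =
        (b - B) + (a * b ^ 2 - A * B ^ 2) / (D : ℂ) +
        (cc T1 T2 / (D : ℂ) - cc (T1 / D) (T2 / D)) := by
      have hu : uu l0 (n + 1) = uu l0 n + l0 ^ n * uu l0 n ^ 2 := rfl
      have hs : cc (step s).ur (step s).ui = B + cc (T1 / D) (T2 / D) := by
        rw [hB]
        simp only [step, cc, ← hT1, ← hT2, ← hD]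
        push_cast
        ring
      rw [hu, hs, ← hAB, hDc, ha, hb]
      ring
    rw [e1]
    have e3 := rnd T1 T2 D (by rw [hD]; norm_num)
    have hbn : ‖b‖ ≤ B1 + s.e := by
      calc ‖b‖ = ‖B + (b - B)‖ := by ring_nf
        _ ≤ ‖B‖ + ‖b - B‖ := norm_add_le _ _
        _ ≤ B1 + s.e := add_le_add hB1 h2
    have e2 : ‖a * b ^ 2 - A * B ^ 2‖ ≤ s.d * (B1 + s.e) * (B1 + s.e) + A1 * s.e * (2 * B1 + s.e) := by
      have : a * b ^ 2 - A * B ^ 2 = (a - A) * b * b + A * (b - B) * (b + B) := by ring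
      rw [this]
      refine (norm_add_le _ _).trans ?_
      simp only [norm_mul]
      have hbB : ‖b + B‖ ≤ 2 * B1 + s.e := (norm_add_le _ _).trans (by linarith)
      gcongr
    set X : ℤ := s.d * (B1 + s.e) * (B1 + s.e) + A1 * s.e * (2 * B1 + s.e) with hX
    have e2' : ‖a * b ^ 2 - A * B ^ 2‖ ≤ X := by
      rw [hX]; push_cast; exact e2
    have e5 : ‖(a * b ^ 2 - A * B ^ 2) / (D : ℂ)‖ ≤ ((X / D : ℤ) : ℝ) + 1 := by
      rw [norm_div]
      have hDn : ‖(D : ℂ)‖ = (D : ℝ) := by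
        rw [Complex.norm_intCast, abs_of_pos]; rw [hDr]; positivity
      rw [hDn]
      have hDp : (0 : ℝ) < D := by rw [hDr]; positivity
      have := div_err X D (by rw [hD]; norm_num)
      have h6 := abs_le.1 this
      calc ‖a * b ^ 2 - A * B ^ 2‖ / (D : ℝ) ≤ (X : ℝ) / D := by gcongr
        _ ≤ ((X / D : ℤ) : ℝ) + 1 := by linarith [h6.2]
    have e6 : (((step s).e : ℤ) : ℝ) = s.e + 3 + ((X / D : ℤ) : ℝ) := by
      simp only [step, ← hA1', ← hB1', ← hX, ← hD]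
      push_cast
      ring
    rw [e6]
    refine (norm_add₃_le).trans ?_
    linarith
  · simp only [step]
    linarith
  · simp only [step]
    have : 0 ≤ (s.d * (B1 + s.e) * (B1 + s.e) + A1 * s.e * (2 * B1 + s.e)) /
        100000000000000000000000000000000000000000000000000 := by
      apply Int.ediv_nonneg _ (by norm_num)
      have hA0' : 0 ≤ A1 := by rw [hA1']; positivity
      have hB0' : 0 ≤ B1 := by rw [hB1']; positivity
      positivity
    linarith

lemma chk_sound : ∀ (L : List St) (s : St) (n : ℕ), Inv n s → chk s L = true →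
    Inv (n + L.length) (lst s L) := by
  intro L
  induction L with
  | nil => intro s n h _; simpa [lst] using h
  | cons t L ih =>
    intro s n h hc
    simp only [chk, Bool.and_eq_true, decide_eq_true_eq] at hc
    have h1 : Inv (n + 1) t := hc.1 ▸ inv_step n s h
    have h2 := ih t (n + 1) h1 hc.2
    have e : n + (t :: L).length = n + 1 + L.length := by simp; ring
    rw [e]
    exact h2

lemma fin_sound (n : ℕ) (s : St) (h : Inv n s) (hf : fin s = true) :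
    31 / 100 < ‖uu l0 n‖ - 4 * ‖l0‖ ^ n / (1 - ‖l0‖) := by
  obtain ⟨h1, h2, h3, h4⟩ := h
  simp only [fin, decide_eq_true_eq] at hf
  have hd0 : (0 : ℝ) ≤ s.d := by exact_mod_cast h3
  have he0 : (0 : ℝ) ≤ s.e := by exact_mod_cast h4
  have hA1 : ‖cc s.pr s.pi‖ ≤ ((|s.pr| + |s.pi| : ℤ) : ℝ) := cc_norm_le _ _
  set Y : ℤ := |s.pr| + |s.pi| + s.d with hY
  have hYr : (Y : ℝ) = ((|s.pr| + |s.pi| : ℤ) : ℝ) + s.d := by rw [hY]; push_cast; ring
  have hY0 : (0 : ℝ) ≤ Y := by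
    rw [hYr]
    have : (0 : ℝ) ≤ ‖cc s.pr s.pi‖ := norm_nonneg _
    linarith
  have hp : ‖l0‖ ^ n * 10 ^ 25 ≤ Y := by
    have e1 : ‖l0 ^ n * 10 ^ 25‖ = ‖l0‖ ^ n * 10 ^ 25 := by simp
    rw [← e1]
    calc ‖l0 ^ n * 10 ^ 25‖ = ‖cc s.pr s.pi + (l0 ^ n * 10 ^ 25 - cc s.pr s.pi)‖ := by ring_nf
      _ ≤ ‖cc s.pr s.pi‖ + ‖l0 ^ n * 10 ^ 25 - cc s.pr s.pi‖ := norm_add_le _ _
      _ ≤ Y := by rw [hYr]; linarith
  have hu : ‖cc s.ur s.ui‖ ≤ ‖uu l0 n‖ * 10 ^ 25 + s.e := by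
    have e1 : ‖uu l0 n * 10 ^ 25‖ = ‖uu l0 n‖ * 10 ^ 25 := by simp
    rw [← e1]
    calc ‖cc s.ur s.ui‖ = ‖uu l0 n * 10 ^ 25 - (uu l0 n * 10 ^ 25 - cc s.ur s.ui)‖ := by ring_nf
      _ ≤ ‖uu l0 n * 10 ^ 25‖ + ‖uu l0 n * 10 ^ 25 - cc s.ur s.ui‖ := norm_sub_le _ _
      _ ≤ _ := by linarith
  set τ : ℤ := 4 * Y * 10000 / 182 + 1 with hτ
  have hτr : 4 * (Y : ℝ) * 10000 / 182 ≤ τ := by
    have := abs_le.1 (div_err (4 * Y * 10000) 182 (by norm_num))
    rw [hτ]
    push_cast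
    have h6 := this.2
    push_cast at h6
    linarith
  have hτ0 : (0 : ℝ) ≤ τ := le_trans (by positivity) hτr
  have hU : (3100000000000000000000000 + (s.e : ℝ) + τ) < ‖cc s.ur s.ui‖ := by
    refine lt_of_pow_lt_pow_left₀ 2 (norm_nonneg _) ?_
    rw [cc_normSq]
    exact_mod_cast hf
  have hl := l0_norm
  have hl' : 182 / 10000 ≤ 1 - ‖l0‖ := by linarith
  have ht : 4 * ‖l0‖ ^ n / (1 - ‖l0‖) * 10 ^ 25 ≤ 4 * (Y : ℝ) * 10000 / 182 := by
    have e1 : 4 * ‖l0‖ ^ n / (1 - ‖l0‖) * 10 ^ 25 = 4 * (‖l0‖ ^ n * 10 ^ 25) / (1 - ‖l0‖) := by ring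
    rw [e1]
    calc 4 * (‖l0‖ ^ n * 10 ^ 25) / (1 - ‖l0‖) ≤ 4 * Y / (182 / 10000) := by gcongr
      _ = 4 * (Y : ℝ) * 10000 / 182 := by ring
  have hfin : 31 / 100 * (10 : ℝ) ^ 25 <
      (‖uu l0 n‖ - 4 * ‖l0‖ ^ n / (1 - ‖l0‖)) * 10 ^ 25 := by
    rw [sub_mul]
    have : (31 / 100 : ℝ) * 10 ^ 25 = 3100000000000000000000000 := by norm_num
    rw [this]
    linarith
  exact lt_of_mul_lt_mul_right hfin (by positivity)

def last0 : St := lst s0 tab0

set_option maxRecDepth 100000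

lemma c0 : chk s0 tab0 = true := by decide +kernel
lemma c1 : chk (lst s0 tab0) tab1 = true := by decide +kernel
lemma c2 : chk (lst (lst s0 tab0) tab1) tab2 = true := by decide +kernel
lemma c3 : chk (lst (lst (lst s0 tab0) tab1) tab2) tab3 = true := by decide +kernel
lemma c4 : chk (lst (lst (lst (lst s0 tab0) tab1) tab2) tab3) tab4 = true := by decide +kernel
lemma c5 : chk (lst (lst (lst (lst (lst s0 tab0) tab1) tab2) tab3) tab4) tab5 = true := by
  decide +kernel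
lemma c6 : chk (lst (lst (lst (lst (lst (lst s0 tab0) tab1) tab2) tab3) tab4) tab5) tab6 = true := by
  decide +kernel
lemma c7 : chk (lst (lst (lst (lst (lst (lst (lst s0 tab0) tab1) tab2) tab3) tab4) tab5) tab6) tab7
    = true := by decide +kernel
lemma c8 : fin (lst (lst (lst (lst (lst (lst (lst (lst s0 tab0) tab1) tab2) tab3) tab4) tab5) tab6)
    tab7) = true := by decide +kernel

end NUMM

open NUMM in
theorem specNUM : SpecNUM := by
  have i0 := chk_sound _ _ _ inv_zero c0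
  have i1 := chk_sound _ _ _ i0 c1
  have i2 := chk_sound _ _ _ i1 c2
  have i3 := chk_sound _ _ _ i2 c3
  have i4 := chk_sound _ _ _ i3 c4
  have i5 := chk_sound _ _ _ i4 c5
  have i6 := chk_sound _ _ _ i5 c6
  have i7 := chk_sound _ _ _ i6 c7
  exact ⟨l0, _, lt_of_le_of_lt l0_norm (by norm_num), fin_sound _ _ i7 c8⟩

end Pool.Agent.Lib.MP49ebba
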