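import Pool.Agent.Lib.MP_49ebba_an.MR.Spec

/-! MP_49ebba_an, module PER: periodic points are far from the fixed point `0`. -/

set_option autoImplicit false

namespace Pool.Agent.Lib.MP49ebba

open Metric Filter Topology

namespace PERM

theorem iter {l : ℂ} {r : ℝ} {h : ℂ → ℂ} (hl : ‖l‖ = 1) (H : IsLin l r h) {w : ℂ}
    (hw : w ∈ ball (0 : ℂ) r) (n : ℕ) : (P l)^[n] (h w) = h (l ^ n * w) := by
  induction n with
  | zero => simp
  | succ n ih =>
    have h1 : l ^ n * w ∈ ball (0 : ℂ) r := by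
      rw [mem_ball_zero_iff] at hw ⊢
      rwa [norm_mul, norm_pow, hl, one_pow, one_mul]
    rw [Function.iterate_succ_apply', ih, H.eqn _ h1, pow_succ']
    ring_nf

/-- a periodic point is not in the Siegel disc -/
theorem avoid {l : ℂ} {r : ℝ} {h : ℂ → ℂ} {z : ℂ} {q : ℕ} (hN : Neutral l) (H : IsLin l r h)
    (hz : z ≠ 0) (hq : 1 ≤ q) (hper : (P l)^[q] z = z) :
    ∀ w ∈ ball (0 : ℂ) r, h w ≠ z := by
  intro w hw hwz
  have hr : 0 < r := pos_of_mem_ball hw
  have hw0 : w ≠ 0 := by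
    rintro rfl
    exact hz (by rw [← hwz, H.zero])
  have hval : ∀ k : ℕ, h (l ^ (q * k) * w) = z := by
    intro k
    rw [← iter hN.1 H hw, hwz, Function.iterate_mul]
    exact Function.iterate_fixed hper k
  have hinj : Function.Injective fun k : ℕ => l ^ (q * k) * w := by
    have key : ∀ a b : ℕ, a < b → l ^ (q * a) * w ≠ l ^ (q * b) * w := by
      intro a b hab heq
      have h1 : l ^ (q * a) = l ^ (q * b) := mul_right_cancel₀ hw0 heq
      have hl0 : l ≠ 0 := by
        intro h0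
        have := hN.1
        rw [h0, norm_zero] at this
        exact zero_ne_one this
      have h2 : l ^ (q * b) = l ^ (q * a) * l ^ (q * (b - a)) := by
        rw [← pow_add]
        congr 1
        rw [← Nat.mul_add]
        congr 1
        omega
      rw [h2] at h1
      have h3 : l ^ (q * (b - a)) = 1 := by
        have h4 : l ^ (q * a) * 1 = l ^ (q * a) * l ^ (q * (b - a)) := by rw [mul_one]; exact h1
        exact (mul_left_cancel₀ (pow_ne_zero _ hl0) h4).symm
      exact hN.2 _ (Nat.mul_pos hq (by omega)) h3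
    intro a b hab
    rcases lt_trichotomy a b with h1 | h1 | h1
    · exact absurd hab (key a b h1)
    · exact h1
    · exact absurd hab.symm (key b a h1)
  have hinf : (Set.range fun k : ℕ => l ^ (q * k) * w).Infinite := Set.infinite_range_of_injective hinj
  have hsub : (Set.range fun k : ℕ => l ^ (q * k) * w) ⊆ closedBall 0 ‖w‖ := by
    rintro _ ⟨k, rfl⟩
    rw [mem_closedBall_zero_iff]
    simp only [norm_mul, norm_pow, hN.1, one_pow, one_mul]
    exact le_refl _
  obtain ⟨a, ha, hacc⟩ := hinf.exists_accPt_of_subset_isCompact (isCompact_closedBall _ _) hsub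
  have ha' : a ∈ ball (0 : ℂ) r := by
    rw [mem_closedBall_zero_iff] at ha
    rw [mem_ball_zero_iff] at hw ⊢
    exact ha.trans_lt hw
  rw [accPt_iff_frequently_nhdsNE] at hacc
  have hfreq : ∃ᶠ y in 𝓝[≠] a, h y = (fun _ => z) y := by
    refine hacc.mono ?_
    rintro y ⟨k, rfl⟩
    exact hval k
  have heq := (H.diff.analyticOnNhd isOpen_ball).eqOn_of_preconnected_of_frequently_eq
    (analyticOnNhd_const (v := z)) (convex_ball (0 : ℂ) r).isPreconnected ha' hfreq
  have h0 := heq (mem_ball_self hr)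
  rw [H.zero] at h0
  exact hz h0.symm

/-- a holomorphic logarithm on a disc -/
theorem exists_log {F : ℂ → ℂ} {ρ : ℝ} (hρ : 0 < ρ) (hF : DifferentiableOn ℂ F (ball 0 ρ))
    (hF0 : F 0 = 1) (hne : ∀ w ∈ ball (0 : ℂ) ρ, F w ≠ 0) :
    ∃ L : ℂ → ℂ, L 0 = 0 ∧ (∀ w ∈ ball (0 : ℂ) ρ, HasDerivAt L (deriv F w / F w) w) ∧
      ∀ w ∈ ball (0 : ℂ) ρ, Complex.exp (L w) = F w := by
  have hd : DifferentiableOn ℂ (fun w => deriv F w / F w) (ball 0 ρ) :=
    (hF.deriv isOpen_ball).div hF hne
  obtain ⟨L, hL0, hL⟩ := (hd.isExactOn_ball).with_val_at 0 0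
  refine ⟨L, hL0, hL, ?_⟩
  have hG : ∀ w ∈ ball (0 : ℂ) ρ, HasDerivAt (fun w => Complex.exp (-L w) * F w) 0 w := by
    intro w hw
    have h1 : HasDerivAt F (deriv F w) w :=
      ((hF w hw).differentiableAt (isOpen_ball.mem_nhds hw)).hasDerivAt
    have h2 := ((hL w hw).fun_neg.cexp).fun_mul h1
    refine h2.congr_deriv ?_
    have h3 := hne w hw
    field_simp
    ring
  intro w hw
  have h4 : Complex.exp (-L w) * F w = Complex.exp (-L 0) * F 0 := by
    refine (convex_ball (0 : ℂ) ρ).is_const_of_fderivWithin_eq_zero (𝕜 := ℂ)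
      (f := fun w => Complex.exp (-L w) * F w) (fun x hx => (hG x hx).differentiableAt.differentiableWithinAt)
      (fun x hx => ?_) hw (mem_ball_self hρ)
    rw [fderivWithin_of_isOpen isOpen_ball hx]
    have h5 := (hG x hx).hasFDerivAt.fderiv
    rw [h5]
    ext
    simp
  rw [hL0, hF0, neg_zero, Complex.exp_zero, mul_one] at h4
  have h5 : Complex.exp (L w) * (Complex.exp (-L w) * F w) = F w := by
    rw [← mul_assoc, ← Complex.exp_add, add_neg_cancel, Complex.exp_zero, one_mul]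
  rw [h4, mul_one] at h5
  exact h5

/-- the estimate for the derivative at `0` -/
theorem log_deriv {F : ℂ → ℂ} {ρ M : ℝ} (hρ : 0 < ρ) (hM : 1 < M)
    (hF : DifferentiableOn ℂ F (ball 0 ρ)) (hF0 : F 0 = 1) (hne : ∀ w ∈ ball (0 : ℂ) ρ, F w ≠ 0)
    (hb : ∀ w ∈ ball (0 : ℂ) ρ, ‖F w‖ ≤ M) : ‖deriv F 0‖ ≤ 2 * Real.log M / ρ := by
  obtain ⟨L, hL0, hL, hexp⟩ := exists_log hρ hF hF0 hne
  set A : ℝ := Real.log M with hA
  have hApos : 0 < A := Real.log_pos hM
  have hre : ∀ w ∈ ball (0 : ℂ) ρ, (L w).re ≤ A := by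
    intro w hw
    have h1 : ‖F w‖ = Real.exp (L w).re := by rw [← hexp w hw, Complex.norm_exp]
    rw [hA, Real.le_log_iff_exp_le (by linarith), ← h1]
    exact hb w hw
  have hden : ∀ w ∈ ball (0 : ℂ) ρ, (2 * A : ℂ) - L w ≠ 0 := by
    intro w hw h0
    have h1 := congrArg Complex.re h0
    simp only [Complex.sub_re, Complex.mul_re, Complex.re_ofNat, Complex.ofReal_re,
      Complex.im_ofNat, Complex.ofReal_im, mul_zero, sub_zero, Complex.zero_re] at h1
    have h2 := hre w hw
    linarith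
  have hmaps : Set.MapsTo (fun w => L w / ((2 * A : ℂ) - L w)) (ball 0 ρ)
      (closedBall ((fun w => L w / ((2 * A : ℂ) - L w)) 0) 1) := by
    intro w hw
    have h0 : (fun w => L w / ((2 * A : ℂ) - L w)) 0 = 0 := by simp [hL0]
    rw [h0, mem_closedBall_zero_iff, norm_div]
    have h1 : 0 < ‖(2 * A : ℂ) - L w‖ := norm_pos_iff.2 (hden w hw)
    rw [div_le_one h1]
    have h2 := hre w hw
    have h3 : ‖L w‖ ^ 2 ≤ ‖(2 * A : ℂ) - L w‖ ^ 2 := by
      rw [← Complex.normSq_eq_norm_sq, ← Complex.normSq_eq_norm_sq, Complex.normSq_apply,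
        Complex.normSq_apply]
      simp only [Complex.sub_re, Complex.mul_re, Complex.re_ofNat, Complex.ofReal_re,
        Complex.im_ofNat, Complex.ofReal_im, mul_zero, sub_zero, Complex.sub_im, Complex.mul_im,
        zero_mul, add_zero, zero_sub]
      nlinarith
    exact le_of_sq_le_sq h3 (norm_nonneg _)
  have hdiff : DifferentiableOn ℂ (fun w => L w / ((2 * A : ℂ) - L w)) (ball 0 ρ) := by
    intro w hw
    exact ((hL w hw).differentiableAt.fun_div
      ((differentiableAt_const _).fun_sub (hL w hw).differentiableAt) (hden w hw)).differentiableWithinAt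
  have h1 := Complex.norm_deriv_le_div_of_mapsTo_ball hdiff hmaps hρ
  have h0 := mem_ball_self (x := (0 : ℂ)) hρ
  have hLd := hL 0 h0
  rw [hF0, div_one] at hLd
  have h2 : HasDerivAt (fun w => L w / ((2 * A : ℂ) - L w)) (deriv F 0 / (2 * A)) 0 := by
    have h3 := hLd.fun_div (((hasDerivAt_const (0 : ℂ) ((2 * A : ℂ)))).fun_sub hLd) (hden 0 h0)
    refine h3.congr_deriv ?_
    rw [hL0]
    have hA0 : (A : ℂ) ≠ 0 := by exact_mod_cast hApos.ne'
    field_simp
    ring
  rw [h2.deriv, norm_div] at h1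
  have h4 : ‖(2 * A : ℂ)‖ = 2 * A := by
    rw [norm_mul, Complex.norm_ofNat, Complex.norm_real, Real.norm_of_nonneg hApos.le]
  rw [h4, div_le_div_iff₀ (by positivity) hρ] at h1
  rw [le_div_iff₀ hρ]
  linarith

theorem numeric {x : ℝ} (hx : 0 < x) (hx' : x < 1 / 26)
    (h : 31 / 100 ≤ 2 * x * Real.log (1 + 2 / x)) : False := by
  have h53 : Real.log 53 < 4 := by
    rw [Real.log_lt_iff_lt_exp (by norm_num)]
    have h1 := Real.exp_one_gt_d9
    have h2 : Real.exp 4 = Real.exp 1 ^ 4 := by rw [← Real.exp_nat_mul]; norm_num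
    rw [h2]
    have h3 : (2.718 : ℝ) ^ 4 < Real.exp 1 ^ 4 :=
      pow_lt_pow_left₀ (by linarith) (by norm_num) (by norm_num)
    have h4 : (53 : ℝ) < 2.718 ^ 4 := by norm_num
    linarith
  have h53' : 1 < Real.log 53 := by
    rw [Real.lt_log_iff_exp_lt (by norm_num)]
    have h1 := Real.exp_one_lt_d9
    linarith
  have hpos : 0 < (1 + 2 / x) / 53 := by positivity
  have h1 : Real.log (1 + 2 / x) = Real.log 53 + Real.log ((1 + 2 / x) / 53) := by
    rw [← Real.log_mul (by norm_num) hpos.ne']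
    congr 1
    ring
  have h2 := Real.log_le_sub_one_of_pos hpos
  have h3 : x * Real.log (1 + 2 / x) ≤ x * (Real.log 53 + ((1 + 2 / x) / 53 - 1)) := by
    apply mul_le_mul_of_nonneg_left _ hx.le
    rw [h1]
    linarith
  have h4 : x * (Real.log 53 + ((1 + 2 / x) / 53 - 1)) = x * (Real.log 53 - 52 / 53) + 2 / 53 := by
    field_simp
    ring
  have h5 : x * (Real.log 53 - 52 / 53) ≤ 1 / 26 * (Real.log 53 - 52 / 53) :=
    mul_le_mul_of_nonneg_right hx'.le (by linarith)
  linarith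

end PERM

open PERM in
theorem specPER (hBND : SpecBND) : SpecPER := by
  intro l r z q hN hr hL hz hq hper
  obtain ⟨h, H⟩ := hL
  by_contra hcon
  rw [not_le] at hcon
  have hl : ‖l‖ = 1 := hN.1
  have hav := avoid hN H hz hq hper
  have hsub : ball (0 : ℂ) (31 / 100) ⊆ ball 0 r := ball_subset_ball hr
  have hx : 0 < ‖z‖ := norm_pos_iff.2 hz
  have hbd : ∀ w ∈ ball (0 : ℂ) r, ‖h w‖ ≤ 2 := by
    intro w hw
    have h1 := hBND l r h (by rw [hl]; norm_num) hl.le H w hw
    rw [hl] at h1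
    linarith
  have h0r : (0 : ℂ) ∈ ball (0 : ℂ) r := mem_ball_self (by linarith)
  have hder : HasDerivAt (fun w => 1 - h w / z) (-(1 / z)) 0 := by
    have h1 : HasDerivAt h 1 0 := by
      have h2 := ((H.diff 0 h0r).differentiableAt (isOpen_ball.mem_nhds h0r)).hasDerivAt
      rwa [H.one] at h2
    exact (h1.div_const z).const_sub 1
  have key := log_deriv (F := fun w => 1 - h w / z) (ρ := 31 / 100) (M := 1 + 2 / ‖z‖)
    (by norm_num) (by have : 0 < 2 / ‖z‖ := by positivity
                      linarith)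
    (fun w hw => (((H.diff w (hsub hw)).mono hsub).div_const z).const_sub 1)
    (by simp [H.zero])
    (fun w hw h1 => by
      apply hav w (hsub hw)
      have h2 : h w / z = 1 := (sub_eq_zero.1 h1).symm
      rwa [div_eq_one_iff_eq hz] at h2)
    (fun w hw => by
      refine (norm_sub_le _ _).trans ?_
      rw [norm_one, norm_div]
      have := hbd w (hsub hw)
      gcongr)
  rw [hder.deriv, norm_neg, norm_div, norm_one, le_div_iff₀ (by norm_num)] at key
  apply numeric hx hcon
  have h6 : ‖z‖ * (1 / ‖z‖ * (31 / 100)) ≤ ‖z‖ * (2 * Real.log (1 + 2 / ‖z‖)) :=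
    mul_le_mul_of_nonneg_left key hx.le
  have h7 : ‖z‖ * (1 / ‖z‖ * (31 / 100)) = 31 / 100 := by
    field_simp
  rw [h7] at h6
  linarith

end Pool.Agent.Lib.MP49ebba
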