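import Pool.Agent.Lib.MP_49ebba_an.MR.Spec

/-! # Module RUN: roots of unity are excluded -/

set_option autoImplicit false

namespace Pool.Agent.Lib.MP49ebba

open Metric Filter Topology

namespace RUNM

open Polynomial

/-- the iterates of `P l` as polynomials -/
noncomputable def Q (l : ℂ) : ℕ → ℂ[X]
  | 0 => X
  | k + 1 => C l * (Q l k + Q l k ^ 2)

lemma eval_Q (l z : ℂ) (k : ℕ) : (Q l k).eval z = (P l)^[k] z := by
  induction k with
  | zero => simp [Q]
  | succ k ih =>
    rw [Function.iterate_succ_apply', ← ih]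
    simp [Q, P]

lemma natDegree_Q {l : ℂ} (hl : l ≠ 0) (k : ℕ) : (Q l k).natDegree = 2 ^ k := by
  induction k with
  | zero => simp [Q]
  | succ k ih =>
    have h1 : (Q l k ^ 2).natDegree = 2 * 2 ^ k := by rw [natDegree_pow, ih]
    have h2 : 0 < 2 ^ k := by positivity
    show (C l * (Q l k + Q l k ^ 2)).natDegree = 2 ^ (k + 1)
    rw [natDegree_C_mul hl, natDegree_add_eq_right_of_natDegree_lt, h1, pow_succ, mul_comm]
    rw [h1, ih]
    omega

lemma iter {l : ℂ} {r : ℝ} {h : ℂ → ℂ} (hl : ‖l‖ = 1) (hh : IsLin l r h) (k : ℕ) {z : ℂ}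
    (hz : z ∈ ball (0 : ℂ) r) : (P l)^[k] (h z) = h (l ^ k * z) := by
  induction k with
  | zero => simp
  | succ k ih =>
    have h1 : l ^ k * z ∈ ball (0 : ℂ) r := by
      rw [mem_ball_zero_iff, norm_mul, norm_pow, hl, one_pow, one_mul]
      exact mem_ball_zero_iff.1 hz
    rw [Function.iterate_succ_apply', ih, hh.eqn _ h1, pow_succ, mul_comm (l ^ k) l, mul_assoc]

end RUNM

open RUNM Polynomial in
theorem specRUN : SpecRUN := by
  classical
  intro l r hl hr hL n hn hln
  obtain ⟨h, hh⟩ := hL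
  have hl0 : l ≠ 0 := by
    intro h0
    rw [h0, norm_zero] at hl
    exact zero_ne_one hl
  have hS : Q l n - X ≠ 0 := by
    intro h0
    have h1 := natDegree_Q hl0 n
    rw [sub_eq_zero.1 h0, natDegree_X] at h1
    have h2 : 1 < 2 ^ n := Nat.one_lt_two_pow hn.ne'
    omega
  have hmaps : Set.MapsTo h (ball (0 : ℂ) r) ((Q l n - X).roots.toFinset : Set ℂ) := by
    intro z hz
    rw [Finset.mem_coe, Multiset.mem_toFinset, mem_roots hS, IsRoot.def, eval_sub, eval_X, eval_Q,
      iter hl hh n hz, hln, one_mul, sub_self]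
  have hconn : IsPreconnected (ball (0 : ℂ) r) := (convex_ball (0 : ℂ) r).isPreconnected
  have h0 : (0 : ℂ) ∈ ball (0 : ℂ) r := mem_ball_self hr
  obtain ⟨y, -, hy⟩ := hconn.eqOn_const_of_mapsTo
    (Finset.finite_toSet (Q l n - X).roots.toFinset).isDiscrete
    hh.diff.continuousOn hmaps ⟨_, hmaps h0⟩
  have h1 : h =ᶠ[𝓝 0] fun _ => y := by
    filter_upwards [isOpen_ball.mem_nhds h0] with z hz
    exact hy hz
  have h2 := h1.deriv_eq
  rw [hh.one, deriv_const] at h2
  exact one_ne_zero h2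

end Pool.Agent.Lib.MP49ebba
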