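import Pool.Agent.Lib.MP_49ebba_an.MR.Spec

/-!
# TAI: the tail of the sequence of the polynomials `u_n`
-/

set_option autoImplicit false

namespace Pool.Agent.Lib.MP49ebba

open Metric Filter Topology

namespace TAIM

lemma step (hUBD : SpecUBD) (l : ℂ) (j : ℕ) (hl : ‖l‖ < 1) :
    ‖uu l (j + 1) - uu l j‖ ≤ 4 * ‖l‖ ^ j := by
  have h1 : uu l (j + 1) - uu l j = l ^ j * uu l j ^ 2 := by
    rw [uu]
    ring
  have h2 := hUBD l j hl
  have h3 : ‖uu l j‖ ^ 2 ≤ 4 := by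
    nlinarith [norm_nonneg (uu l j)]
  rw [h1, norm_mul, norm_pow, norm_pow]
  have h4 : 0 ≤ ‖l‖ ^ j := pow_nonneg (norm_nonneg l) j
  nlinarith

lemma tail (hUBD : SpecUBD) (l : ℂ) (n : ℕ) (hl : ‖l‖ < 1) (k : ℕ) :
    ‖uu l (n + k) - uu l n‖ * (1 - ‖l‖) ≤ 4 * (‖l‖ ^ n - ‖l‖ ^ (n + k)) := by
  induction k with
  | zero => simp
  | succ k ih =>
    have h1 := step hUBD l (n + k) hl
    have h2 : ‖uu l (n + (k + 1)) - uu l n‖ ≤
        ‖uu l (n + k + 1) - uu l (n + k)‖ + ‖uu l (n + k) - uu l n‖ := by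
      have h3 : uu l (n + (k + 1)) - uu l n =
          (uu l (n + k + 1) - uu l (n + k)) + (uu l (n + k) - uu l n) := by
        rw [← add_assoc]
        ring
      rw [h3]
      exact norm_add_le _ _
    have h5 : 0 ≤ 1 - ‖l‖ := by linarith
    calc ‖uu l (n + (k + 1)) - uu l n‖ * (1 - ‖l‖)
        ≤ (‖uu l (n + k + 1) - uu l (n + k)‖ + ‖uu l (n + k) - uu l n‖) * (1 - ‖l‖) :=
          mul_le_mul_of_nonneg_right h2 h5
      _ = ‖uu l (n + k + 1) - uu l (n + k)‖ * (1 - ‖l‖) +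
            ‖uu l (n + k) - uu l n‖ * (1 - ‖l‖) := by ring
      _ ≤ 4 * ‖l‖ ^ (n + k) * (1 - ‖l‖) + 4 * (‖l‖ ^ n - ‖l‖ ^ (n + k)) :=
          add_le_add (mul_le_mul_of_nonneg_right h1 h5) ih
      _ = 4 * (‖l‖ ^ n - ‖l‖ ^ (n + (k + 1))) := by
          rw [← add_assoc, pow_succ]
          ring

end TAIM

/-- TAI -/
theorem specTAI (hUBD : SpecUBD) : SpecTAI := by
  intro l n k hl
  have h1 := TAIM.tail hUBD l n hl k
  have h2 : 0 < 1 - ‖l‖ := by linarith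
  rw [le_div_iff₀ h2]
  have h3 : 0 ≤ ‖l‖ ^ (n + k) := pow_nonneg (norm_nonneg l) _
  linarith

end Pool.Agent.Lib.MP49ebba
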