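import Pool.Agent.Lib.MP_49ebba_an.MR.Spec

/-!
# MR: module UBD (MP_49ebba_an)
-/

set_option autoImplicit false

namespace Pool.Agent.Lib.MP49ebba

open Metric Filter Topology

namespace UBDM

theorem diff_uu (n : ℕ) : Differentiable ℂ (fun l : ℂ => uu l n) := by
  induction n with
  | zero => exact differentiable_const _
  | succ n ih =>
    show Differentiable ℂ (fun l : ℂ => uu l n + l ^ n * uu l n ^ 2)
    exact ih.add ((differentiable_id.pow n).mul (ih.pow 2))

theorem bound (hCRI : SpecCRI) {l : ℂ} {n : ℕ} (hn : 1 ≤ n) {r : ℝ} (hr : ‖l‖ < r) (hr1 : r < 1) :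
    ‖uu l n‖ ≤ 1 + 1 / r := by
  have hr0 : 0 < r := lt_of_le_of_lt (norm_nonneg _) hr
  refine Complex.norm_le_of_forall_mem_frontier_norm_le (f := fun l : ℂ => uu l n)
    (U := ball (0 : ℂ) r) isBounded_ball (diff_uu n).diffContOnCl ?_ ?_
  · intro z hz
    rw [frontier_ball (0 : ℂ) hr0.ne', mem_sphere_zero_iff_norm] at hz
    obtain ⟨z0, -, -, -, h⟩ := hCRI z (by rw [hz]; exact hr0) (by rw [hz]; exact hr1)
    have := h n hn
    rw [hz] at this
    exact this
  · apply subset_closure
    rw [mem_ball_zero_iff]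
    exact hr

end UBDM

open UBDM in
theorem specUBD (hCRI : SpecCRI) : SpecUBD := by
  intro l n hl
  rcases Nat.eq_zero_or_pos n with rfl | hn
  · show ‖(-1 / 2 : ℂ)‖ ≤ 2
    rw [norm_div, norm_neg, norm_one, Complex.norm_ofNat]
    norm_num
  · have hlim : Tendsto (fun r : ℝ => 1 + 1 / r) (𝓝[<] 1) (𝓝 2) := by
      have h1 : ContinuousAt (fun r : ℝ => 1 + 1 / r) 1 :=
        continuousAt_const.add (continuousAt_const.div continuousAt_id one_ne_zero)
      have h2 : (1 + 1 / 1 : ℝ) = 2 := by norm_num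
      have h3 := h1.tendsto
      rw [h2] at h3
      exact h3.mono_left nhdsWithin_le_nhds
    refine ge_of_tendsto hlim ?_
    filter_upwards [Ioo_mem_nhdsLT hl] with r hr
    exact bound hCRI hn hr.1 hr.2

end Pool.Agent.Lib.MP49ebba
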