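import Pool.Agent.Lib.MP_49ebba_an.MR.BND
import Pool.Agent.Lib.MP_49ebba_an.MR.RUN
import Pool.Agent.Lib.MP_49ebba_an.MR.LIM
import Pool.Agent.Lib.MP_49ebba_an.MR.EXI
import Pool.Agent.Lib.MP_49ebba_an.MR.EXT
import Pool.Agent.Lib.MP_49ebba_an.MR.CRI
import Pool.Agent.Lib.MP_49ebba_an.MR.UBD
import Pool.Agent.Lib.MP_49ebba_an.MR.TAI
import Pool.Agent.Lib.MP_49ebba_an.MR.INN
import Pool.Agent.Lib.MP_49ebba_an.MR.NUM
import Pool.Agent.Lib.MP_49ebba_an.MR.PER
import Pool.Agent.Lib.MP_49ebba_an.MR.PRO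
import Pool.Agent.Lib.MP_49ebba_an.MR.MAX
import Pool.Agent.Lib.MP_49ebba_an.MR.FIN

namespace Pool.Agent.Lib.MP49ebba

theorem limM : SpecLIM := specLIM specBND
theorem criM : SpecCRI := specCRI specBND limM specEXI specEXT
theorem taiM : SpecTAI := specTAI (specUBD criM)
theorem innM : SpecINN := specINN specRUN limM criM taiM
theorem maxM : SpecMAX := specMAX specBND specRUN limM
theorem finM : SpecFIN := specFIN innM specNUM (specPER specBND) specPRO maxM taiM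

theorem diophM : ∀ l : ℂ, Neutral l → Lin l (31 / 100) → ∀ q : ℕ, 1 ≤ q →
    (1 / 26 : ℝ) ^ (2 ^ q - 1) ≤ ‖l ^ q - 1‖ := by
  intro l hl hlm q hq
  exact specPRO l q (1 / 26) hl.1 hq (hl.2 q (by omega)) (by norm_num)
    (fun z hz hpz => specPER specBND l _ z q hl le_rfl hlm hz hq hpz)

end Pool.Agent.Lib.MP49ebba
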