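import Pool.Agent.Lib.MP_49ebba_an.MR.Main

/-! The radius as a supremum (MP_49ebba_an). -/

namespace Pool.Agent.Lib.MP49ebba

open Metric Filter Topology

theorem lin_sSup (l : ℂ) (hl : l ≠ 0) (hl1 : ‖l‖ ≤ 1)
    (h0 : 0 < sSup {r : ℝ | 0 < r ∧ Lin l r}) (hb : BddAbove {r : ℝ | 0 < r ∧ Lin l r}) :
    Lin l (sSup {r : ℝ | 0 < r ∧ Lin l r}) := by
  have hne : {r : ℝ | 0 < r ∧ Lin l r}.Nonempty := by
    by_contra h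
    rw [Set.not_nonempty_iff_eq_empty] at h
    rw [h, Real.sSup_empty] at h0
    exact lt_irrefl _ h0
  obtain ⟨u, -, hu, hmem⟩ := exists_seq_tendsto_sSup hne hb
  exact limM (fun _ => l) u l _ hl h0 tendsto_const_nhds hu (fun k => ⟨hl1, (hmem k).2⟩)

theorem finM' : ∃ m : ℝ, 31 / 100 < m ∧
    IsGreatest ((fun l : ℂ => sSup {r : ℝ | 0 < r ∧ Lin l r}) '' {l | Neutral l}) m ∧
    ∀ l : ℂ, ‖l‖ < 1 → ∃ u : ℂ, Tendsto (uu l) atTop (𝓝 u) ∧ ‖u‖ ≤ m := by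
  obtain ⟨m, h1, h2, ⟨l0, h3, h4⟩, -, h6⟩ := finM
  have hm0 : 0 < m := lt_trans (by norm_num) h1
  refine ⟨m, h1, ⟨⟨l0, h3, ?_⟩, ?_⟩, h6⟩
  · apply le_antisymm
    · exact csSup_le ⟨m, hm0, h4⟩ (fun r hr => h2 l0 r h3 hr.2)
    · exact le_csSup ⟨m, fun r hr => h2 l0 r h3 hr.2⟩ ⟨hm0, h4⟩
  · rintro _ ⟨l, hl, rfl⟩
    show sSup {r : ℝ | 0 < r ∧ Lin l r} ≤ m
    rcases Set.eq_empty_or_nonempty {r : ℝ | 0 < r ∧ Lin l r} with h | h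
    · rw [h, Real.sSup_empty]
      exact hm0.le
    · exact csSup_le h (fun r hr => h2 l r hl hr.2)

end Pool.Agent.Lib.MP49ebba
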