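import Pool.Agent.Lib.MP_49ebba_an.MR.SpecB

/-! # Module PEK: periodic points are omitted by the linearisation -/

set_option autoImplicit false

namespace Pool.Agent.Lib.MP49ebba

open Metric Filter Topology

namespace PEKM

theorem iter {l : ℂ} {r : ℝ} {h : ℂ → ℂ} (hl : ‖l‖ = 1) (hh : IsLin l r h) (n : ℕ) :
    ∀ w ∈ ball (0 : ℂ) r, (P l)^[n] (h w) = h (l ^ n * w) := by
  induction n with
  | zero => intro w _; simp
  | succ n ih =>
    intro w hw
    have hw' : l ^ n * w ∈ ball (0 : ℂ) r := by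
      rw [mem_ball_zero_iff] at hw ⊢
      rw [norm_mul, norm_pow, hl, one_pow, one_mul]
      exact hw
    rw [Function.iterate_succ_apply', ih w hw, hh.eqn _ hw']
    congr 1
    ring

end PEKM

theorem specPEK (hKOE : SpecKOE) (hUNI : SpecUNI) : SpecPEK := by
  intro l r z q hl hr hlin hz hq hper
  obtain ⟨h, hh⟩ := hlin
  have hinj := hUNI l r h hl hh
  refine hKOE r h z hr hh.diff hinj hh.zero hh.one ?_
  intro w hw hwz
  have h1 := PEKM.iter hl.1 hh q w hw
  rw [hwz, hper, ← hwz] at h1
  have hw' : l ^ q * w ∈ ball (0 : ℂ) r := by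
    rw [mem_ball_zero_iff] at hw ⊢
    rw [norm_mul, norm_pow, hl.1, one_pow, one_mul]
    exact hw
  have h2 : w = l ^ q * w := hinj hw hw' h1
  have h3 : (l ^ q - 1) * w = 0 := by linear_combination -h2
  rcases mul_eq_zero.1 h3 with h4 | h4
  · exact hl.2 q (by omega) (by linear_combination h4)
  · rw [h4, hh.zero] at hwz
    exact hz hwz.symm

end Pool.Agent.Lib.MP49ebba
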