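import Pool.Agent.Lib.MP_49ebba_an.MR.SpecB

/-! MP_49ebba_an, module UNI: a linearisation is injective. -/

set_option autoImplicit false

namespace Pool.Agent.Lib.MP49ebba

open Metric Filter Topology

namespace UNIM

theorem iter {l : ℂ} {r : ℝ} {h : ℂ → ℂ} (hl : ‖l‖ = 1) (H : IsLin l r h) {w : ℂ}
    (hw : w ∈ ball (0 : ℂ) r) (n : ℕ) : (P l)^[n] (h w) = h (l ^ n * w) := by
  induction n with
  | zero => simp
  | succ n ih =>
    have h1 : l ^ n * w ∈ ball (0 : ℂ) r := by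
      rw [mem_ball_zero_iff] at hw ⊢
      rwa [norm_mul, norm_pow, hl, one_pow, one_mul]
    rw [Function.iterate_succ_apply', ih, H.eqn _ h1, pow_succ']
    ring_nf

theorem pow_inj {l : ℂ} (hN : Neutral l) : Function.Injective fun k : ℕ => l ^ k := by
  have hl0 : l ≠ 0 := by
    intro h0
    have := hN.1
    rw [h0, norm_zero] at this
    exact zero_ne_one this
  have key : ∀ a b : ℕ, a < b → l ^ a ≠ l ^ b := by
    intro a b hab heq
    have h2 : l ^ b = l ^ a * l ^ (b - a) := by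
      rw [← pow_add]
      congr 1
      omega
    rw [h2] at heq
    have h4 : l ^ a * 1 = l ^ a * l ^ (b - a) := by rw [mul_one]; exact heq
    exact hN.2 _ (by omega) (mul_left_cancel₀ (pow_ne_zero _ hl0) h4).symm
  intro a b hab
  rcases lt_trichotomy a b with h1 | h1 | h1
  · exact absurd hab (key a b h1)
  · exact h1
  · exact absurd hab.symm (key b a h1)

theorem comp_diff {r M : ℝ} {h : ℂ → ℂ} (hd : DifferentiableOn ℂ h (ball 0 r)) (hM : 0 < M)
    {z : ℂ} (hz : ‖z‖ ≤ M) : DifferentiableOn ℂ (fun ζ => h (ζ * z)) (ball 0 (r / M)) := by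
  refine hd.comp (differentiableOn_id.mul_const z) ?_
  intro ζ hζ
  rw [mem_ball_zero_iff] at hζ ⊢
  simp only [id, norm_mul]
  rw [lt_div_iff₀ hM] at hζ
  exact (mul_le_mul_of_nonneg_left hz (norm_nonneg _)).trans_lt hζ

theorem comp_deriv {r : ℝ} {h : ℂ → ℂ} (hr : 0 < r) (hd : DifferentiableOn ℂ h (ball 0 r))
    (h1 : deriv h 0 = 1) (z : ℂ) : HasDerivAt (fun ζ : ℂ => h (ζ * z)) z 0 := by
  have h0r : (0 : ℂ) ∈ ball (0 : ℂ) r := mem_ball_self hr
  have h2 : HasDerivAt h 1 ((0 : ℂ) * z) := by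
    rw [zero_mul, ← h1]
    exact ((hd 0 h0r).differentiableAt (isOpen_ball.mem_nhds h0r)).hasDerivAt
  have h3 : HasDerivAt (fun ζ : ℂ => ζ * z) (1 * z) 0 := (hasDerivAt_id (0 : ℂ)).mul_const z
  have h4 := h2.comp (0 : ℂ) h3
  simpa [Function.comp_def] using h4

end UNIM

open UNIM in
theorem specUNI : SpecUNI := by
  intro l r h hN H z hz w hw hzw
  by_contra hne
  have hr : 0 < r := pos_of_mem_ball hz
  set M : ℝ := max ‖z‖ ‖w‖ with hMdef
  have hzM : ‖z‖ ≤ M := le_max_left _ _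
  have hwM : ‖w‖ ≤ M := le_max_right _ _
  have hMr : M < r := max_lt (mem_ball_zero_iff.1 hz) (mem_ball_zero_iff.1 hw)
  have hM : 0 < M := by
    by_contra hcon
    have hz0 : ‖z‖ ≤ 0 := hzM.trans (not_lt.1 hcon)
    have hw0 : ‖w‖ ≤ 0 := hwM.trans (not_lt.1 hcon)
    exact hne ((norm_le_zero_iff.1 hz0).trans (norm_le_zero_iff.1 hw0).symm)
  have h1M : 1 < r / M := (one_lt_div hM).2 hMr
  have hd1 := comp_diff H.diff hM hzM
  have hd2 := comp_diff H.diff hM hwM
  have hval : ∀ k : ℕ, h (l ^ k * z) = h (l ^ k * w) := by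
    intro k
    rw [← iter hN.1 H hz, ← iter hN.1 H hw, hzw]
  have hinf : (Set.range fun k : ℕ => l ^ k).Infinite :=
    Set.infinite_range_of_injective (pow_inj hN)
  have hsub : (Set.range fun k : ℕ => l ^ k) ⊆ closedBall 0 1 := by
    rintro _ ⟨k, rfl⟩
    rw [mem_closedBall_zero_iff]
    simp only [norm_pow, hN.1, one_pow]
    exact le_refl _
  obtain ⟨a, ha, hacc⟩ := hinf.exists_accPt_of_subset_isCompact (isCompact_closedBall _ _) hsub
  have ha' : a ∈ ball (0 : ℂ) (r / M) := by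
    rw [mem_closedBall_zero_iff] at ha
    rw [mem_ball_zero_iff]
    exact ha.trans_lt h1M
  rw [accPt_iff_frequently_nhdsNE] at hacc
  have hfreq : ∃ᶠ y in 𝓝[≠] a, (fun ζ => h (ζ * z)) y = (fun ζ => h (ζ * w)) y := by
    refine hacc.mono ?_
    rintro y ⟨k, rfl⟩
    exact hval k
  have heq := (hd1.analyticOnNhd isOpen_ball).eqOn_of_preconnected_of_frequently_eq
    (hd2.analyticOnNhd isOpen_ball) (convex_ball (0 : ℂ) (r / M)).isPreconnected ha' hfreq
  have hball : ball (0 : ℂ) (r / M) ∈ 𝓝 (0 : ℂ) := ball_mem_nhds _ (by linarith)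
  have hev : (fun ζ => h (ζ * z)) =ᶠ[𝓝 (0 : ℂ)] (fun ζ => h (ζ * w)) :=
    Filter.eventually_of_mem hball fun y hy => heq hy
  have hA := comp_deriv hr H.diff H.one z
  have hB := comp_deriv hr H.diff H.one w
  have hC := hB.congr_of_eventuallyEq hev
  exact hne (hA.unique hC)

end Pool.Agent.Lib.MP49ebba
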