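import Pool.Agent.Lib.MP_49ebba_an.MR.SpecB
import Pool.Agent.Lib.MP_250511_an.INV

/-!
# Module UPO of `MR/SpecB.lean` (MP_49ebba_an): `R(l) ≤ 1`
-/

set_option autoImplicit false

namespace Pool.Agent.Lib.MP49ebba

open Metric Filter Topology

theorem specUPO (hBIE : SpecBIE) (hUNI : SpecUNI) : SpecUPO := by
  intro l r hl hlin
  obtain ⟨h, hh⟩ := hlin
  by_cases hr : r ≤ 0
  · linarith
  push Not at hr
  have hl1 := hl.1
  have hl0 : l ≠ 0 := by
    intro h0
    rw [h0, norm_zero] at hl1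
    exact zero_ne_one hl1
  have hinj := hUNI l r h hl hh
  have h0mem : (0 : ℂ) ∈ ball (0 : ℂ) r := mem_ball_self hr
  have hlmem : ∀ w : ℂ, w ∈ ball (0 : ℂ) r → l * w ∈ ball (0 : ℂ) r := by
    intro w hw
    rw [mem_ball_zero_iff] at hw ⊢
    rw [norm_mul, hl1, one_mul]
    exact hw
  have hrc : (r : ℂ) ≠ 0 := by exact_mod_cast hr.ne'
  have hrmem : ∀ z : ℂ, z ∈ ball (0 : ℂ) 1 → (r : ℂ) * z ∈ ball (0 : ℂ) r := by
    intro z hz
    rw [mem_ball_zero_iff] at hz ⊢
    rw [norm_mul, Complex.norm_real, Real.norm_of_nonneg hr.le]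
    nlinarith
  have hlmem1 : ∀ w : ℂ, w ∈ ball (0 : ℂ) 1 → l * w ∈ ball (0 : ℂ) 1 := by
    intro w hw
    rw [mem_ball_zero_iff] at hw ⊢
    rw [norm_mul, hl1, one_mul]
    exact hw
  -- the value -1 is omitted
  have hom : ∀ w ∈ ball (0 : ℂ) r, 1 + h w ≠ 0 := by
    intro w hw h1
    have h2 : h w = -1 := by linear_combination h1
    have h3 := hh.eqn w hw
    rw [h2] at h3
    have h4 : h (l * w) = h 0 := by
      rw [← h3, hh.zero]
      unfold P
      ring
    have h5 := hinj (hlmem w hw) h0mem h4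
    have h6 : w = 0 := by
      rcases mul_eq_zero.1 h5 with h7 | h7
      · exact absurd h7 hl0
      · exact h7
    rw [h6, hh.zero] at h2
    norm_num at h2
  have hdiff : ∀ w ∈ ball (0 : ℂ) r, HasDerivAt h (deriv h w) w := fun w hw =>
    (hh.diff.differentiableAt (isOpen_ball.mem_nhds hw)).hasDerivAt
  -- the rescaled function
  set G : ℂ → ℂ := fun z => h ((r : ℂ) * z) with hG
  have hGd : ∀ z ∈ ball (0 : ℂ) 1, HasDerivAt G (deriv h ((r : ℂ) * z) * r) z := by
    intro z hz
    have h1 := hdiff _ (hrmem z hz)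
    have h2 : HasDerivAt (fun y : ℂ => (r : ℂ) * y) (r : ℂ) z := by
      simpa using (hasDerivAt_id z).const_mul (r : ℂ)
    exact h1.comp z h2
  have hGdiff : DifferentiableOn ℂ G (ball 0 1) := fun z hz =>
    (hGd z hz).differentiableAt.differentiableWithinAt
  have hGinj : Set.InjOn G (ball 0 1) := by
    intro z hz w hw hzw
    have h1 := hinj (hrmem z hz) (hrmem w hw) hzw
    exact mul_left_cancel₀ hrc h1
  have hGne : ∀ z ∈ ball (0 : ℂ) 1, deriv G z ≠ 0 :=
    (Pool.Agent.Lib.MP250511.specINV G (hGdiff.analyticOnNhd isOpen_ball) hGinj).1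
  have hG1 : ∀ z ∈ ball (0 : ℂ) 1, 1 + G z ≠ 0 := fun z hz => hom _ (hrmem z hz)
  have hG0 : G 0 = 0 := by
    simp only [hG, mul_zero]
    exact hh.zero
  -- the function of Bieberbach and Eilenberg
  set Y : ℂ → ℂ := fun z => G z / (1 + G z) with hY
  have hYd : ∀ z ∈ ball (0 : ℂ) 1, HasDerivAt Y
      ((deriv h ((r : ℂ) * z) * r * (1 + G z) - G z * (deriv h ((r : ℂ) * z) * r)) / (1 + G z) ^ 2) z := by
    intro z hz
    exact (hGd z hz).div ((hGd z hz).const_add 1) (hG1 z hz)
  have hYdiff : DifferentiableOn ℂ Y (ball 0 1) := fun z hz =>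
    (hYd z hz).differentiableAt.differentiableWithinAt
  have hYinj : Set.InjOn Y (ball 0 1) := by
    intro z hz w hw hzw
    apply hGinj hz hw
    simp only [hY] at hzw
    rw [div_eq_div_iff (hG1 z hz) (hG1 w hw)] at hzw
    linear_combination hzw
  have hY0 : Y 0 = 0 := by
    simp only [hY, hG0, zero_div]
  have hz0 : (0 : ℂ) ∈ ball (0 : ℂ) 1 := mem_ball_self one_pos
  have hYder : deriv Y 0 = (r : ℂ) := by
    rw [(hYd 0 hz0).deriv, hG0, mul_zero, hh.one]
    simp
  have hprod : ∀ z ∈ ball (0 : ℂ) 1, ∀ w ∈ ball (0 : ℂ) 1, Y z * Y w ≠ 1 := by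
    intro z hz w hw hzw
    simp only [hY] at hzw
    have a1 := hG1 z hz
    have b1 := hG1 w hw
    rw [div_mul_div_comm, div_eq_one_iff_eq (mul_ne_zero a1 b1)] at hzw
    have hab : G z + G w = -1 := by linear_combination -hzw
    have e1 := hh.eqn _ (hrmem z hz)
    have e2 := hh.eqn _ (hrmem w hw)
    have e3 : P l (G z) = P l (G w) := by
      unfold P
      linear_combination (l * (G z - G w)) * hab
    have e4 : h (l * ((r : ℂ) * z)) = h (l * ((r : ℂ) * w)) := by
      rw [← e1, ← e2]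
      exact e3
    have e5 := hinj (hlmem _ (hrmem z hz)) (hlmem _ (hrmem w hw)) e4
    have e6 : z = w := mul_left_cancel₀ hrc (mul_left_cancel₀ hl0 e5)
    have e7 : 1 + 2 * G z = 0 := by
      rw [← e6] at hab
      linear_combination hab
    -- differentiate the equation
    set p : ℂ := (r : ℂ) * z with hp
    have hpm : p ∈ ball (0 : ℂ) r := hrmem z hz
    have d1 : HasDerivAt (fun y => P l (h y)) (l * (deriv h p + 2 * h p * deriv h p)) p := by
      have d2 := hdiff p hpm
      have d3 := ((d2.add (d2.pow 2)).const_mul l)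
      have d4 : l * (deriv h p + ((2 : ℕ) : ℂ) * h p ^ (2 - 1) * deriv h p)
          = l * (deriv h p + 2 * h p * deriv h p) := by norm_num
      rw [d4] at d3
      exact d3
    have d5 : HasDerivAt (fun y => h (l * y)) (deriv h (l * p) * l) p := by
      have d6 := hdiff _ (hlmem p hpm)
      have d7 : HasDerivAt (fun y : ℂ => l * y) l p := by
        simpa using (hasDerivAt_id p).const_mul l
      exact d6.comp p d7
    have d8 : (fun y => P l (h y)) =ᶠ[𝓝 p] fun y => h (l * y) := by
      filter_upwards [isOpen_ball.mem_nhds hpm] with y hy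
      exact hh.eqn y hy
    have d9 : HasDerivAt (fun y => h (l * y)) (l * (deriv h p + 2 * h p * deriv h p)) p :=
      d1.congr_of_eventuallyEq d8.symm
    have d10 := d9.unique d5
    have d11 : l * (deriv h p + 2 * h p * deriv h p) = 0 := by
      have e8 : (1 : ℂ) + 2 * h p = 0 := e7
      linear_combination (l * deriv h p) * e8
    rw [d11] at d10
    have d12 : deriv h (l * p) = 0 := by
      rcases mul_eq_zero.1 d10.symm with h7 | h7
      · exact h7
      · exact absurd h7 hl0
    apply hGne (l * z) (hlmem1 z hz)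
    rw [(hGd (l * z) (hlmem1 z hz)).deriv]
    have d13 : (r : ℂ) * (l * z) = l * p := by
      rw [hp]
      ring
    rw [d13, d12, zero_mul]
  have hfin := hBIE Y (hYdiff.analyticOnNhd isOpen_ball) hYinj hY0 hprod
  rw [hYder, Complex.norm_real, Real.norm_of_nonneg hr.le] at hfin
  exact hfin

end Pool.Agent.Lib.MP49ebba
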