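import Pool.Agent.Lib.MP_49ebba_an.MR.MainC
import Pool.Agent.Lib.MP_49ebba_an.MR.BIE
import Pool.Agent.Lib.MP_49ebba_an.MR.KOE
import Pool.Agent.Lib.MP_49ebba_an.MR.UNI
import Pool.Agent.Lib.MP_49ebba_an.MR.UPO
import Pool.Agent.Lib.MP_49ebba_an.MR.PEK

/-! Assembly of part B (MP_49ebba_an). -/

namespace Pool.Agent.Lib.MP49ebba

open Metric Filter Topology

theorem upoM : SpecUPO := specUPO specBIE specUNI

theorem pekM : SpecPEK := specPEK (specKOE specBIE) specUNI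

theorem sSup_le_one (l : ℂ) (hl : Neutral l) : sSup {r : ℝ | 0 < r ∧ Lin l r} ≤ 1 := by
  rcases Set.eq_empty_or_nonempty {r : ℝ | 0 < r ∧ Lin l r} with h | h
  · rw [h, Real.sSup_empty]
    exact zero_le_one
  · exact csSup_le h (fun r hr => upoM l r hl hr.2)

theorem dioph_sSup (l : ℂ) (hl : Neutral l) (q : ℕ) (hq : 1 ≤ q) :
    (sSup {r : ℝ | 0 < r ∧ Lin l r} / 4) ^ (2 ^ q - 1) ≤ ‖l ^ q - 1‖ := by
  have hq2 : 2 ^ q - 1 ≠ 0 := by
    have : 2 ^ 1 ≤ 2 ^ q := Nat.pow_le_pow_right (by norm_num) hq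
    omega
  have hb : BddAbove {r : ℝ | 0 < r ∧ Lin l r} := ⟨1, fun r hr => upoM l r hl hr.2⟩
  have h0 : 0 ≤ sSup {r : ℝ | 0 < r ∧ Lin l r} := Real.sSup_nonneg (fun r hr => hr.1.le)
  rcases h0.eq_or_lt with h | h
  · rw [← h, zero_div, zero_pow hq2]
    exact norm_nonneg _
  · have hl0 : l ≠ 0 := by
      rintro rfl
      have := hl.1
      simp at this
    have hlin := lin_sSup l hl0 hl.1.le h hb
    exact specPRO l q _ hl.1 hq (hl.2 q (by omega)) (by positivity)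
      (fun z hz hpz => pekM l _ z q hl h hlin hz hq hpz)

end Pool.Agent.Lib.MP49ebba
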