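import Pool.Agent.Lib.MP_49ebba_an.MR.Spec

/-!
# Module PRO: the product of the periodic points
-/

namespace Pool.Agent.Lib.MP49ebba

open Metric Filter Topology

namespace PROM

open Polynomial

/-- the iterates of `P l` as polynomials -/
noncomputable def Q (l : ℂ) : ℕ → ℂ[X]
  | 0 => X
  | k + 1 => C l * (Q l k + Q l k ^ 2)

theorem eval_Q (l z : ℂ) : ∀ k : ℕ, (Q l k).eval z = (MP49ebba.P l)^[k] z
  | 0 => by simp [Q]
  | k + 1 => by
    rw [Function.iterate_succ_apply', ← eval_Q l z k]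
    simp [Q, MP49ebba.P]

theorem degree_Q {l : ℂ} (hl : ‖l‖ = 1) : ∀ k : ℕ,
    (Q l k).natDegree = 2 ^ k ∧ ‖(Q l k).leadingCoeff‖ = 1
  | 0 => by simp [Q]
  | k + 1 => by
    obtain ⟨h1, h2⟩ := degree_Q hl k
    have hl0 : l ≠ 0 := by
      intro h
      rw [h, norm_zero] at hl
      exact zero_ne_one hl
    have h3 : (Q l k ^ 2).natDegree = 2 * 2 ^ k := by
      rw [natDegree_pow, h1]
    have h4 : (Q l k).natDegree < (Q l k ^ 2).natDegree := by
      rw [h3, h1]
      have : 0 < 2 ^ k := by positivity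
      omega
    have h5 : (Q l k + Q l k ^ 2).natDegree = 2 * 2 ^ k := by
      rw [natDegree_add_eq_right_of_natDegree_lt h4, h3]
    have h6 : (Q l k + Q l k ^ 2).leadingCoeff = (Q l k ^ 2).leadingCoeff :=
      leadingCoeff_add_of_degree_lt (degree_lt_degree h4)
    refine ⟨?_, ?_⟩
    · show (C l * (Q l k + Q l k ^ 2)).natDegree = 2 ^ (k + 1)
      rw [natDegree_C_mul hl0, h5, pow_succ]
      ring
    · show ‖(C l * (Q l k + Q l k ^ 2)).leadingCoeff‖ = 1
      rw [leadingCoeff_mul, leadingCoeff_C, h6, leadingCoeff_pow, norm_mul, norm_pow, hl, h2]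
      norm_num

theorem coeff_Q (l : ℂ) : ∀ k : ℕ, (Q l k).coeff 0 = 0 ∧ (Q l k).coeff 1 = l ^ k
  | 0 => by simp [Q]
  | k + 1 => by
    obtain ⟨h1, h2⟩ := coeff_Q l k
    have h3 : (Q l k ^ 2).coeff 1 = 0 := by
      rw [pow_two, coeff_mul, Finset.sum_eq_zero]
      intro x hx
      have hx2 : x.1 + x.2 = 1 := Finset.HasAntidiagonal.mem_antidiagonal.1 hx
      rcases Nat.eq_zero_or_pos x.1 with h | h
      · rw [h, h1, zero_mul]
      · have h4 : x.2 = 0 := by omega
        rw [h4, h1, mul_zero]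
    refine ⟨?_, ?_⟩
    · show (C l * (Q l k + Q l k ^ 2)).coeff 0 = 0
      rw [coeff_C_mul, coeff_add, pow_two, mul_coeff_zero, h1]
      ring
    · show (C l * (Q l k + Q l k ^ 2)).coeff 1 = l ^ (k + 1)
      rw [coeff_C_mul, coeff_add, h3, h2, pow_succ]
      ring

theorem prod_bound (c : ℝ) (hc : 0 ≤ c) (s : Multiset ℂ) :
    (∀ z ∈ s, c ≤ ‖z‖) → c ^ s.card ≤ ‖s.prod‖ := by
  induction s using Multiset.induction_on with
  | empty => intro _; simp
  | cons a s ih =>
    intro h
    rw [Multiset.card_cons, Multiset.prod_cons, norm_mul, pow_succ, mul_comm]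
    exact mul_le_mul (h a (Multiset.mem_cons_self a s))
      (ih fun z hz => h z (Multiset.mem_cons_of_mem hz)) (pow_nonneg hc _) (norm_nonneg _)

end PROM

open PROM in
theorem specPRO : SpecPRO := by
  intro l q c hl hq hlq hc hz
  obtain ⟨hd, hlc⟩ := degree_Q hl q
  obtain ⟨hc0, hc1⟩ := coeff_Q l q
  set R : Polynomial ℂ := Q l q - Polynomial.X with hR
  have h2q : 2 ≤ 2 ^ q := by
    calc 2 = 2 ^ 1 := by norm_num
      _ ≤ 2 ^ q := Nat.pow_le_pow_right (by norm_num) hq
  have hlt : (Polynomial.X : Polynomial ℂ).natDegree < (Q l q).natDegree := by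
    rw [Polynomial.natDegree_X, hd]
    omega
  have hRd : R.natDegree = 2 ^ q := by
    rw [hR, Polynomial.natDegree_sub_eq_left_of_natDegree_lt hlt, hd]
  have hRl : R.leadingCoeff = (Q l q).leadingCoeff := by
    rw [hR]
    exact Polynomial.leadingCoeff_sub_of_degree_lt (Polynomial.degree_lt_degree hlt)
  have hR0 : R.coeff 0 = 0 := by
    rw [hR, Polynomial.coeff_sub, hc0, Polynomial.coeff_X_zero, sub_zero]
  have hR1 : R.coeff 1 = l ^ q - 1 := by
    rw [hR, Polynomial.coeff_sub, hc1, Polynomial.coeff_X_one]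
  have hdiv : R.divX * Polynomial.X = R := by
    have h := Polynomial.divX_mul_X_add R
    rw [hR0, Polynomial.C_0, add_zero] at h
    exact h
  have hSd : R.divX.natDegree = 2 ^ q - 1 := by
    rw [Polynomial.natDegree_divX_eq_natDegree_tsub_one, hRd]
  have hSl : ‖R.divX.leadingCoeff‖ = 1 := by
    rw [Polynomial.leadingCoeff, hSd, Polynomial.coeff_divX]
    have h1 : 2 ^ q - 1 + 1 = R.natDegree := by rw [hRd]; omega
    rw [h1]
    show ‖R.leadingCoeff‖ = 1
    rw [hRl, hlc]
  have hS0 : R.divX.coeff 0 = l ^ q - 1 := by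
    rw [Polynomial.coeff_divX, zero_add, hR1]
  have hsp : R.divX.Splits := IsAlgClosed.splits _
  have hcard : R.divX.roots.card = 2 ^ q - 1 := by
    rw [← hSd]
    exact hsp.natDegree_eq_card_roots.symm
  have hroots : ∀ z ∈ R.divX.roots, c ≤ ‖z‖ := by
    intro z hzr
    have hzr' : R.divX.eval z = 0 := (Polynomial.mem_roots'.1 hzr).2
    apply hz
    · rintro rfl
      apply hlq
      rw [← Polynomial.coeff_zero_eq_eval_zero, hS0] at hzr'
      linear_combination hzr'
    · have h1 : R.eval z = 0 := by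
        rw [← hdiv, Polynomial.eval_mul, hzr', zero_mul]
      rw [hR, Polynomial.eval_sub, Polynomial.eval_X, eval_Q] at h1
      linear_combination h1
  have hprod := prod_bound c hc R.divX.roots hroots
  rw [hcard] at hprod
  have hco := hsp.coeff_zero_eq_leadingCoeff_mul_prod_roots
  rw [hS0] at hco
  have hn : ‖l ^ q - 1‖ = ‖R.divX.roots.prod‖ := by
    rw [hco]
    simp only [norm_mul, norm_pow, norm_neg, norm_one, one_pow, hSl, one_mul]
  rw [hn]
  exact hprod

end Pool.Agent.Lib.MP49ebba
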