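import Mathlib

/-!
# MR: the maximal linearisation radius of the quadratic family (MP_49ebba_an, Q1)

THEOREM. There is a real `m > 31/100` which is the greatest radius `r` such that `P_l(z) = l (z + z^2)`
is linearisable on the disc of radius `r` for some `l` of modulus one which is not a root of unity (so
the supremum `m` of the problem is ATTAINED); if `R(l) = m` then `|l^q - 1| >= (1/26)^(2^q - 1)` for
all `q >= 1`; and `m >= |u(l)|` for all `|l| < 1`, where `u(l)` is the limit of the polynomials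
`u_0 = -1/2`, `u_(n+1) = u_n + l^n u_n^2`.

HIVE. Module XXX = file MR/XXX.lean, imports ONLY this file (`Pool.Agent.Lib.MP_49ebba_an.MR.Spec`),
namespace `Pool.Agent.Lib.MP49ebba`, theorem `specXXX (hYYY : SpecYYY) ... : SpecXXX` (the hypotheses
in the order of USES), own lemmas in the namespace `Pool.Agent.Lib.MP49ebba.XXXM`. Claim in the table
mrl_modules, status done when on main (git land). Complete proofs are in the docstrings. -/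

namespace Pool.Agent.Lib.MP49ebba

open Metric Filter Topology

/-- The quadratic polynomial with multiplier `l` at `0`. -/
def P (l z : ℂ) : ℂ := l * (z + z ^ 2)

/-- `h` linearises `P l` on the disc of radius `r`. -/
structure IsLin (l : ℂ) (r : ℝ) (h : ℂ → ℂ) : Prop where
  diff : DifferentiableOn ℂ h (ball 0 r)
  zero : h 0 = 0
  one : deriv h 0 = 1
  eqn : ∀ z ∈ ball (0 : ℂ) r, P l (h z) = h (l * z)

/-- `P l` is linearisable on the disc of radius `r`, that is, `r ≤ R(l)`. -/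
def Lin (l : ℂ) (r : ℝ) : Prop := ∃ h : ℂ → ℂ, IsLin l r h

/-- Modulus one, not a root of unity. -/
def Neutral (l : ℂ) : Prop := ‖l‖ = 1 ∧ ∀ n : ℕ, 0 < n → l ^ n ≠ 1

/-- The polynomials `u_n` in `l`. One has `(P l)^[n] (-1/2) = l^n * uu l n` (induction). -/
noncomputable def uu (l : ℂ) : ℕ → ℂ
  | 0 => -1 / 2
  | n + 1 => uu l n + l ^ n * uu l n ^ 2

/-- BND (50 lines). PROOF. Let `w = h z`. By induction `(P l)^[n] (h z) = h (l^n z)` (all `l^n z` are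
in the ball, as `‖l‖ ≤ 1`). `h` is continuous on the compact set `closedBall 0 ‖z‖ ⊆ ball 0 r`, so
bounded there by some `B`, so `‖(P l)^[n] w‖ ≤ B` for all `n`. Suppose `‖w‖ > 1 + 1/‖l‖`, and let
`κ = ‖l‖ (‖w‖ - 1) > 1`. If `‖v‖ ≥ ‖w‖`, then `‖P l v‖ = ‖l‖ ‖v‖ ‖1 + v‖ ≥ ‖l‖ ‖v‖ (‖v‖ - 1) ≥ κ ‖v‖`,
so `‖(P l)^[n] w‖ ≥ κ^n ‖w‖` by induction, which is unbounded. -/
def SpecBND : Prop :=
  ∀ (l : ℂ) (r : ℝ) (h : ℂ → ℂ), 0 < ‖l‖ → ‖l‖ ≤ 1 → IsLin l r h →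
    ∀ z ∈ ball (0 : ℂ) r, ‖h z‖ ≤ 1 + 1 / ‖l‖

/-- RUN (80 lines). PROOF. Suppose `l^n = 1`, `n > 0`. For `z` in the ball
`(P l)^[n] (h z) = h (l^n z) = h z` (induction, `‖l‖ = 1`). The map `(P l)^[n]` is given by a
polynomial: `Q 0 = X`, `Q (k+1) = C l * (Q k + Q k ^ 2)`, of degree `2^k` (`l ≠ 0`), so `Q n - X` has
degree `2^n ≥ 2`, is not zero and has finitely many roots. So `h` maps the ball (a connected set) into
a finite set; `h` is continuous, hence constant on the ball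
(e.g. `IsPreconnected.image`, `Set.Finite` + `IsPreconnected.subsingleton`-type lemmas for totally
disconnected sets, `Set.Finite.isTotallyDisconnected`), so `deriv h 0 = 0`, a contradiction. -/
def SpecRUN : Prop :=
  ∀ (l : ℂ) (r : ℝ), ‖l‖ = 1 → 0 < r → Lin l r → ∀ n : ℕ, 0 < n → l ^ n ≠ 1

/-- LIM (150 lines, uses BND). PROOF. Drop finitely many `k`, so that `r0/2 < r k`, `‖l k‖ > ‖l0‖/2`;
let `M = 1 + 2/‖l0‖`. Let `h k` be the linearisation; by BND `‖h k z‖ ≤ M` on `ball 0 (r k)`. Let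
`a k n` be the Taylor coefficients, `a k n = iteratedDeriv n (h k) 0 / n!`; Cauchy's estimate on the
circles of radius `s < r k` and `s → r k` give `‖a k n‖ (r k)^n ≤ M`, so `‖a k n‖ ≤ M (2/r0)^n`; and
`h k z = ∑ a k n z^n` for `‖z‖ < r k` (`Complex.hasSum_taylorSeries_on_ball`). The set of the
sequences `b` with `‖b n‖ ≤ M (2/r0)^n` for all `n` is compact (`isCompact_univ_pi`) in the metrizable
space `ℕ → ℂ`, so after passing to a subsequence (`IsCompact.tendsto_subseq`) `a k n → b n` for every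
`n`. Then `‖b n‖ r0^n ≤ M` (limit of `‖a k n‖ (r k)^n ≤ M`). Let `H z = ∑' b n z^n`, analytic on
`ball 0 r0` (e.g. `differentiableOn_tsum_of_summable_norm` on smaller balls, or `HasFPowerSeriesOnBall`),
`H 0 = b 0 = lim a k 0 = 0`, `deriv H 0 = b 1 = lim a k 1 = 1`. For `‖z‖ < s < r0`, and `k` with
`s < r k`: `‖a k n z^n‖ ≤ M (‖z‖/s)^n`, summable, so by dominated convergence
(`tendsto_tsum_of_dominated_convergence`) `h k z → H z`, and in the same way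
`h k (l k z) = ∑ a k n (l k)^n z^n → ∑ b n l0^n z^n = H (l0 z)` (`‖l k‖ ≤ 1`, `‖l0‖ ≤ 1`). Pass to the
limit in `P (l k) (h k z) = h k (l k z)`. -/
def SpecLIM : Prop :=
  ∀ (l : ℕ → ℂ) (r : ℕ → ℝ) (l0 : ℂ) (r0 : ℝ), l0 ≠ 0 → 0 < r0 →
    Tendsto l atTop (𝓝 l0) → Tendsto r atTop (𝓝 r0) →
    (∀ k, ‖l k‖ ≤ 1 ∧ Lin (l k) (r k)) → Lin l0 r0

/-- EXI (120 lines). PROOF (Koenigs). Choose `ρ > 0` with `‖l‖ (1 + ρ)^2 < 1`; `μ = ‖l‖ (1 + ρ) < 1`,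
`θ = μ^2/‖l‖ < 1`. On `ball 0 ρ`: `‖P l z‖ ≤ μ ‖z‖`, so `‖(P l)^[n] z‖ ≤ μ^n ‖z‖`. Let
`φ_n z = l^(-n) (P l)^[n] z`. Then `φ_(n+1) z - φ_n z = l^(-n) ((P l)^[n] z)^2`, of norm
`≤ θ^n ‖z‖^2`, so `φ_n` converges uniformly on `ball 0 ρ` to an analytic `φ` with
`‖φ z - z‖ ≤ ‖z‖^2/(1 - θ)`, so `φ 0 = 0`, `deriv φ 0 = 1`, and `φ (P l z) = l φ z` (limit of
`φ_n (P l z) = l φ_(n+1) z`). Let `h` be the local inverse of `φ` at `0` (inverse function theorem,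
`HasStrictDerivAt`; `h` is differentiable near `0`, `h 0 = 0`, `deriv h 0 = 1`, `φ (h z) = z` and
`h (φ z) = z` near `0`). For small `z`: `φ (P l (h z)) = l φ (h z) = l z`, and `P l (h z)` is near `0`,
so `P l (h z) = h (φ (P l (h z))) = h (l z)`.
(Or: the coefficients `a_n (l^(n-1) - 1) = ∑ a_i a_(n-i)` are at most `A^n/(n+1)^2`, as
`‖l^(n-1) - 1‖ ≥ 1 - ‖l‖`.) -/
def SpecEXI : Prop :=
  ∀ l : ℂ, 0 < ‖l‖ → ‖l‖ < 1 → ∃ r : ℝ, 0 < r ∧ Lin l r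

/-- EXT (120 lines). PROOF. `G z = 1 + 4 h (l z)/l` is analytic on `ball 0 (r/‖l‖)`, which contains
`closedBall 0 r`; it has no zero on this compact set, so it has no zero on `ball 0 r'` for some `r'`,
`r < r' < r/‖l‖` (otherwise take zeros `z_k` with `‖z_k‖ < r + 1/k` and a limit point; or: `‖G‖` has a
positive minimum on the compact set, use a thickening). On the ball `ball 0 r'` there is an analytic
`s` with `s^2 = G`, `s 0 = 1` (`G 0 = 1`; e.g. a primitive `L` of `G'/G` on the ball with `L 0 = 0`,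
`exp L = G`, `s = exp (L/2)`). On `ball 0 r`: `(1 + 2 h z)^2 = 1 + 4 (h z + (h z)^2) =
1 + 4 P l (h z)/l = G z = s z ^ 2`, so `(1 + 2 h - s)(1 + 2 h + s) = 0`; `s` has no zero, so
`(1 + 2 h)/s` is continuous with values in `{1, -1}` on a connected set and equal to `1` at `0`: so
`s = 1 + 2 h` on `ball 0 r`. Let `H = (s - 1)/2` on `ball 0 r'`; `H = h` on `ball 0 r` (so
`H 0 = 0`, `deriv H 0 = 1`). For `z ∈ ball 0 r'`: `P l (H z) = l (H + H^2) = l (s^2 - 1)/4 = h (l z) =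
H (l z)`, as `‖l z‖ < ‖l‖ r' < r`. -/
def SpecEXT : Prop :=
  ∀ (l : ℂ) (r : ℝ) (h : ℂ → ℂ), 0 < ‖l‖ → ‖l‖ < 1 → 0 < r → IsLin l r h →
    (∀ z : ℂ, ‖z‖ ≤ r → 1 + 4 * h (l * z) / l ≠ 0) → ∃ r' : ℝ, r < r' ∧ Lin l r'

/-- CRI (130 lines, uses BND, LIM, EXI, EXT). PROOF. Let `S = {r | 0 < r ∧ Lin l r}`: not empty (EXI),
and bounded: by BND and Cauchy's estimate for the derivative at `0` on the circle of radius `s < r`,
`1 ≤ (1 + 1/‖l‖)/s`, so `r ≤ 1 + 1/‖l‖`. Let `ρ = sSup S > 0`; there are `r_k ∈ S` with `r_k → ρ`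
(`exists_seq_tendsto_sSup`), so `Lin l ρ` by LIM (constant sequence `l`); let `h` be a linearisation
on `ball 0 ρ`. By EXT (no `r' > ρ` is in `S`) there is `z0`, `‖z0‖ ≤ ρ`, with
`1 + 4 h (l z0)/l = 0`, so `h (l z0) = -l/4 = P l (-1/2)`. `z0 ≠ 0`, since `h 0 = 0`. `Lin l ‖z0‖`:
restrict `h`. For `n ≥ 1`, `(P l)^[n] (-1/2) = (P l)^[n-1] (h (l z0)) = h (l^n z0)`, and
`(P l)^[n] (-1/2) = l^n uu l n` (induction: `P l (l^n u) = l^(n+1) (u + l^n u^2)`), so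
`uu l n = h (l^n z0)/l^n = z0 * (h (l^n z0)/(l^n z0)) → z0 * deriv h 0 = z0` (`l^n z0 → 0`,
`≠ 0`). The bound: by the Schwarz lemma for `h` on `ball 0 ‖z0‖`, `h 0 = 0`, `‖h‖ ≤ 1 + 1/‖l‖` (BND):
`‖h w‖ ≤ (1 + 1/‖l‖) ‖w‖/‖z0‖` for `‖w‖ < ‖z0‖` (e.g.
`Complex.dist_le_div_mul_dist_of_mapsTo_ball` with radii `R₂` larger than `1 + 1/‖l‖` and a limit, or
its closed ball version); apply it to `w = l^n z0`. -/
def SpecCRI : Prop :=
  ∀ l : ℂ, 0 < ‖l‖ → ‖l‖ < 1 → ∃ z0 : ℂ, z0 ≠ 0 ∧ Lin l ‖z0‖ ∧ Tendsto (uu l) atTop (𝓝 z0) ∧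
    ∀ n : ℕ, 1 ≤ n → ‖uu l n‖ ≤ 1 + 1 / ‖l‖

/-- UBD (60 lines, uses CRI). PROOF. `n = 0` is clear. Let `n ≥ 1`. `l ↦ uu l n` is a polynomial
function, so differentiable (induction). For `‖l‖ < r < 1` the maximum principle on `closedBall 0 r`
(`Complex.norm_le_of_forall_mem_frontier_norm_le`) and CRI on the circle of radius `r` give
`‖uu l n‖ ≤ 1 + 1/r`. Let `r → 1`. -/
def SpecUBD : Prop := ∀ (l : ℂ) (n : ℕ), ‖l‖ < 1 → ‖uu l n‖ ≤ 2

/-- TAI (40 lines, uses UBD). PROOF. `‖uu l (j+1) - uu l j‖ = ‖l‖^j ‖uu l j‖^2 ≤ 4 ‖l‖^j`; sum the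
geometric series (induction on `k` with the bound `4 (‖l‖^n - ‖l‖^(n+k))/(1 - ‖l‖)`). -/
def SpecTAI : Prop :=
  ∀ (l : ℂ) (n k : ℕ), ‖l‖ < 1 → ‖uu l (n + k) - uu l n‖ ≤ 4 * ‖l‖ ^ n / (1 - ‖l‖)

/-- INN (130 lines, uses RUN, LIM, CRI, TAI). PROOF. For `k` large (so that `r_k = 1 - 1/(k+2) > ‖l0‖`)
choose `N ≥ n` with `4 r_k^N/(1 - r_k) ≤ c/(k+2)`. By the maximum principle for the polynomial
function `uu · N` on `closedBall 0 r_k` there is `l_k` with `‖l_k‖ = r_k` and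
`‖uu l_k N‖ ≥ ‖uu l0 N‖ ≥ ‖uu l0 n‖ - 4 ‖l0‖^n/(1 - ‖l0‖) ≥ c` (TAI; the circle is compact, take
the maximum of the continuous function on it). By CRI for `l_k`: `uu l_k j → z_k`, and by TAI (let
`j → ∞`) `‖z_k‖ ≥ c - c/(k+2) =: c_k > 0`; `Lin l_k ‖z_k‖`, hence `Lin l_k c_k` (restriction to a
smaller ball). A subsequence of `l_k` converges to some `l` with `‖l‖ = 1` (compactness), `c_k → c`,
so `Lin l c` by LIM; `l` is not a root of unity by RUN. -/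
def SpecINN : Prop :=
  ∀ (l0 : ℂ) (n : ℕ) (c : ℝ), ‖l0‖ < 1 → 0 < c → c ≤ ‖uu l0 n‖ - 4 * ‖l0‖ ^ n / (1 - ‖l0‖) →
    ∃ l : ℂ, Neutral l ∧ Lin l c

/-- NUM (120 lines; captain). A numerical verification. -/
def SpecNUM : Prop :=
  ∃ (l0 : ℂ) (n : ℕ), ‖l0‖ < 1 ∧ 31 / 100 < ‖uu l0 n‖ - 4 * ‖l0‖ ^ n / (1 - ‖l0‖)

/-- PER (150 lines, uses BND). PROOF. Let `h` be a linearisation on `ball 0 r`. CLAIM: `z` is not in
`h (ball 0 r)`. Suppose `z = h w`; `w ≠ 0` as `z ≠ 0 = h 0`. Then `h (l^(q k) w) = (P l)^[q k] (h w)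
= z` for all `k`. The points `l^(q k) w` are pairwise different (`l` is not a root of unity) and lie
on the circle of radius `‖w‖ < r`, which is compact, so they have an accumulation point `a` in
`ball 0 r` (`Set.Infinite.exists_accPt_of_subset_isCompact`), and by the identity theorem
(`AnalyticOnNhd.eqOn_of_preconnected_of_frequently_eq`) `h` is constant `z` on the ball, a
contradiction to `h 0 = 0`. Now let `ρ = 31/100` and `F = 1 - h/z` on `ball 0 ρ`: analytic, without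
zeros, `F 0 = 1`, `‖F‖ ≤ 1 + 2/‖z‖` (BND, `‖l‖ = 1`). Let `L` be analytic on `ball 0 ρ` with
`exp L = F`, `L 0 = 0` (a primitive of `F'/F`). `Re L = log ‖F‖ ≤ A := log (1 + 2/‖z‖)`, `A > 0`. By
`Complex.borelCaratheodory_zero` (Mathlib): `‖L w‖ ≤ 2 A ‖w‖/(ρ - ‖w‖)` for `‖w‖ < ρ` (if Mathlib
wants `Re L < A'`, use all `A' > A`); so `‖deriv L 0‖ ≤ 2 A/ρ`. As `deriv L 0 = F' 0/F 0 = -1/z`:
`ρ ≤ 2 x log (1 + 2/x)`, `x = ‖z‖`. Suppose `x < 1/26`. The function `x ↦ x log (1 + 2/x)` is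
increasing on `(0, ∞)` (derivative `log (1 + t) - t/(1 + t) ≥ 0`, `t = 2/x`; or: `log (1 + 2/x) ≤
log 53 + ((1 + 2/x)/53 - 1)`, `log y ≤ y - 1`, so `x log (1 + 2/x) ≤ x log 53 + (x + 2)/53 - x ≤
(1/26)(log 53 - 1) + (1/26 + 2)/53 = (log 53)/26`), so `31/100 ≤ (log 53)/13 < 4/13 = 0.3077`,
a contradiction (`log 53 < 4`, since `e^4 > 2.718^4 > 54`). -/
def SpecPER : Prop :=
  ∀ (l : ℂ) (r : ℝ) (z : ℂ) (q : ℕ), Neutral l → 31 / 100 ≤ r → Lin l r → z ≠ 0 → 1 ≤ q →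
    (P l)^[q] z = z → 1 / 26 ≤ ‖z‖

/-- PRO (90 lines). PROOF. Let `Q 0 = X`, `Q (k+1) = C l * (Q k + Q k ^ 2)`: `(Q k).eval z =
(P l)^[k] z` (use `Function.iterate_succ_apply'`), degree `2^k`, leading coefficient of modulus one
(`lc (Q (k+1)) = l * (lc (Q k))^2`), `coeff 0 = 0`, `coeff 1 = l^k`. `Q q - X = X * S` with
`S` of degree `2^q - 1`, leading coefficient of modulus one (`q ≥ 1`, so `2^q ≥ 2`) and
`S.eval 0 = S.coeff 0 = l^q - 1 ≠ 0`. Over `ℂ` the polynomial `S` splits: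
`S = C lc * ∏ (X - C z_i)` over its `2^q - 1` roots, none of them `0`, each with
`(P l)^[q] z_i = z_i`, so `‖l^q - 1‖ = ‖S.eval 0‖ = ∏ ‖z_i‖ ≥ c^(2^q - 1)`. -/
def SpecPRO : Prop :=
  ∀ (l : ℂ) (q : ℕ) (c : ℝ), ‖l‖ = 1 → 1 ≤ q → l ^ q ≠ 1 → 0 ≤ c →
    (∀ z : ℂ, z ≠ 0 → (P l)^[q] z = z → c ≤ ‖z‖) → c ^ (2 ^ q - 1) ≤ ‖l ^ q - 1‖

/-- MAX (90 lines, uses BND, RUN, LIM). PROOF. Let `S = {r | 0 < r ∧ ∃ l, Neutral l ∧ Lin l r}`: it
contains `r1` and is bounded by `2`: for `r ∈ S`, `‖h‖ ≤ 2` on `ball 0 r` (BND) and Cauchy's estimate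
for the derivative at `0` on the circle of radius `s < r` give `1 ≤ 2/s`. Let `m = sSup S ≥ r1 > 0`,
`r_k ∈ S` with `r_k → m`, `l_k` as in `S`. The unit circle is compact, so along a subsequence
`l_k → l`, `‖l‖ = 1`. `Lin l m` by LIM and `l` is not a root of unity by RUN. If `Neutral l'`,
`Lin l' r`, then `r ≤ m` (`r ∈ S` or `r ≤ 0 < m`). -/
def SpecMAX : Prop :=
  ∀ (l1 : ℂ) (r1 : ℝ), Neutral l1 → 0 < r1 → Lin l1 r1 →
    ∃ m : ℝ, r1 ≤ m ∧ (∀ (l : ℂ) (r : ℝ), Neutral l → Lin l r → r ≤ m) ∧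
      ∃ l : ℂ, Neutral l ∧ Lin l m

/-- FIN (80 lines, uses INN, NUM, PER, PRO, MAX, TAI). PROOF. NUM and INN (with
`c = ‖uu l0 n‖ - 4 ‖l0‖^n/(1 - ‖l0‖) > 31/100`) give `l1` with `Lin l1 c`; MAX gives `m ≥ c`. The third
clause: PER with `r = m` and PRO. The fourth: `uu l` is a Cauchy sequence by TAI, let `u` be its
limit; for every `n`, `‖uu l n‖ - 4 ‖l‖^n/(1 - ‖l‖) ≤ m` (if it is `> 0`, by INN and the maximality of
`m`); let `n → ∞`. -/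
def SpecFIN : Prop :=
  ∃ m : ℝ, 31 / 100 < m ∧ (∀ (l : ℂ) (r : ℝ), Neutral l → Lin l r → r ≤ m) ∧
    (∃ l : ℂ, Neutral l ∧ Lin l m) ∧
    (∀ l : ℂ, Neutral l → Lin l m → ∀ q : ℕ, 1 ≤ q → (1 / 26 : ℝ) ^ (2 ^ q - 1) ≤ ‖l ^ q - 1‖) ∧
    ∀ l : ℂ, ‖l‖ < 1 → ∃ u : ℂ, Tendsto (uu l) atTop (𝓝 u) ∧ ‖u‖ ≤ m

end Pool.Agent.Lib.MP49ebba
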