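import Pool.Agent.Lib.MP_49ebba_an.MR.Spec

/-!
# MR, part B: `R(l) ≤ 4 |l^q - 1|^(1/(2^q - 1))` for all `l` and `q`, and `m ≤ 1` (MP_49ebba_an)

Same rules as in MR/Spec.lean: module XXX = file MR/XXX.lean, imports this file
(`Pool.Agent.Lib.MP_49ebba_an.MR.SpecB`) and, where said, proved files of `Lib/MP_250511_an`
(`STA`, `PAR`, `POL`, `SQR`, `INV`; theorems `Pool.Agent.Lib.MP250511.specSTA : SpecSTA` etc. WITHOUT
hypotheses), theorem `specXXX (hYYY : SpecYYY) .. : SpecXXX` in the namespace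
`Pool.Agent.Lib.MP49ebba`. Table mrl_modules. -/

namespace Pool.Agent.Lib.MP49ebba

open Metric Filter Topology

/-- BIE (130 lines; import also `Pool.Agent.Lib.MP_250511_an.STA`, `.PAR`, `.POL`). The inequality of
Bieberbach and Eilenberg. PROOF. Let `a = ‖deriv Y 0‖`. `Y z = z y z` with `y` analytic on the disc
(dslope), `y 0 = deriv Y 0`, and `y` has no zero (`Y` is injective, `deriv Y 0 ≠ 0` by `specINV`, or:
if `a = 0` nothing is to be proved). So `Y'/Y = 1/z + y'/y = (1 + z k z)/z`, `k = y'/y` analytic on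
the disc. Use specSTA with `κ = 0`, `ξ = 1`, `W` = the indicator (values `0`, `1`) of
`{Z | ‖Z‖ < 1/ε}`: `JJ Y 0 1 z = ‖Y' z/Y z‖^2`, `NN 0 1 Z = 1/‖Z‖^2`. Right-hand side:
`∫⁻ over 1 ≤ ‖Z‖ < 1/ε of 1/‖Z‖^2 = 2 π log (1/ε)` (specPOL for the open annulus, the circle
`‖Z‖ = 1` is a null set). Left-hand side: fix `r < 1` and `0 < b < a`; there is `δ0` with
`‖Y z‖ > b ‖z‖` for `0 < ‖z‖ ≤ δ0`; on `δ0 ≤ ‖z‖ ≤ r` the continuous `‖Y‖` is between two positive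
numbers. Let `δ < δ0` be so small that `ε = b δ` is smaller than the lower one, smaller than `1` and
than the inverse of the upper one. For `δ < ‖z‖ < r`: `‖Y z‖ > ε` and `‖Y z‖ < 1/ε`, so
`‖Th Y z‖ < 1/ε`, `W (Th Y z) = 1`. So the left-hand side is at least
`∫_{δ<‖z‖<r} ‖Y'/Y‖^2 = ∫_δ^r t t^(-2) (∫ ‖1 + z k z‖^2 dθ) dt ≥ ∫_δ^r 2 π dt/t = 2 π log (r/δ)`
(specPOL, specPAR with `J = 1`, `a 0 = 1`). So `log (r/δ) ≤ log (1/(b δ))`, `r b ≤ 1`. Let `r → 1`,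
`b → a`. -/
def SpecBIE : Prop :=
  ∀ Y : ℂ → ℂ, AnalyticOnNhd ℂ Y (ball 0 1) → Set.InjOn Y (ball 0 1) → Y 0 = 0 →
    (∀ z ∈ ball (0 : ℂ) 1, ∀ w ∈ ball (0 : ℂ) 1, Y z * Y w ≠ 1) → ‖deriv Y 0‖ ≤ 1

/-- KOE (90 lines, uses BIE; import also `Pool.Agent.Lib.MP_250511_an.SQR`). Koebe's theorem. PROOF.
`w ≠ 0 = h 0`. Let `f z = 1 - h (r z)/w` on the unit disc: analytic, no zeros, `f 0 = 1`,
`f' 0 = -r/w`. By specSQR there is an analytic `s`, `s 0 = 1`, `s^2 = f`; `s' 0 = f' 0/2`. If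
`s z = -1`, then `f z = 1`, `h (r z) = 0`, `z = 0`, but `s 0 = 1`. `Y = (s - 1)/(s + 1)` is analytic,
`Y 0 = 0`, `Y' 0 = s' 0/2 = -r/(4 w)`, injective (`Y z = Y z'` gives `s z = s z'`, `f z = f z'`,
`z = z'`), and `Y z * Y z' = 1` gives `s z' = - s z`, so `f z' = f z`, `z' = z`, `s z = 0`,
`f z = 0`, a contradiction. BIE: `r/(4 ‖w‖) ≤ 1`. -/
def SpecKOE : Prop :=
  ∀ (r : ℝ) (h : ℂ → ℂ) (w : ℂ), 0 < r → DifferentiableOn ℂ h (ball 0 r) →
    Set.InjOn h (ball 0 r) → h 0 = 0 → deriv h 0 = 1 → (∀ z ∈ ball (0 : ℂ) r, h z ≠ w) →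
    r / 4 ≤ ‖w‖

/-- UNI (60 lines). PROOF. Let `h z = h w`, `z ≠ w`, `M = max ‖z‖ ‖w‖`, `0 < M < r`. For all `n`:
`h (l^n z) = (P l)^[n] (h z) = (P l)^[n] (h w) = h (l^n w)`. So `g ζ = h (ζ z) - h (ζ w)`, analytic on
`ball 0 (r/M)`, which contains the unit circle, vanishes at the infinitely many points `l^n` of the
unit circle (compact); by the identity theorem (`Set.Infinite.exists_accPt_of_subset_isCompact`,
`AnalyticOnNhd.eqOn_of_preconnected_of_frequently_eq`; see the file PER.lean, which does the same)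
`g = 0` on the ball, so `0 = deriv g 0 = z - w`, a contradiction. -/
def SpecUNI : Prop :=
  ∀ (l : ℂ) (r : ℝ) (h : ℂ → ℂ), Neutral l → IsLin l r h → Set.InjOn h (ball 0 r)

/-- UPO (100 lines, uses BIE, UNI; import also `Pool.Agent.Lib.MP_250511_an.INV` for the derivative).
`R(l) ≤ 1`. PROOF. Let `r > 0`. `h` is injective (UNI). If `h w = -1`, then `h (l w) = P l (-1) = 0`, so `l w = 0`,
`w = 0`, but `h 0 = 0`. So `Y z = h (r z)/(1 + h (r z))` is analytic on the unit disc, `Y 0 = 0`,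
`Y' 0 = r`, injective (a Moebius transformation of `h`). Suppose `Y z1 * Y z2 = 1`; with
`a = h (r z1)`, `b = h (r z2)`: `a b = (1 + a)(1 + b)`, so `a + b = -1` and
`P l a = l a (1 + a) = - l a b = P l b`, so `h (l r z1) = h (l r z2)`, `z1 = z2`, `a = b = -1/2`.
Differentiate `P l (h z) = h (l z)` at `z = r z1`: `l (1 + 2 a) h' (r z1) = l h' (l r z1)`, so
`h' (l r z1) = 0`, which is impossible for an injective analytic function (specINV for
`z ↦ h (r z)` on the unit disc). So BIE gives `r ≤ 1`. -/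
def SpecUPO : Prop := ∀ (l : ℂ) (r : ℝ), Neutral l → Lin l r → r ≤ 1

/-- PEK (50 lines, uses KOE, UNI). PROOF. Let `h` be a linearisation on `ball 0 r`. If `z = h w`, then
`h (l^q w) = (P l)^[q] (h w) = (P l)^[q] z = z = h w`, so `l^q w = w` (UNI), `w = 0` as `l^q ≠ 1`, and
`z = h 0 = 0`, a contradiction. So `z` is omitted by `h`: KOE. -/
def SpecPEK : Prop :=
  ∀ (l : ℂ) (r : ℝ) (z : ℂ) (q : ℕ), Neutral l → 0 < r → Lin l r → z ≠ 0 → 1 ≤ q →
    (P l)^[q] z = z → r / 4 ≤ ‖z‖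

end Pool.Agent.Lib.MP49ebba
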