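import Pool.Agent.Lib.MP_49ebba_an.MR.SpecB
import Pool.Agent.Lib.MP_49ebba_an.MR.PEK
import Pool.Agent.Lib.MP_250511_an.INV

/-! # Module TWO: two omitted points, explicit bounds (MP_49ebba_an) -/

set_option autoImplicit false

namespace Pool.Agent.Lib.MP49ebba

open Metric Filter Topology

namespace TWOM

theorem lmem {l : ℂ} {r : ℝ} (hl1 : ‖l‖ = 1) (w : ℂ) (hw : w ∈ ball (0 : ℂ) r) :
    l * w ∈ ball (0 : ℂ) r := by
  rw [mem_ball_zero_iff] at hw ⊢
  rw [norm_mul, hl1, one_mul]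
  exact hw

/-- Periodic points are omitted. -/
theorem omit_per (hUNI : SpecUNI) {l : ℂ} {r : ℝ} {h : ℂ → ℂ} (hl : Neutral l) (hh : IsLin l r h)
    (z : ℂ) (q : ℕ) (hz : z ≠ 0) (hq : 1 ≤ q) (hper : (P l)^[q] z = z) :
    ∀ w ∈ ball (0 : ℂ) r, h w ≠ z := by
  intro w hw hwz
  have hinj := hUNI l r h hl hh
  have h1 := PEKM.iter hl.1 hh q w hw
  rw [hwz, hper, ← hwz] at h1
  have hw' : l ^ q * w ∈ ball (0 : ℂ) r := by
    rw [mem_ball_zero_iff] at hw ⊢
    rw [norm_mul, norm_pow, hl.1, one_pow, one_mul]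
    exact hw
  have h2 : w = l ^ q * w := hinj hw hw' h1
  have h3 : (l ^ q - 1) * w = 0 := by linear_combination -h2
  rcases mul_eq_zero.1 h3 with h4 | h4
  · exact hl.2 q (by omega) (by linear_combination h4)
  · rw [h4, hh.zero] at hwz
    exact hz hwz.symm

/-- The derivative of an injective `h` has no zero. -/
theorem deriv_ne {r : ℝ} {h : ℂ → ℂ} (hr : 0 < r) (hd : DifferentiableOn ℂ h (ball 0 r))
    (hinj : Set.InjOn h (ball 0 r)) : ∀ w ∈ ball (0 : ℂ) r, deriv h w ≠ 0 := by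
  have hrc : (r : ℂ) ≠ 0 := by exact_mod_cast hr.ne'
  have hrmem : ∀ z : ℂ, z ∈ ball (0 : ℂ) 1 → (r : ℂ) * z ∈ ball (0 : ℂ) r := by
    intro z hz
    rw [mem_ball_zero_iff] at hz ⊢
    rw [norm_mul, Complex.norm_real, Real.norm_of_nonneg hr.le]
    nlinarith
  set G : ℂ → ℂ := fun z => h ((r : ℂ) * z) with hG
  have hGd : ∀ z ∈ ball (0 : ℂ) 1, HasDerivAt G (deriv h ((r : ℂ) * z) * r) z := by
    intro z hz
    have h1 := (hd.differentiableAt (isOpen_ball.mem_nhds (hrmem z hz))).hasDerivAt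
    have h2 : HasDerivAt (fun y : ℂ => (r : ℂ) * y) (r : ℂ) z := by
      simpa using (hasDerivAt_id z).const_mul (r : ℂ)
    exact h1.comp z h2
  have hGdiff : DifferentiableOn ℂ G (ball 0 1) := fun z hz =>
    (hGd z hz).differentiableAt.differentiableWithinAt
  have hGinj : Set.InjOn G (ball 0 1) := by
    intro z hz w hw hzw
    exact mul_left_cancel₀ hrc (hinj (hrmem z hz) (hrmem w hw) hzw)
  have hGne : ∀ z ∈ ball (0 : ℂ) 1, deriv G z ≠ 0 :=
    (Pool.Agent.Lib.MP250511.specINV G (hGdiff.analyticOnNhd isOpen_ball) hGinj).1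
  intro w hw hw0
  have hz : w / r ∈ ball (0 : ℂ) 1 := by
    rw [mem_ball_zero_iff] at hw ⊢
    rw [norm_div, Complex.norm_real, Real.norm_of_nonneg hr.le, div_lt_one hr]
    exact hw
  apply hGne (w / r) hz
  rw [(hGd _ hz).deriv, mul_div_cancel₀ _ hrc, hw0, zero_mul]

/-- The critical point is omitted. -/
theorem omit_crit (hUNI : SpecUNI) {l : ℂ} {r : ℝ} {h : ℂ → ℂ} (hl : Neutral l)
    (hh : IsLin l r h) (hr : 0 < r) : ∀ p ∈ ball (0 : ℂ) r, h p ≠ -1 / 2 := by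
  intro p hpm hp
  have hl1 := hl.1
  have hl0 : l ≠ 0 := by
    rintro rfl
    simp at hl1
  have hinj := hUNI l r h hl hh
  have hne := deriv_ne hr hh.diff hinj
  have hdiff : ∀ w ∈ ball (0 : ℂ) r, HasDerivAt h (deriv h w) w := fun w hw =>
    (hh.diff.differentiableAt (isOpen_ball.mem_nhds hw)).hasDerivAt
  have e8 : (1 : ℂ) + 2 * h p = 0 := by rw [hp]; ring
  have d1 : HasDerivAt (fun y => P l (h y)) (l * (deriv h p + 2 * h p * deriv h p)) p := by
    have d2 := hdiff p hpm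
    have d3 := ((d2.add (d2.pow 2)).const_mul l)
    have d4 : l * (deriv h p + ((2 : ℕ) : ℂ) * h p ^ (2 - 1) * deriv h p)
        = l * (deriv h p + 2 * h p * deriv h p) := by norm_num
    rw [d4] at d3
    exact d3
  have d5 : HasDerivAt (fun y => h (l * y)) (deriv h (l * p) * l) p := by
    have d6 := hdiff _ (lmem hl1 p hpm)
    have d7 : HasDerivAt (fun y : ℂ => l * y) l p := by
      simpa using (hasDerivAt_id p).const_mul l
    exact d6.comp p d7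
  have d8 : (fun y => P l (h y)) =ᶠ[𝓝 p] fun y => h (l * y) := by
    filter_upwards [isOpen_ball.mem_nhds hpm] with y hy
    exact hh.eqn y hy
  have d9 : HasDerivAt (fun y => h (l * y)) (l * (deriv h p + 2 * h p * deriv h p)) p :=
    d1.congr_of_eventuallyEq d8.symm
  have d10 := d9.unique d5
  have d11 : l * (deriv h p + 2 * h p * deriv h p) = 0 := by
    linear_combination (l * deriv h p) * e8
  rw [d11] at d10
  rcases mul_eq_zero.1 d10.symm with h7 | h7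
  · exact hne _ (lmem hl1 p hpm) h7
  · exact hl0 h7

/-- The critical value is omitted. -/
theorem omit_val (hUNI : SpecUNI) {l : ℂ} {r : ℝ} {h : ℂ → ℂ} (hl : Neutral l)
    (hh : IsLin l r h) (hr : 0 < r) : ∀ p ∈ ball (0 : ℂ) r, h p ≠ -l / 4 := by
  intro p hpm hp
  have hl1 := hl.1
  have hl0 : l ≠ 0 := by
    rintro rfl
    simp at hl1
  have hp' : l⁻¹ * p ∈ ball (0 : ℂ) r := by
    rw [mem_ball_zero_iff] at hpm ⊢
    rw [norm_mul, norm_inv, hl1, inv_one, one_mul]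
    exact hpm
  have h1 := hh.eqn _ hp'
  rw [mul_inv_cancel_left₀ hl0, hp] at h1
  unfold P at h1
  have h2 : l * (h (l⁻¹ * p) + 1 / 2) ^ 2 = 0 := by linear_combination h1
  have h3 : h (l⁻¹ * p) + 1 / 2 = 0 := by
    rcases mul_eq_zero.1 h2 with h4 | h4
    · exact absurd h4 hl0
    · exact pow_eq_zero_iff (two_ne_zero) |>.1 h4
  exact omit_crit hUNI hl hh hr _ hp' (by linear_combination h3)

/-- Two omitted points. -/
theorem two (hKOE : SpecKOE) {r : ℝ} {h : ℂ → ℂ} (hr : 0 < r)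
    (hd : DifferentiableOn ℂ h (ball 0 r)) (hinj : Set.InjOn h (ball 0 r)) (h0 : h 0 = 0)
    (h1 : deriv h 0 = 1) (w1 w2 : ℂ) (ho1 : ∀ z ∈ ball (0 : ℂ) r, h z ≠ w1)
    (ho2 : ∀ z ∈ ball (0 : ℂ) r, h z ≠ w2) : r * ‖w1⁻¹ - w2⁻¹‖ ≤ 4 := by
  have hmem0 : (0 : ℂ) ∈ ball (0 : ℂ) r := mem_ball_self hr
  have hw1 : w1 ≠ 0 := fun h => ho1 0 hmem0 (by rw [h0, h])
  have hw2 : w2 ≠ 0 := fun h => ho2 0 hmem0 (by rw [h0, h])
  by_cases hww : w1 = w2
  · rw [hww, sub_self, norm_zero, mul_zero]; norm_num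
  have hc : ∀ z ∈ ball (0 : ℂ) r, 1 - h z * w2⁻¹ ≠ 0 := by
    intro z hz hzero
    apply ho2 z hz
    have : h z * w2⁻¹ = 1 := by linear_combination -hzero
    rw [← div_eq_mul_inv, div_eq_one_iff_eq hw2] at this
    exact this
  have hdiff : ∀ w ∈ ball (0 : ℂ) r, HasDerivAt h (deriv h w) w := fun w hw =>
    (hd.differentiableAt (isOpen_ball.mem_nhds hw)).hasDerivAt
  set g : ℂ → ℂ := fun z => h z / (1 - h z * w2⁻¹) with hg
  have hgd : ∀ z ∈ ball (0 : ℂ) r, HasDerivAt g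
      ((deriv h z * (1 - h z * w2⁻¹) - h z * (-(deriv h z * w2⁻¹))) / (1 - h z * w2⁻¹) ^ 2) z := by
    intro z hz
    have := (hdiff z hz).div (((hdiff z hz).mul_const w2⁻¹).const_sub 1) (hc z hz)
    exact this
  have hgdiff : DifferentiableOn ℂ g (ball 0 r) := fun z hz =>
    (hgd z hz).differentiableAt.differentiableWithinAt
  have hginj : Set.InjOn g (ball 0 r) := by
    intro z hz w hw hzw
    apply hinj hz hw
    simp only [hg] at hzw
    rw [div_eq_div_iff (hc z hz) (hc w hw)] at hzw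
    linear_combination hzw
  have hg0 : g 0 = 0 := by simp only [hg, h0, zero_div]
  have hg1 : deriv g 0 = 1 := by
    rw [(hgd 0 hmem0).deriv, h0, h1]
    simp
  have hinvne : w1⁻¹ - w2⁻¹ ≠ 0 := by
    intro h
    exact hww (inv_injective (sub_eq_zero.1 h))
  have hgo : ∀ z ∈ ball (0 : ℂ) r, g z ≠ (w1⁻¹ - w2⁻¹)⁻¹ := by
    intro z hz hzw
    apply ho1 z hz
    simp only [hg] at hzw
    rw [div_eq_iff (hc z hz)] at hzw
    have e1 : (w1⁻¹ - w2⁻¹) * h z = 1 - h z * w2⁻¹ := by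
      have := congrArg (fun t => (w1⁻¹ - w2⁻¹) * t) hzw
      simp only [mul_inv_cancel_left₀ hinvne] at this
      exact this
    have e2 : w1⁻¹ * h z = 1 := by linear_combination e1
    calc h z = w1 * (w1⁻¹ * h z) := by rw [mul_inv_cancel_left₀ hw1]
      _ = w1 := by rw [e2, mul_one]
  have hk := hKOE r g _ hr hgdiff hginj hg0 hg1 hgo
  rw [norm_inv] at hk
  have hpos : 0 < ‖w1⁻¹ - w2⁻¹‖ := norm_pos_iff.2 hinvne
  rw [div_le_iff₀ (by norm_num : (0 : ℝ) < 4)] at hk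
  have : r * ‖w1⁻¹ - w2⁻¹‖ ≤ ‖w1⁻¹ - w2⁻¹‖⁻¹ * 4 * ‖w1⁻¹ - w2⁻¹‖ := by gcongr
  have e3 : ‖w1⁻¹ - w2⁻¹‖⁻¹ * 4 * ‖w1⁻¹ - w2⁻¹‖ = 4 := by
    rw [mul_right_comm, inv_mul_cancel₀ hpos.ne', one_mul]
  rw [e3] at this
  exact this

end TWOM

open TWOM in
/-- The explicit bounds. -/
theorem explicit_bounds (hKOE : SpecKOE) (hUNI : SpecUNI) (l : ℂ) (r : ℝ) (hl : Neutral l)
    (hr : 0 < r) (hlin : Lin l r) :
    r * ‖l - 2‖ ≤ 2 ∧ r * ‖l - 2‖ ^ 2 ≤ 4 * ‖l - 1‖ ∧ r ^ 2 * ‖l - 3‖ ≤ 16 * ‖l + 1‖ := by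
  obtain ⟨h, hh⟩ := hlin
  have hl1 := hl.1
  have hl0 : l ≠ 0 := by
    rintro rfl
    simp at hl1
  have hlne1 : l ≠ 1 := by
    have := hl.2 1 one_pos
    simpa using this
  have hlne2 : l + 1 ≠ 0 := by
    intro h
    apply hl.2 2 two_pos
    have : l = -1 := by linear_combination h
    rw [this]; norm_num
  have hinj := hUNI l r h hl hh
  have hval := omit_val hUNI hl hh hr
  have hcrit := omit_crit hUNI hl hh hr
  refine ⟨?_, ?_, ?_⟩
  · have := two hKOE hr hh.diff hinj hh.zero hh.one _ _ hval hcrit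
    have e1 : (-l / 4)⁻¹ - (-1 / 2 : ℂ)⁻¹ = 2 * (l - 2) * l⁻¹ := by
      field_simp
      ring
    rw [e1, norm_mul, norm_mul, norm_inv, hl1, inv_one, mul_one] at this
    have e2 : ‖(2 : ℂ)‖ = 2 := by simp
    rw [e2] at this
    linarith
  · have hfix : ∀ z ∈ ball (0 : ℂ) r, h z ≠ l⁻¹ - 1 := by
      apply omit_per hUNI hl hh _ 1 _ le_rfl
      · simp only [Function.iterate_one, P]
        field_simp
        ring
      · intro h0
        apply hlne1
        have : l⁻¹ = 1 := by linear_combination h0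
        rw [inv_eq_one] at this
        exact this
    have := two hKOE hr hh.diff hinj hh.zero hh.one _ _ hval hfix
    have hl11 : 1 - l ≠ 0 := sub_ne_zero.2 (Ne.symm hlne1)
    have e0 : l⁻¹ - 1 = (1 - l) * l⁻¹ := by field_simp
    have e1 : (-l / 4)⁻¹ - (l⁻¹ - 1)⁻¹ = -((l - 2) ^ 2 * (l⁻¹ * (1 - l)⁻¹)) := by
      rw [e0]
      field_simp
      ring
    rw [e1, norm_neg, norm_mul, norm_pow, norm_mul, norm_inv, hl1, inv_one, one_mul, norm_inv,
      norm_sub_rev 1 l] at this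
    have hpos : 0 < ‖l - 1‖ := norm_pos_iff.2 (sub_ne_zero.2 hlne1)
    calc r * ‖l - 2‖ ^ 2 = (r * (‖l - 2‖ ^ 2 * ‖l - 1‖⁻¹)) * ‖l - 1‖ := by field_simp
      _ ≤ 4 * ‖l - 1‖ := by gcongr
  · obtain ⟨s, hs⟩ := IsAlgClosed.exists_pow_nat_eq (l ^ 2 * (l - 3) / (l + 1)) two_pos
    have hs' : s ^ 2 * (l + 1) = l ^ 2 * (l - 3) := by rw [hs]; field_simp
    have key : ∀ p : ℂ, (l + 1) * p ^ 2 + l * (l + 1) * p + l ^ 2 = 0 →
        ∀ z ∈ ball (0 : ℂ) r, h z ≠ p⁻¹ := by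
      intro p hp
      have hp0 : p ≠ 0 := by
        rintro rfl
        simp at hp
        exact hl0 hp
      have hz : l ^ 2 * (p⁻¹) ^ 2 + l * (l + 1) * p⁻¹ + (l + 1) = 0 := by
        have : l ^ 2 * (p⁻¹) ^ 2 + l * (l + 1) * p⁻¹ + (l + 1) =
            ((l + 1) * p ^ 2 + l * (l + 1) * p + l ^ 2) * (p⁻¹) ^ 2 := by
          field_simp
          ring
        rw [this, hp, zero_mul]
      apply omit_per hUNI hl hh _ 2 (inv_ne_zero hp0) (by norm_num)
      show P l (P l p⁻¹) = p⁻¹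
      unfold P
      linear_combination (p⁻¹ * (l * p⁻¹ + l - 1)) * hz
    have k1 := key ((-l + s) / 2) (by linear_combination (1 / 4 : ℂ) * hs')
    have k2 := key ((-l - s) / 2) (by linear_combination (1 / 4 : ℂ) * hs')
    have := two hKOE hr hh.diff hinj hh.zero hh.one _ _ k1 k2
    rw [inv_inv, inv_inv] at this
    have e1 : (-l + s) / 2 - (-l - s) / 2 = s := by ring
    rw [e1] at this
    have e2 : ‖s‖ ^ 2 * ‖l + 1‖ = ‖l - 3‖ := by
      rw [← norm_pow, ← norm_mul, hs', norm_mul, norm_pow, hl1, one_pow, one_mul]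
    rw [← e2]
    have h4 : (r * ‖s‖) ^ 2 ≤ 4 ^ 2 := by gcongr
    calc r ^ 2 * (‖s‖ ^ 2 * ‖l + 1‖) = (r * ‖s‖) ^ 2 * ‖l + 1‖ := by ring
      _ ≤ 4 ^ 2 * ‖l + 1‖ := by gcongr
      _ = 16 * ‖l + 1‖ := by norm_num

end Pool.Agent.Lib.MP49ebba
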